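import Mathlib

/-!
# Sampling without replacement versus sampling with replacement, for rare statuses
-/

namespace Pool.Agent.Helper2.OC

open Finset

section

variable {α : Type*} [Fintype α] [DecidableEq α]

/-- resampling one coordinate -/
theorem sum_update_pi {ι : Type*} [Fintype ι] [DecidableEq ι] (i : ι) (F : (ι → α) → ℝ) :
    ∑ t : ι → α, ∑ x : α, F (Function.update t i x) = (Fintype.card α : ℝ) * ∑ t, F t := by
  classical
  let E : ((ι → α) × α) ≃ ((ι → α) × α) :=
    { toFun := fun q => (Function.update q.1 i q.2, q.1 i)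
      invFun := fun q => (Function.update q.1 i q.2, q.1 i)
      left_inv := by
        rintro ⟨ω, x⟩
        simp
      right_inv := by
        rintro ⟨ω, x⟩
        simp }
  rw [← Fintype.sum_prod_type' (f := fun (ω : ι → α) (x : α) => F (Function.update ω i x))]
  have h1 : ∑ q : (ι → α) × α, F (Function.update q.1 i q.2) = ∑ q : (ι → α) × α, F q.1 :=
    Fintype.sum_equiv E (fun q => F (Function.update q.1 i q.2)) (fun q => F q.1) (fun q => rfl)
  rw [h1, Fintype.sum_prod_type]
  simp only [Finset.sum_const, Finset.card_univ, nsmul_eq_mul]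
  rw [Finset.mul_sum]

/-- number of elements of status `a` -/
noncomputable def cnt (st : α → Fin 3) (a : Fin 3) : ℝ := ∑ i, if st i = a then (1:ℝ) else 0

/-- number of used elements -/
noncomputable def ucnt (st : α → Fin 3) : ℝ := ∑ i, if st i ≠ 0 then (1:ℝ) else 0

variable {k : ℕ}

theorem sum_all (st : α → Fin 3) (h : (Fin k → Fin 3) → ℝ) :
    ∑ t : Fin k → α, h (fun i => st (t i)) = ∑ a : Fin k → Fin 3, h a * ∏ i, cnt st (a i) := by
  have h1 : ∀ a : Fin k → Fin 3, ∏ i, cnt st (a i) =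
      ∑ t : Fin k → α, ∏ i, (if st (t i) = a i then (1:ℝ) else 0) := by
    intro a
    unfold cnt
    rw [Finset.prod_univ_sum]
    rw [Fintype.piFinset_univ]
  simp only [h1, Finset.mul_sum]
  rw [Finset.sum_comm]
  refine Finset.sum_congr rfl fun t _ => ?_
  rw [Finset.sum_eq_single (fun i => st (t i))]
  · simp
  · intro a _ ha
    have : ∃ i, st (t i) ≠ a i := by
      by_contra hcon
      push Not at hcon
      exact ha (funext fun i => (hcon i).symm)
    obtain ⟨i, hi⟩ := this
    rw [Finset.prod_eq_zero (Finset.mem_univ i) (if_neg hi), mul_zero]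
  · intro h
    exact absurd (Finset.mem_univ _) h

theorem sum_used (st : α → Fin 3) (l : Fin k) :
    (Fintype.card α : ℝ) * ∑ t : Fin k → α, (if st (t l) ≠ 0 then (1:ℝ) else 0) =
      (Fintype.card α : ℝ) ^ k * ucnt st := by
  rw [← sum_update_pi l]
  have h1 : ∀ t : Fin k → α, ∑ x : α, (if st (Function.update t l x l) ≠ 0 then (1:ℝ) else 0) =
      ucnt st := by
    intro t
    unfold ucnt
    simp
  rw [Finset.sum_congr rfl fun t _ => h1 t, Finset.sum_const, Finset.card_univ, nsmul_eq_mul,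
    Fintype.card_fun, Fintype.card_fin]
  push_cast
  rfl

theorem sum_coinc {i j : Fin k} (hij : i ≠ j) :
    (Fintype.card α : ℝ) * ∑ t : Fin k → α, (if t i = t j then (1:ℝ) else 0) =
      (Fintype.card α : ℝ) ^ k := by
  rw [← sum_update_pi i]
  have h1 : ∀ t : Fin k → α, ∑ x : α, (if Function.update t i x i = Function.update t i x j
      then (1:ℝ) else 0) = 1 := by
    intro t
    simp [Function.update_of_ne hij.symm]
  rw [Finset.sum_congr rfl fun t _ => h1 t, Finset.sum_const, Finset.card_univ, nsmul_eq_mul,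
    Fintype.card_fun, Fintype.card_fin]
  push_cast
  ring

theorem sum_coinc_used_aux (st : α → Fin 3) {i j l : Fin k} (hij : i ≠ j) (hil : i ≠ l) :
    (Fintype.card α : ℝ) ^ 2 * ∑ t : Fin k → α, (if t i = t j ∧ st (t l) ≠ 0 then (1:ℝ) else 0) =
      (Fintype.card α : ℝ) ^ k * ucnt st := by
  rw [sq, mul_assoc, ← sum_update_pi i, ← sum_used st l]
  congr 1
  refine Finset.sum_congr rfl fun t _ => ?_
  simp only [Function.update_self, Function.update_of_ne hij.symm, Function.update_of_ne hil.symm]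
  by_cases h : st (t l) ≠ 0
  · simp [h]
  · simp [h]

theorem sum_coinc_used (st : α → Fin 3) {i j : Fin k} (hij : i ≠ j) (l : Fin k) :
    (Fintype.card α : ℝ) ^ 2 * ∑ t : Fin k → α, (if t i = t j ∧ st (t l) ≠ 0 then (1:ℝ) else 0) =
      (Fintype.card α : ℝ) ^ k * ucnt st := by
  by_cases h : i = l
  · subst h
    rw [← sum_coinc_used_aux st hij.symm hij.symm]
    congr 1
    refine Finset.sum_congr rfl fun t _ => ?_
    simp only [eq_comm]
  · exact sum_coinc_used_aux st hij h

theorem ucnt_nonneg (st : α → Fin 3) : 0 ≤ ucnt st :=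
  Finset.sum_nonneg fun i _ => by split_ifs <;> norm_num

/-- tuples with some used coordinate -/
theorem sum_someused (st : α → Fin 3) :
    (Fintype.card α : ℝ) * ∑ t : Fin k → α, (if ∃ l, st (t l) ≠ 0 then (1:ℝ) else 0) ≤
      k * ((Fintype.card α : ℝ) ^ k * ucnt st) := by
  have h1 : ∀ t : Fin k → α, (if ∃ l, st (t l) ≠ 0 then (1:ℝ) else 0) ≤
      ∑ l : Fin k, (if st (t l) ≠ 0 then (1:ℝ) else 0) := by
    intro t
    by_cases h : ∃ l, st (t l) ≠ 0
    · obtain ⟨l, hl⟩ := id h
      rw [if_pos h]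
      calc (1:ℝ) = (if st (t l) ≠ 0 then (1:ℝ) else 0) := by rw [if_pos hl]
        _ ≤ _ := Finset.single_le_sum (f := fun l => (if st (t l) ≠ 0 then (1:ℝ) else 0))
          (fun l _ => by split_ifs <;> norm_num) (Finset.mem_univ l)
    · rw [if_neg h]
      exact Finset.sum_nonneg fun l _ => by split_ifs <;> norm_num
  have h2 := Finset.sum_le_sum fun (t : Fin k → α) (_ : t ∈ Finset.univ) => h1 t
  rw [Finset.sum_comm] at h2
  have h3 := mul_le_mul_of_nonneg_left h2 (Nat.cast_nonneg (Fintype.card α) : (0:ℝ) ≤ _)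
  refine h3.trans (le_of_eq ?_)
  rw [Finset.mul_sum, Finset.sum_congr rfl fun l _ => sum_used st l, Finset.sum_const,
    Finset.card_univ, nsmul_eq_mul, Fintype.card_fin]

theorem sum_noninj_used (st : α → Fin 3) :
    (Fintype.card α : ℝ) ^ 2 * ∑ t : Fin k → α,
      (if ¬ Function.Injective t ∧ ∃ l, st (t l) ≠ 0 then (1:ℝ) else 0) ≤
      k ^ 3 * ((Fintype.card α : ℝ) ^ k * ucnt st) := by
  have h1 : ∀ t : Fin k → α, (if ¬ Function.Injective t ∧ ∃ l, st (t l) ≠ 0 then (1:ℝ) else 0) ≤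
      ∑ i : Fin k, ∑ j : Fin k, ∑ l : Fin k,
        (if i ≠ j ∧ (t i = t j ∧ st (t l) ≠ 0) then (1:ℝ) else 0) := by
    intro t
    by_cases h : ¬ Function.Injective t ∧ ∃ l, st (t l) ≠ 0
    · rw [if_pos h]
      obtain ⟨h1, l, hl⟩ := h
      rw [Function.Injective] at h1
      push Not at h1
      obtain ⟨i, j, hij, hne⟩ := h1
      calc (1:ℝ) = (if i ≠ j ∧ (t i = t j ∧ st (t l) ≠ 0) then (1:ℝ) else 0) := by
            rw [if_pos ⟨hne, hij, hl⟩]
        _ ≤ ∑ l : Fin k, (if i ≠ j ∧ (t i = t j ∧ st (t l) ≠ 0) then (1:ℝ) else 0) :=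
          Finset.single_le_sum (f := fun l => (if i ≠ j ∧ (t i = t j ∧ st (t l) ≠ 0)
            then (1:ℝ) else 0)) (fun l _ => by split_ifs <;> norm_num)
            (Finset.mem_univ l)
        _ ≤ ∑ j : Fin k, ∑ l : Fin k, (if i ≠ j ∧ (t i = t j ∧ st (t l) ≠ 0)
            then (1:ℝ) else 0) :=
          Finset.single_le_sum (f := fun j => ∑ l : Fin k,
            (if i ≠ j ∧ (t i = t j ∧ st (t l) ≠ 0) then (1:ℝ) else 0))
            (fun j _ => Finset.sum_nonneg fun l _ => by split_ifs <;> norm_num)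
            (Finset.mem_univ j)
        _ ≤ _ :=
          Finset.single_le_sum (f := fun i => ∑ j : Fin k, ∑ l : Fin k,
            (if i ≠ j ∧ (t i = t j ∧ st (t l) ≠ 0) then (1:ℝ) else 0))
            (fun i _ => Finset.sum_nonneg fun j _ => Finset.sum_nonneg fun l _ => by
              split_ifs <;> norm_num)
            (Finset.mem_univ i)
    · rw [if_neg h]
      exact Finset.sum_nonneg fun i _ => Finset.sum_nonneg fun j _ => Finset.sum_nonneg fun l _ => by
        split_ifs <;> norm_num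
  have h2 := Finset.sum_le_sum fun (t : Fin k → α) (_ : t ∈ Finset.univ) => h1 t
  have h3 : ∑ t : Fin k → α, ∑ i : Fin k, ∑ j : Fin k, ∑ l : Fin k,
        (if i ≠ j ∧ (t i = t j ∧ st (t l) ≠ 0) then (1:ℝ) else 0) =
      ∑ i : Fin k, ∑ j : Fin k, ∑ l : Fin k, ∑ t : Fin k → α,
        (if i ≠ j ∧ (t i = t j ∧ st (t l) ≠ 0) then (1:ℝ) else 0) := by
    rw [Finset.sum_comm]
    refine Finset.sum_congr rfl fun i _ => ?_
    rw [Finset.sum_comm]
    refine Finset.sum_congr rfl fun j _ => ?_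
    rw [Finset.sum_comm]
  rw [h3] at h2
  have h4 := mul_le_mul_of_nonneg_left h2 (sq_nonneg (Fintype.card α : ℝ))
  refine h4.trans ?_
  rw [Finset.mul_sum]
  have hN : 0 ≤ (Fintype.card α : ℝ) ^ k * ucnt st := mul_nonneg (by positivity) (ucnt_nonneg st)
  have h5 : ∀ i j l : Fin k, (Fintype.card α : ℝ) ^ 2 * ∑ t : Fin k → α,
      (if i ≠ j ∧ (t i = t j ∧ st (t l) ≠ 0) then (1:ℝ) else 0) ≤
      (Fintype.card α : ℝ) ^ k * ucnt st := by
    intro i j l
    by_cases hij : i = j
    · simp only [hij, ne_eq, not_true_eq_false, false_and, if_false, Finset.sum_const_zero,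
        mul_zero]
      exact hN
    · rw [← sum_coinc_used st hij l]
      simp [hij]
  calc ∑ i : Fin k, (Fintype.card α : ℝ) ^ 2 * ∑ j : Fin k, ∑ l : Fin k, ∑ t : Fin k → α,
        (if i ≠ j ∧ (t i = t j ∧ st (t l) ≠ 0) then (1:ℝ) else 0)
      = ∑ i : Fin k, ∑ j : Fin k, ∑ l : Fin k, (Fintype.card α : ℝ) ^ 2 * ∑ t : Fin k → α,
        (if i ≠ j ∧ (t i = t j ∧ st (t l) ≠ 0) then (1:ℝ) else 0) := by
        simp only [Finset.mul_sum]
    _ ≤ ∑ _i : Fin k, ∑ _j : Fin k, ∑ _l : Fin k, (Fintype.card α : ℝ) ^ k * ucnt st :=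
        Finset.sum_le_sum fun i _ => Finset.sum_le_sum fun j _ => Finset.sum_le_sum fun l _ =>
          h5 i j l
    _ = _ := by
        simp only [Finset.sum_const, Finset.card_univ, nsmul_eq_mul, Fintype.card_fin]
        ring

theorem sum_noninj :
    (Fintype.card α : ℝ) * ∑ t : Fin k → α, (if ¬ Function.Injective t then (1:ℝ) else 0) ≤
      k ^ 2 * (Fintype.card α : ℝ) ^ k := by
  have h1 : ∀ t : Fin k → α, (if ¬ Function.Injective t then (1:ℝ) else 0) ≤
      ∑ i : Fin k, ∑ j : Fin k, (if i ≠ j ∧ t i = t j then (1:ℝ) else 0) := by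
    intro t
    by_cases h : ¬ Function.Injective t
    · rw [if_pos h]
      have h1 := h
      rw [Function.Injective] at h1
      push Not at h1
      obtain ⟨i, j, hij, hne⟩ := h1
      calc (1:ℝ) = (if i ≠ j ∧ t i = t j then (1:ℝ) else 0) := by
            rw [if_pos ⟨hne, hij⟩]
        _ ≤ ∑ j : Fin k, (if i ≠ j ∧ t i = t j then (1:ℝ) else 0) :=
          Finset.single_le_sum (f := fun j => (if i ≠ j ∧ t i = t j then (1:ℝ) else 0))
            (fun j _ => by split_ifs <;> norm_num)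
            (Finset.mem_univ j)
        _ ≤ _ :=
          Finset.single_le_sum (f := fun i => ∑ j : Fin k,
            (if i ≠ j ∧ t i = t j then (1:ℝ) else 0))
            (fun i _ => Finset.sum_nonneg fun j _ => by split_ifs <;> norm_num)
            (Finset.mem_univ i)
    · rw [if_neg h]
      exact Finset.sum_nonneg fun i _ => Finset.sum_nonneg fun j _ => by
        split_ifs <;> norm_num
  have h2 := Finset.sum_le_sum fun (t : Fin k → α) (_ : t ∈ Finset.univ) => h1 t
  have h3 : ∑ t : Fin k → α, ∑ i : Fin k, ∑ j : Fin k,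
        (if i ≠ j ∧ t i = t j then (1:ℝ) else 0) =
      ∑ i : Fin k, ∑ j : Fin k, ∑ t : Fin k → α,
        (if i ≠ j ∧ t i = t j then (1:ℝ) else 0) := by
    rw [Finset.sum_comm]
    refine Finset.sum_congr rfl fun i _ => ?_
    rw [Finset.sum_comm]
  rw [h3] at h2
  have h4 := mul_le_mul_of_nonneg_left h2 (Nat.cast_nonneg (Fintype.card α) : (0:ℝ) ≤ _)
  refine h4.trans ?_
  have h5 : ∀ i j : Fin k, (Fintype.card α : ℝ) * ∑ t : Fin k → α,
      (if i ≠ j ∧ t i = t j then (1:ℝ) else 0) ≤ (Fintype.card α : ℝ) ^ k := by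
    intro i j
    by_cases hij : i = j
    · simp only [hij, ne_eq, not_true_eq_false, false_and, if_false, Finset.sum_const_zero,
        mul_zero]
      positivity
    · rw [← sum_coinc (α := α) hij]
      simp [hij]
  calc (Fintype.card α : ℝ) * ∑ i : Fin k, ∑ j : Fin k, ∑ t : Fin k → α,
        (if i ≠ j ∧ t i = t j then (1:ℝ) else 0)
      = ∑ i : Fin k, ∑ j : Fin k, (Fintype.card α : ℝ) * ∑ t : Fin k → α,
        (if i ≠ j ∧ t i = t j then (1:ℝ) else 0) := by
        simp only [Finset.mul_sum]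
    _ ≤ ∑ _i : Fin k, ∑ _j : Fin k, (Fintype.card α : ℝ) ^ k :=
        Finset.sum_le_sum fun i _ => Finset.sum_le_sum fun j _ => h5 i j
    _ = _ := by
        simp only [Finset.sum_const, Finset.card_univ, nsmul_eq_mul, Fintype.card_fin]
        ring

theorem sum_emb_eq (H : (Fin k → α) → ℝ) :
    ∑ t : Fin k ↪ α, H t = ∑ t : Fin k → α, if Function.Injective t then H t else 0 := by
  classical
  let φ : (Fin k ↪ α) → (Fin k → α) := fun t => ⇑t
  have hφ : Function.Injective φ := fun a b h => DFunLike.coe_injective h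
  have h1 : ∑ t : Fin k ↪ α, H t = ∑ t ∈ (Finset.univ : Finset (Fin k ↪ α)).image φ, H t := by
    rw [Finset.sum_image (fun a _ b _ h => hφ h)]
  rw [h1, ← Finset.sum_filter]
  refine Finset.sum_congr ?_ fun _ _ => rfl
  ext t
  simp only [Finset.mem_image, Finset.mem_univ, true_and, Finset.mem_filter]
  constructor
  · rintro ⟨x, rfl⟩
    exact x.injective
  · intro h
    exact ⟨⟨t, h⟩, rfl⟩

/-- Sampling without replacement versus sampling with replacement. -/
theorem emb_mean (st : α → Fin 3) (h : (Fin k → Fin 3) → ℝ) (B : ℝ) (hB : ∀ a, |h a| ≤ B)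
    (h0 : h (fun _ => 0) = 0) (hM : 0 < Fintype.card α)
    (hp : (Fintype.card α : ℝ) ^ k ≤ 4 * Fintype.card (Fin k ↪ α)) :
    |(∑ t : Fin k ↪ α, h (fun i => st (t i))) / Fintype.card (Fin k ↪ α) -
      ∑ a : Fin k → Fin 3, h a * ∏ i, (cnt st (a i) / Fintype.card α)| ≤
      5 * k ^ 3 * B * (ucnt st / Fintype.card α) / Fintype.card α := by
  set M : ℝ := (Fintype.card α : ℝ) with hMdef
  have hM0 : 0 < M := by rw [hMdef]; exact_mod_cast hM
  set D : ℝ := (Fintype.card (Fin k ↪ α) : ℝ) with hD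
  have hB0 : 0 ≤ B := (abs_nonneg _).trans (hB (fun _ => 0))
  have hMk : 0 < M ^ k := by positivity
  have hD0 : 0 < D := by linarith
  set u := ucnt st with hu
  have hu0 : 0 ≤ u := ucnt_nonneg st
  -- sums
  set S : ℝ := ∑ t : Fin k → α, h (fun i => st (t i)) with hS
  set I : ℝ := ∑ t : Fin k ↪ α, h (fun i => st (t i)) with hI
  have hIe : I = ∑ t : Fin k → α, if Function.Injective t then h (fun i => st (t i)) else 0 :=
    sum_emb_eq (fun t => h (fun i => st (t i)))
  have hpoly : ∑ a : Fin k → Fin 3, h a * ∏ i, (cnt st (a i) / M) = S / M ^ k := by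
    rw [hS, sum_all st h, Finset.sum_div]
    refine Finset.sum_congr rfl fun a _ => ?_
    rw [Finset.prod_div_distrib, Finset.prod_const, Finset.card_univ, Fintype.card_fin,
      mul_div_assoc]
  rw [hpoly]
  have hbound : ∀ t : Fin k → α, |h (fun i => st (t i))| ≤
      B * (if ∃ l, st (t l) ≠ 0 then (1:ℝ) else 0) := by
    intro t
    by_cases hc : ∃ l, st (t l) ≠ 0
    · rw [if_pos hc, mul_one]; exact hB _
    · rw [if_neg hc, mul_zero]
      push Not at hc
      have : (fun i => st (t i)) = fun _ => 0 := funext hc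
      rw [this, h0, abs_zero]
  -- |S - I|
  have h1 : |S - I| ≤ B * ∑ t : Fin k → α,
      (if ¬ Function.Injective t ∧ ∃ l, st (t l) ≠ 0 then (1:ℝ) else 0) := by
    rw [hIe, hS, ← Finset.sum_sub_distrib, Finset.mul_sum]
    refine (Finset.abs_sum_le_sum_abs _ _).trans (Finset.sum_le_sum fun t _ => ?_)
    by_cases hinj : Function.Injective t
    · simp [hinj]
    · rw [if_neg hinj, sub_zero]
      simpa [hinj] using hbound t
  have h2 : |I| ≤ B * ∑ t : Fin k → α, (if ∃ l, st (t l) ≠ 0 then (1:ℝ) else 0) := by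
    rw [hIe, Finset.mul_sum]
    refine (Finset.abs_sum_le_sum_abs _ _).trans (Finset.sum_le_sum fun t _ => ?_)
    by_cases hinj : Function.Injective t
    · rw [if_pos hinj]; exact hbound t
    · rw [if_neg hinj, abs_zero]
      exact mul_nonneg hB0 (by split_ifs <;> norm_num)
  have h3 : M ^ k - D = ∑ t : Fin k → α, (if ¬ Function.Injective t then (1:ℝ) else 0) := by
    have e1 : D = ∑ t : Fin k → α, (if Function.Injective t then (1:ℝ) else 0) := by
      rw [hD, ← sum_emb_eq (fun _ => (1:ℝ))]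
      simp
    have e2 : M ^ k = ∑ _t : Fin k → α, (1:ℝ) := by
      rw [Finset.sum_const, Finset.card_univ, nsmul_eq_mul, Fintype.card_fun, Fintype.card_fin,
        mul_one]
      push_cast
      rfl
    rw [e1, e2, ← Finset.sum_sub_distrib]
    refine Finset.sum_congr rfl fun t _ => ?_
    by_cases hinj : Function.Injective t <;> simp [hinj]
  have h4 := sum_noninj (α := α) (k := k)
  rw [← h3, ← hMdef] at h4
  have h5 := sum_noninj_used (k := k) st
  have h6 := sum_someused (k := k) st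
  rw [← hMdef, ← hu] at h5 h6
  have h7 : M ^ 2 * |S - I| ≤ B * (k ^ 3 * (M ^ k * u)) := by
    calc M ^ 2 * |S - I| ≤ M ^ 2 * (B * ∑ t : Fin k → α,
          (if ¬ Function.Injective t ∧ ∃ l, st (t l) ≠ 0 then (1:ℝ) else 0)) :=
          mul_le_mul_of_nonneg_left h1 (by positivity)
      _ = B * (M ^ 2 * ∑ t : Fin k → α,
          (if ¬ Function.Injective t ∧ ∃ l, st (t l) ≠ 0 then (1:ℝ) else 0)) := by ring
      _ ≤ _ := mul_le_mul_of_nonneg_left h5 hB0
  have h8 : M * |I| ≤ B * (k * (M ^ k * u)) := by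
    calc M * |I| ≤ M * (B * ∑ t : Fin k → α, (if ∃ l, st (t l) ≠ 0 then (1:ℝ) else 0)) :=
          mul_le_mul_of_nonneg_left h2 hM0.le
      _ = B * (M * ∑ t : Fin k → α, (if ∃ l, st (t l) ≠ 0 then (1:ℝ) else 0)) := by ring
      _ ≤ _ := mul_le_mul_of_nonneg_left h6 hB0
  have hDle : 0 ≤ M ^ k - D := by
    rw [h3]; exact Finset.sum_nonneg fun t _ => by split_ifs <;> norm_num
  -- combine
  have e : I / D - S / M ^ k = (I * (M ^ k - D)) / (D * M ^ k) - (S - I) / M ^ k := by
    field_simp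
    ring
  rw [e]
  refine (abs_sub _ _).trans ?_
  rw [abs_div, abs_div, abs_mul, abs_of_nonneg hDle, abs_of_pos (mul_pos hD0 hMk), abs_of_pos hMk]
  have e1 : |I| * (M ^ k - D) / (D * M ^ k) ≤ 4 * k ^ 3 * B * (u / M) / M := by
    rw [div_le_iff₀ (by positivity)]
    have a1 : (M * |I|) * (M * (M ^ k - D)) ≤ (B * (k * (M ^ k * u))) * (k ^ 2 * M ^ k) :=
      mul_le_mul h8 h4 (mul_nonneg hM0.le hDle) (by positivity)
    have a2 : |I| * (M ^ k - D) * M ^ 2 ≤ B * k ^ 3 * u * (M ^ k * M ^ k) := by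
      calc |I| * (M ^ k - D) * M ^ 2 = (M * |I|) * (M * (M ^ k - D)) := by ring
        _ ≤ _ := a1
        _ = _ := by ring
    have a3 : B * k ^ 3 * u * (M ^ k * M ^ k) ≤ B * k ^ 3 * u * (M ^ k * (4 * D)) := by
      refine mul_le_mul_of_nonneg_left ?_ (by positivity)
      exact mul_le_mul_of_nonneg_left hp hMk.le
    have a4 : 4 * k ^ 3 * B * (u / M) / M * (D * M ^ k) = B * k ^ 3 * u * (M ^ k * (4 * D)) / M ^ 2 := by
      field_simp
    rw [a4, le_div_iff₀ (by positivity)]
    linarith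
  have e2 : |S - I| / M ^ k ≤ k ^ 3 * B * (u / M) / M := by
    rw [div_le_iff₀ hMk]
    have a4 : k ^ 3 * B * (u / M) / M * M ^ k = B * (k ^ 3 * (M ^ k * u)) / M ^ 2 := by
      field_simp
    rw [a4, le_div_iff₀ (by positivity)]
    linarith
  calc _ ≤ 4 * k ^ 3 * B * (u / M) / M + k ^ 3 * B * (u / M) / M := add_le_add e1 e2
    _ = _ := by ring

end

end Pool.Agent.Helper2.OC
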