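import Pool.Agent.Helper2.OD.Pop4

/-!
# Four-sample certificates give lower bounds for `f n`
-/

namespace Pool.Agent.Helper2.OC

open Finset

section

variable {α β : Type*} [Fintype α] [Fintype β] [DecidableEq α] [DecidableEq β]

theorem sum_four_k (k : Comp → Comp → ℝ) (s : α → Comp) (z : Fin 2 ↪ β)
    (hne : 0 < (Fintype.card (Fin 2 ↪ α) : ℝ)) :
    ∑ ω : (α ≃ β × Bool) × (β → Bool), (96 + 8 * ∑ i, ∑ j,
      (if i ≠ j then k (four s z ω i) (four s z ω j) else 0)) =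
    (Fintype.card ((α ≃ β × Bool) × (β → Bool)) : ℝ) * (96 * (1 + pairK k s)) := by
  set W : ℝ := (Fintype.card ((α ≃ β × Bool) × (β → Bool)) : ℝ) with hW
  have hz : z 0 ≠ z 1 := fun h => absurd (z.injective h) (by decide)
  have h1 : ∀ i j : Fin 4, ∑ ω : (α ≃ β × Bool) × (β → Bool),
      (if i ≠ j then k (four s z ω i) (four s z ω j) else 0) =
      if i ≠ j then W * pairK k s else 0 := by
    intro i j
    by_cases hij : i = j
    · simp [hij]
    · simp only [ne_eq, hij, not_false_eq_true, if_true]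
      have h2 := sum_equiv_emb (α := α) 2
        (⟨![slots4 hz i, slots4 hz j], by
          intro a b hab
          have hinj := (slots4 hz).injective
          fin_cases a <;> fin_cases b
          · rfl
          · exact absurd (hinj hab) hij
          · exact absurd (hinj hab.symm) hij
          · rfl⟩ : Fin 2 ↪ β × Bool) (fun x => k (s (x 0)) (s (x 1)))
      have h3 : ∑ ω : (α ≃ β × Bool) × (β → Bool), k (four s z ω i) (four s z ω j) =
          (Fintype.card (β → Bool) : ℝ) * ∑ e : α ≃ β × Bool,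
            k (s (e.symm (slots4 hz i))) (s (e.symm (slots4 hz j))) := by
        rw [Fintype.sum_prod_type, Finset.mul_sum]
        refine Finset.sum_congr rfl fun e _ => ?_
        unfold four
        simp only [Finset.sum_const, Finset.card_univ, nsmul_eq_mul]
      rw [h3]
      have h4 : (Fintype.card (Fin 2 ↪ α) : ℝ) * ∑ e : α ≃ β × Bool,
            k (s (e.symm (slots4 hz i))) (s (e.symm (slots4 hz j))) =
          (Fintype.card (α ≃ β × Bool) : ℝ) * ∑ x : Fin 2 ↪ α, k (s (x 0)) (s (x 1)) := h2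
      have h5 : W = (Fintype.card (α ≃ β × Bool) : ℝ) * (Fintype.card (β → Bool) : ℝ) := by
        rw [hW, Fintype.card_prod]; push_cast; rfl
      unfold pairK
      rw [h5]
      field_simp
      linarith
  rw [Finset.sum_add_distrib, Finset.sum_const, Finset.card_univ, nsmul_eq_mul, ← hW,
    ← Finset.mul_sum, Finset.sum_comm]
  have h6 : ∀ i : Fin 4, ∑ ω : (α ≃ β × Bool) × (β → Bool), ∑ j : Fin 4,
      (if i ≠ j then k (four s z ω i) (four s z ω j) else 0) =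
      ∑ j : Fin 4, if i ≠ j then W * pairK k s else 0 := by
    intro i
    rw [Finset.sum_comm]
    exact Finset.sum_congr rfl fun j _ => h1 i j
  rw [Finset.sum_congr rfl fun i _ => h6 i]
  simp only [Fin.sum_univ_four]
  simp
  ring

theorem sum_four_g (g : Fin 3 → Fin 3 → Fin 3 → Fin 3 → ℝ) (s : α → Comp) (z : Fin 2 ↪ β) (c : ℕ)
    (hne : 0 < (Fintype.card (Fin 4 ↪ α) : ℝ)) :
    ∑ ω : (α ≃ β × Bool) × (β → Bool), g (stt c (four s z ω 0))
      (stt c (four s z ω 1)) (stt c (four s z ω 2)) (stt c (four s z ω 3)) =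
    (Fintype.card ((α ≃ β × Bool) × (β → Bool)) : ℝ) *
      ((∑ t : Fin 4 ↪ α, g (stt c (s (t 0))) (stt c (s (t 1))) (stt c (s (t 2)))
        (stt c (s (t 3)))) / Fintype.card (Fin 4 ↪ α)) := by
  have hz : z 0 ≠ z 1 := fun h => absurd (z.injective h) (by decide)
  have h2 := sum_equiv_emb (α := α) 4 (slots4 hz) (fun t => g (stt c (s (t 0))) (stt c (s (t 1)))
    (stt c (s (t 2))) (stt c (s (t 3))))
  rw [Fintype.sum_prod_type]
  have h3 : ∑ e : α ≃ β × Bool, ∑ y : β → Bool, g (stt c (four s z (e, y) 0))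
      (stt c (four s z (e, y) 1)) (stt c (four s z (e, y) 2)) (stt c (four s z (e, y) 3)) =
      (Fintype.card (β → Bool) : ℝ) * ∑ e : α ≃ β × Bool,
        g (stt c (s (e.symm (slots4 hz 0)))) (stt c (s (e.symm (slots4 hz 1))))
          (stt c (s (e.symm (slots4 hz 2)))) (stt c (s (e.symm (slots4 hz 3)))) := by
    rw [Finset.mul_sum]
    refine Finset.sum_congr rfl fun e _ => ?_
    unfold four
    simp only [Finset.sum_const, Finset.card_univ, nsmul_eq_mul]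
  rw [h3]
  have h4 : (Fintype.card (Fin 4 ↪ α) : ℝ) * ∑ e : α ≃ β × Bool,
        g (stt c (s (e.symm (slots4 hz 0)))) (stt c (s (e.symm (slots4 hz 1))))
          (stt c (s (e.symm (slots4 hz 2)))) (stt c (s (e.symm (slots4 hz 3)))) =
      (Fintype.card (α ≃ β × Bool) : ℝ) * ∑ t : Fin 4 ↪ α, g (stt c (s (t 0))) (stt c (s (t 1)))
        (stt c (s (t 2))) (stt c (s (t 3))) := h2
  rw [Fintype.card_prod]
  push_cast
  field_simp
  linarith

end

theorem fourIneq_pop {g : Fin 3 → Fin 3 → Fin 3 → Fin 3 → ℝ} {Λ : Fin 3 → Fin 3 → Fin 3 → ℝ}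
    {κ : ℝ} {k : Comp → Comp → ℝ} (h4 : FourIneq g Λ κ k) (g0 : g 0 0 0 0 = 0) :
    ∃ A : ℝ, 0 ≤ A ∧ PopIneq (payoff g Λ κ) k A := by
  -- bounds
  obtain ⟨B, hB0, hB⟩ : ∃ B : ℝ, 0 < B ∧ ∀ a b m, |Λ a b m| ≤ B := by
    refine ⟨∑ a, ∑ b, ∑ m, |Λ a b m| + 1, by positivity, fun a b m => ?_⟩
    have h1 : |Λ a b m| ≤ ∑ m, |Λ a b m| :=
      Finset.single_le_sum (f := fun m => |Λ a b m|) (fun m _ => abs_nonneg _) (Finset.mem_univ m)
    have h2 : ∑ m, |Λ a b m| ≤ ∑ b, ∑ m, |Λ a b m| :=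
      Finset.single_le_sum (f := fun b => ∑ m, |Λ a b m|)
        (fun b _ => Finset.sum_nonneg fun m _ => abs_nonneg _) (Finset.mem_univ b)
    have h3 : ∑ b, ∑ m, |Λ a b m| ≤ ∑ a, ∑ b, ∑ m, |Λ a b m| :=
      Finset.single_le_sum (f := fun a => ∑ b, ∑ m, |Λ a b m|)
        (fun a _ => Finset.sum_nonneg fun b _ => Finset.sum_nonneg fun m _ => abs_nonneg _)
        (Finset.mem_univ a)
    linarith
  obtain ⟨Bg, hBg0, hBg⟩ : ∃ Bg : ℝ, 0 ≤ Bg ∧ ∀ a b c d, |g a b c d| ≤ Bg := by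
    refine ⟨∑ a, ∑ b, ∑ c, ∑ d, |g a b c d|, by positivity, fun a b c d => ?_⟩
    have h1 : |g a b c d| ≤ ∑ d, |g a b c d| :=
      Finset.single_le_sum (f := fun d => |g a b c d|) (fun m _ => abs_nonneg _)
        (Finset.mem_univ d)
    have h2 : ∑ d, |g a b c d| ≤ ∑ c, ∑ d, |g a b c d| :=
      Finset.single_le_sum (f := fun c => ∑ d, |g a b c d|)
        (fun b _ => Finset.sum_nonneg fun m _ => abs_nonneg _) (Finset.mem_univ c)
    have h3 : ∑ c, ∑ d, |g a b c d| ≤ ∑ b, ∑ c, ∑ d, |g a b c d| :=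
      Finset.single_le_sum (f := fun b => ∑ c, ∑ d, |g a b c d|)
        (fun a _ => Finset.sum_nonneg fun b _ => Finset.sum_nonneg fun m _ => abs_nonneg _)
        (Finset.mem_univ b)
    have h4 : ∑ b, ∑ c, ∑ d, |g a b c d| ≤ ∑ a, ∑ b, ∑ c, ∑ d, |g a b c d| :=
      Finset.single_le_sum (f := fun a => ∑ b, ∑ c, ∑ d, |g a b c d|)
        (fun a _ => Finset.sum_nonneg fun b _ => Finset.sum_nonneg fun c _ =>
          Finset.sum_nonneg fun m _ => abs_nonneg _)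
        (Finset.mem_univ a)
    linarith
  refine ⟨4 * (2 * B + |κ|) + 1 + 1744 * B ^ 2 + 160 * Bg, by positivity, ?_⟩
  intro α β _ _ _ _ hcard h3 s hs F hF P hP hPF
  set W : ℝ := (Fintype.card ((α ≃ β × Bool) × (β → Bool)) : ℝ) with hW
  have hW0 : 0 ≤ W := Nat.cast_nonneg _
  set b : ℝ := (Fintype.card β : ℝ) with hb
  have hb3 : (3 : ℝ) ≤ b := by rw [hb]; exact_mod_cast h3
  have hb0 : 0 < b := by linarith
  have hM : 6 ≤ Fintype.card α := by omega
  have hM' : (Fintype.card α : ℝ) = 2 * b := by rw [hcard]; push_cast; rw [← hb]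
  have hsb : 0 < Real.sqrt b := Real.sqrt_pos.mpr hb0
  have hsb2 : Real.sqrt b * Real.sqrt b = b := Real.mul_self_sqrt hb0.le
  set J : ℝ := (Fintype.card (Fin 2 ↪ β) : ℝ) with hJ
  have hJ0 : 0 < J := by
    rw [hJ, card_emb_two _ rfl (by omega), ← hb]
    nlinarith
  have hne2 : 0 < (Fintype.card (Fin 2 ↪ α) : ℝ) := by
    rw [card_emb_two _ rfl (by omega), hM']
    nlinarith
  have hne4 : 0 < (Fintype.card (Fin 4 ↪ α) : ℝ) := by
    have h1 := card_emb_ge hM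
    rw [hM'] at h1
    have : 0 < (2 * b) ^ 4 := by positivity
    linarith
  have hκ0 : 0 ≤ |κ| := abs_nonneg κ
  set X : ℝ := ∑ c ∈ P, xs c s with hX
  have hX0 : 0 ≤ X := Finset.sum_nonneg fun c _ => xs_nonneg _ _
  -- sum over the ordered pairs
  have h5 : ∑ z : Fin 2 ↪ β, ∑ ω : (α ≃ β × Bool) × (β → Bool), (96 + 8 * ∑ i, ∑ j,
      (if i ≠ j then k (four s z ω i) (four s z ω j) else 0)) ≤
      ∑ z : Fin 2 ↪ β, ∑ ω : (α ≃ β × Bool) × (β → Bool), 96 * (∑ c ∈ P, g (stt c (four s z ω 0))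
      (stt c (four s z ω 1)) (stt c (four s z ω 2)) (stt c (four s z ω 3)) +
      rest4 Λ κ k s F z ω) :=
    Finset.sum_le_sum fun z _ => sym_ineq h4 s hs F hF P hP hPF z
  simp only [sum_four_k k s _ hne2] at h5
  rw [Finset.sum_const, Finset.card_univ, nsmul_eq_mul, ← hW, ← hJ] at h5
  -- g part
  have h6 : ∀ z : Fin 2 ↪ β, ∑ ω : (α ≃ β × Bool) × (β → Bool), 96 * (∑ c ∈ P,
      g (stt c (four s z ω 0)) (stt c (four s z ω 1)) (stt c (four s z ω 2))
        (stt c (four s z ω 3)) + rest4 Λ κ k s F z ω) ≤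
      96 * (W * (∑ c ∈ P, gP g (xs c s) (ys c s) + 160 * Bg * X / b)) +
      96 * ∑ ω : (α ≃ β × Bool) × (β → Bool), rest4 Λ κ k s F z ω := by
    intro z
    rw [← Finset.mul_sum, Finset.sum_add_distrib, mul_add, Finset.sum_comm]
    refine add_le_add ?_ le_rfl
    refine mul_le_mul_of_nonneg_left ?_ (by norm_num)
    have h7 : ∀ c ∈ P, ∑ ω : (α ≃ β × Bool) × (β → Bool), g (stt c (four s z ω 0))
        (stt c (four s z ω 1)) (stt c (four s z ω 2)) (stt c (four s z ω 3)) ≤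
        W * (gP g (xs c s) (ys c s) + 160 * Bg * xs c s / b) := by
      intro c _
      rw [sum_four_g g s z c hne4]
      refine mul_le_mul_of_nonneg_left ?_ hW0
      have h8 := (abs_le.mp (gmean c s g Bg hBg g0 hM)).2
      rw [hM'] at h8
      have h9 : 320 * Bg * xs c s / (2 * b) = 160 * Bg * xs c s / b := by
        field_simp
        ring
      rw [h9] at h8
      linarith
    refine (Finset.sum_le_sum h7).trans (le_of_eq ?_)
    rw [← Finset.mul_sum, Finset.sum_add_distrib, ← Finset.sum_div, ← Finset.mul_sum]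
  have h8 := Finset.sum_le_sum fun (z : Fin 2 ↪ β) (_ : z ∈ Finset.univ) => h6 z
  have hcomm : ∑ z : Fin 2 ↪ β, ∑ ω : (α ≃ β × Bool) × (β → Bool), rest4 Λ κ k s F z ω =
      ∑ ω : (α ≃ β × Bool) × (β → Bool), ∑ z : Fin 2 ↪ β, rest4 Λ κ k s F z ω := Finset.sum_comm
  rw [Finset.sum_add_distrib, Finset.sum_const, Finset.card_univ, nsmul_eq_mul, ← hJ,
    ← Finset.mul_sum, hcomm] at h8
  have h9 : ∑ ω : (α ≃ β × Bool) × (β → Bool), ∑ z : Fin 2 ↪ β, rest4 Λ κ k s F z ω ≤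
      ∑ ω : (α ≃ β × Bool) × (β → Bool), J * (∑ c ∈ P,
        (dlt c (mst s ω) (F ω) * lamP Λ (xs c s) (ys c s) -
        κ * dlt c (mst s ω) (F ω) ^ 2) + pairK k (F ω) +
        (4 * (2 * B + |κ|) + 1) / Real.sqrt b +
        Real.sqrt b / 2 * ∑ c ∈ P,
          (totStat (fun i i' y => lamC Λ c (s i) (s i') y) ω / b -
            lamP Λ (xs c s) (ys c s)) ^ 2) :=
    Finset.sum_le_sum fun ω _ => rest4_le Λ κ k hB0 hB s F hF h3 P hPF ω
  rw [← Finset.mul_sum, Finset.sum_add_distrib, Finset.sum_add_distrib, Finset.sum_add_distrib,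
    Finset.sum_const,
    Finset.card_univ, nsmul_eq_mul, ← hW, ← Finset.mul_sum, Finset.sum_comm (s := univ) (t := P)
      (f := fun ω c => (totStat (fun i i' y => lamC Λ c (s i) (s i') y) ω / b -
            lamP Λ (xs c s) (ys c s)) ^ 2)] at h9
  have h10 : ∑ c ∈ P, ∑ ω : (α ≃ β × Bool) × (β → Bool),
      (totStat (fun i i' y => lamC Λ c (s i) (s i') y) ω / b -
            lamP Λ (xs c s) (ys c s)) ^ 2 ≤ W * (3488 * B ^ 2 * X / b) := by
    refine (Finset.sum_le_sum fun c _ => lamDev hcard h3 c s Λ B hB0 hB).trans (le_of_eq ?_)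
    rw [← Finset.mul_sum, ← Finset.sum_div, ← Finset.mul_sum]
  have h11 : Real.sqrt b / 2 * ∑ c ∈ P, ∑ ω : (α ≃ β × Bool) × (β → Bool),
      (totStat (fun i i' y => lamC Λ c (s i) (s i') y) ω / b -
            lamP Λ (xs c s) (ys c s)) ^ 2 ≤ W * (1744 * B ^ 2 * X / Real.sqrt b) := by
    refine (mul_le_mul_of_nonneg_left h10 (by positivity)).trans (le_of_eq ?_)
    have : 1744 * B ^ 2 * X / Real.sqrt b = 1744 * B ^ 2 * X * Real.sqrt b / b := by
      rw [div_eq_div_iff hsb.ne' hb0.ne']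
      calc 1744 * B ^ 2 * X * b = 1744 * B ^ 2 * X * (Real.sqrt b * Real.sqrt b) := by rw [hsb2]
        _ = _ := by ring
    rw [this]
    ring
  -- put together
  have h12 : J * (W * (1 + pairK k s)) ≤ J * (W * (∑ c ∈ P, gP g (xs c s) (ys c s) +
      160 * Bg * X / b)) + J * (∑ ω : (α ≃ β × Bool) × (β → Bool), ∑ c ∈ P,
        (dlt c (mst s ω) (F ω) * lamP Λ (xs c s) (ys c s) -
        κ * dlt c (mst s ω) (F ω) ^ 2) + ∑ ω : (α ≃ β × Bool) × (β → Bool), pairK k (F ω) +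
        W * ((4 * (2 * B + |κ|) + 1) / Real.sqrt b) +
        W * (1744 * B ^ 2 * X / Real.sqrt b)) := by
    have h13 : J * (∑ ω : (α ≃ β × Bool) × (β → Bool), ∑ c ∈ P,
        (dlt c (mst s ω) (F ω) * lamP Λ (xs c s) (ys c s) -
        κ * dlt c (mst s ω) (F ω) ^ 2) + ∑ ω : (α ≃ β × Bool) × (β → Bool), pairK k (F ω) +
        W * ((4 * (2 * B + |κ|) + 1) / Real.sqrt b) +
        Real.sqrt b / 2 * ∑ c ∈ P, ∑ ω : (α ≃ β × Bool) × (β → Bool),
      (totStat (fun i i' y => lamC Λ c (s i) (s i') y) ω / b -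
            lamP Λ (xs c s) (ys c s)) ^ 2) ≤
        J * (∑ ω : (α ≃ β × Bool) × (β → Bool), ∑ c ∈ P,
        (dlt c (mst s ω) (F ω) * lamP Λ (xs c s) (ys c s) -
        κ * dlt c (mst s ω) (F ω) ^ 2) + ∑ ω : (α ≃ β × Bool) × (β → Bool), pairK k (F ω) +
        W * ((4 * (2 * B + |κ|) + 1) / Real.sqrt b) +
        W * (1744 * B ^ 2 * X / Real.sqrt b)) :=
      mul_le_mul_of_nonneg_left (by linarith) hJ0.le
    have h14 := h9.trans h13
    have h15 := h5.trans h8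
    nlinarith
  rw [← mul_add] at h12
  have h16 := le_of_mul_le_mul_left h12 hJ0
  have h17 : ∑ ω : (α ≃ β × Bool) × (β → Bool),
      (∑ c ∈ P, payoff g Λ κ (xs c s) (ys c s) (dlt c (mst s ω) (F ω)) + pairK k (F ω)) =
      W * (∑ c ∈ P, gP g (xs c s) (ys c s)) +
      ∑ ω : (α ≃ β × Bool) × (β → Bool), ∑ c ∈ P,
        (dlt c (mst s ω) (F ω) * lamP Λ (xs c s) (ys c s) -
        κ * dlt c (mst s ω) (F ω) ^ 2) + ∑ ω : (α ≃ β × Bool) × (β → Bool), pairK k (F ω) := by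
    rw [Finset.sum_add_distrib]
    congr 1
    rw [show W * (∑ c ∈ P, gP g (xs c s) (ys c s)) =
      ∑ _ω : (α ≃ β × Bool) × (β → Bool), (∑ c ∈ P, gP g (xs c s) (ys c s)) by
        rw [Finset.sum_const, Finset.card_univ, nsmul_eq_mul], ← Finset.sum_add_distrib]
    refine Finset.sum_congr rfl fun ω _ => ?_
    rw [← Finset.sum_add_distrib]
    refine Finset.sum_congr rfl fun c _ => ?_
    rw [payoff_eq]
    ring
  rw [h17]
  have h18 : 160 * Bg * X / b ≤ 160 * Bg * X / Real.sqrt b := by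
    refine div_le_div_of_nonneg_left (by positivity) hsb ?_
    rw [Real.sqrt_le_left hb0.le]
    nlinarith
  have h19 : (4 * (2 * B + |κ|) + 1) / Real.sqrt b + 1744 * B ^ 2 * X / Real.sqrt b +
      160 * Bg * X / Real.sqrt b ≤
      (4 * (2 * B + |κ|) + 1 + 1744 * B ^ 2 + 160 * Bg) * (X + 1) / Real.sqrt b := by
    rw [← add_div, ← add_div]
    refine div_le_div_of_nonneg_right ?_ hsb.le
    have : 0 ≤ (4 * (2 * B + |κ|) + 1) * X := by positivity
    have : 0 ≤ 1744 * B ^ 2 := by positivity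
    nlinarith
  have h20 : W * (160 * Bg * X / b + (4 * (2 * B + |κ|) + 1) / Real.sqrt b +
      1744 * B ^ 2 * X / Real.sqrt b) ≤
      W * ((4 * (2 * B + |κ|) + 1 + 1744 * B ^ 2 + 160 * Bg) * (X + 1) / Real.sqrt b) :=
    mul_le_mul_of_nonneg_left (by linarith) hW0
  have e1 : W * (1 + pairK k s - (4 * (2 * B + |κ|) + 1 + 1744 * B ^ 2 + 160 * Bg) * (X + 1) /
      Real.sqrt b) = W * (1 + pairK k s) -
      W * ((4 * (2 * B + |κ|) + 1 + 1744 * B ^ 2 + 160 * Bg) * (X + 1) / Real.sqrt b) := by ring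
  rw [e1]
  have e2 : W * (160 * Bg * X / b + (4 * (2 * B + |κ|) + 1) / Real.sqrt b +
      1744 * B ^ 2 * X / Real.sqrt b) = W * (160 * Bg * X / b) +
      W * ((4 * (2 * B + |κ|) + 1) / Real.sqrt b) + W * (1744 * B ^ 2 * X / Real.sqrt b) := by ring
  rw [e2] at h20
  rw [mul_add (a := W) (b := ∑ c ∈ P, gP g (xs c s) (ys c s))] at h16
  linarith

theorem pis_bounds {x y : ℝ} (hy : 0 ≤ y) (hyx : y ≤ x) (hx : x ≤ 1) (a : Fin 3) :
    0 ≤ pis x y a ∧ pis x y a ≤ 1 := by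
  unfold pis
  fin_cases a
  · exact ⟨by show 0 ≤ 1 - x; linarith, by show 1 - x ≤ 1; linarith⟩
  · exact ⟨by show 0 ≤ x - y; linarith, by show x - y ≤ 1; linarith⟩
  · exact ⟨hy, by show y ≤ 1; linarith⟩

theorem payLip_payoff (g : Fin 3 → Fin 3 → Fin 3 → Fin 3 → ℝ) (Λ : Fin 3 → Fin 3 → Fin 3 → ℝ)
    (κ : ℝ) : ∃ L : ℝ, PayLip (payoff g Λ κ) L := by
  refine ⟨∑ a, ∑ b, |lamBar Λ a b| + 2 * |κ|, ?_⟩
  intro x y δ δ' hy hyx hx hδ hδ1 hδ' hδ'1
  rw [payoff_eq, payoff_eq]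
  have h1 : |lamP Λ x y| ≤ ∑ a, ∑ b, |lamBar Λ a b| := by
    unfold lamP
    refine (Finset.abs_sum_le_sum_abs _ _).trans (Finset.sum_le_sum fun a _ => ?_)
    refine (Finset.abs_sum_le_sum_abs _ _).trans (Finset.sum_le_sum fun b _ => ?_)
    rw [abs_mul]
    obtain ⟨a1, a2⟩ := pis_bounds hy hyx hx a
    obtain ⟨b1, b2⟩ := pis_bounds hy hyx hx b
    have h2 : |pis x y a * pis x y b| ≤ 1 := by
      rw [abs_of_nonneg (mul_nonneg a1 b1)]
      exact mul_le_one₀ a2 b1 b2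
    exact mul_le_of_le_one_right (abs_nonneg _) h2
  have e : gP g x y + δ * lamP Λ x y - κ * δ ^ 2 - (gP g x y + δ' * lamP Λ x y - κ * δ' ^ 2) =
      (δ - δ') * lamP Λ x y - κ * ((δ + δ') * (δ - δ')) := by ring
  rw [e]
  refine (abs_sub _ _).trans ?_
  rw [abs_mul, abs_mul, abs_mul, add_mul]
  have h3 : |δ + δ'| ≤ 2 := by rw [abs_of_nonneg (by linarith)]; linarith
  have h4 : |δ - δ'| * |lamP Λ x y| ≤ |δ - δ'| * ∑ a, ∑ b, |lamBar Λ a b| :=
    mul_le_mul_of_nonneg_left h1 (abs_nonneg _)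
  have h5 : |κ| * (|δ + δ'| * |δ - δ'|) ≤ |κ| * (2 * |δ - δ'|) :=
    mul_le_mul_of_nonneg_left (mul_le_mul_of_nonneg_right h3 (abs_nonneg _)) (abs_nonneg _)
  linarith

/-- MAIN THEOREM: a pointwise four-sample inequality together with a scalar certificate for its
payoff gives a lower bound for the value of the problem. -/
theorem four_bound {g : Fin 3 → Fin 3 → Fin 3 → Fin 3 → ℝ} {Λ : Fin 3 → Fin 3 → Fin 3 → ℝ}
    {κ : ℝ} {k : Comp → Comp → ℝ} (h4 : FourIneq g Λ κ k) (g0 : g 0 0 0 0 = 0) {B : ℝ}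
    (hk : ∀ p q, |k p q| ≤ B) {G : ℝ → ℝ → ℝ} {V : ℝ} (hG : Cert4 (payoff g Λ κ) G V) {s : ℝ}
    (hV : 0 < V) (hs : 0 < s) (hsV : s * V < 1) :
    ∃ C : ℝ, ∀ n : ℕ, 1 ≤ n → ENNReal.ofReal (s * Real.logb 2 n - C) ≤ f n := by
  obtain ⟨A, hA, hpop⟩ := fourIneq_pop h4 g0
  obtain ⟨L, hL⟩ := payLip_payoff g Λ κ
  have hB : 0 ≤ B := (abs_nonneg _).trans (hk (fun _ => ∅) (fun _ => ∅))
  exact cert4_bound hG hL hB hk hA hpop hV hs hsV

end Pool.Agent.Helper2.OC
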