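import Pool.Agent.Helper2.OC.Transfer

/-!
# Interface: four-sample inequalities and scalar certificates

A component is the pair of colour sets of its two sides. Status of a colour in a component:
`0` = free, `1` = live (one side only), `2` = dead (both sides).
-/

namespace Pool.Agent.Helper2.OC

open Finset

/-- a component: the colour sets of its two sides -/
abbrev Comp : Type := Bool → Finset ℕ

/-- every side has a private colour -/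
def Comp.Ok (p : Comp) : Prop := ∀ σ, ∃ c ∈ p σ, c ∉ p (!σ)

/-- `p'` arises from `p` by one new vertex on each side (its colour may be old or new) -/
def Fix1 (p p' : Comp) : Prop :=
  ∃ χ : Bool → ℕ, (∀ σ, p' σ = insert (χ σ) (p σ)) ∧ ∀ σ, χ σ ∉ p' (!σ)

/-- status of a colour -/
def stt (c : ℕ) (p : Comp) : Fin 3 :=
  if c ∈ p false then (if c ∈ p true then 2 else 1) else (if c ∈ p true then 1 else 0)

/-- the colours of `p'` which are free in `p` -/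
def nw (p p' : Comp) : Finset ℕ := (p' false ∪ p' true) \ (p false ∪ p true)

/-- weight of a colour `c` in the merge of `p, q` with orientation `o`: `Λ` of the status in `p`,
the status in `q` and the status in the merge (the latter matters only if `c` is live in both) -/
def lamC (Λ : Fin 3 → Fin 3 → Fin 3 → ℝ) (c : ℕ) (p q : Comp) (o : Bool) : ℝ :=
  Λ (stt c p) (stt c q) (stt c (mrg p q o))

/-- The four-sample expression: `s 0, …, s 3` are the four components, `σ, o, o'` say that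
`s (σ 0), s (σ 1)` are merged with relative orientation `o`, and `s (σ 2), s (σ 3)` with `o'`;
`f, f'` are the results after the new vertices. -/
noncomputable def T4 (g : Fin 3 → Fin 3 → Fin 3 → Fin 3 → ℝ) (Λ : Fin 3 → Fin 3 → Fin 3 → ℝ) (κ : ℝ)
    (k : Comp → Comp → ℝ) (P : Finset ℕ) (s : Fin 4 → Comp) (σ : Equiv.Perm (Fin 4)) (o o' : Bool)
    (f f' : Comp) : ℝ :=
  ∑ c ∈ P, g (stt c (s 0)) (stt c (s 1)) (stt c (s 2)) (stt c (s 3)) +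
  (∑ c ∈ nw (mrg (s (σ 0)) (s (σ 1)) o) f, lamC Λ c (s (σ 2)) (s (σ 3)) o') / 2 +
  (∑ c ∈ nw (mrg (s (σ 2)) (s (σ 3)) o') f', lamC Λ c (s (σ 0)) (s (σ 1)) o) / 2 -
  κ * ((nw (mrg (s (σ 0)) (s (σ 1)) o) f ∩ nw (mrg (s (σ 2)) (s (σ 3)) o') f').card : ℝ) +
  k f f'

/-- POINTWISE four-sample inequality.  The fixes may depend on the pairing, on the order, on both
orientations and on all four states (everything). -/
def FourIneq (g : Fin 3 → Fin 3 → Fin 3 → Fin 3 → ℝ) (Λ : Fin 3 → Fin 3 → Fin 3 → ℝ) (κ : ℝ)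
    (k : Comp → Comp → ℝ) : Prop :=
  ∀ s : Fin 4 → Comp, (∀ i, (s i).Ok) →
  ∀ f f' : Equiv.Perm (Fin 4) → Bool → Bool → Comp,
    (∀ σ o o', Fix1 (mrg (s (σ 0)) (s (σ 1)) o) (f σ o o')) →
    (∀ σ o o', Fix1 (mrg (s (σ 2)) (s (σ 3)) o') (f' σ o o')) →
  ∀ P : Finset ℕ, (∀ i τ, s i τ ⊆ P) → (∀ σ o o' τ, f σ o o' τ ⊆ P) →
    (∀ σ o o' τ, f' σ o o' τ ⊆ P) →
    96 + 8 * ∑ i, ∑ j, (if i ≠ j then k (s i) (s j) else 0) ≤
      ∑ σ : Equiv.Perm (Fin 4), ∑ o : Bool, ∑ o' : Bool, T4 g Λ κ k P s σ o o' (f σ o o') (f' σ o o')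

/-- `Λ` averaged over the orientation -/
noncomputable def lamBar (Λ : Fin 3 → Fin 3 → Fin 3 → ℝ) (a b : Fin 3) : ℝ :=
  if a = 1 ∧ b = 1 then (Λ 1 1 1 + Λ 1 1 2) / 2 else Λ a b (max a b)

/-- the scalar payoff of a colour which is used in a fraction `x` of the components, dead in a
fraction `y`, and introduced in a fraction `δ` of the merged components -/
noncomputable def payoff (g : Fin 3 → Fin 3 → Fin 3 → Fin 3 → ℝ) (Λ : Fin 3 → Fin 3 → Fin 3 → ℝ)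
    (κ : ℝ) (x y δ : ℝ) : ℝ :=
  let π : Fin 3 → ℝ := ![1 - x, x - y, y]
  (∑ a, ∑ b, ∑ c, ∑ d, g a b c d * (π a * π b * π c * π d)) +
    δ * (∑ a, ∑ b, lamBar Λ a b * (π a * π b)) - κ * δ ^ 2

/-- SCALAR CERTIFICATE: `G x y`, Lipschitz on the triangle `0 ≤ y ≤ x ≤ 1`, equal to a smooth `G0`
(`QuadB`, Lipschitz gradient) for `x ≤ θ`, and growing by at least the payoff. -/
structure Cert4 (pay : ℝ → ℝ → ℝ → ℝ) (G : ℝ → ℝ → ℝ) (V : ℝ) : Prop where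
  zero : G 0 0 = 0
  nonneg : ∀ x y : ℝ, 0 ≤ y → y ≤ x → x ≤ 1 → 0 ≤ G x y
  le : ∀ x y : ℝ, 0 ≤ y → y ≤ x → x ≤ 1 → G x y ≤ V
  lip : ∃ L : ℝ, ∀ x y x' y' : ℝ, 0 ≤ y → y ≤ x → x ≤ 1 → 0 ≤ y' → y' ≤ x' → x' ≤ 1 →
    |G x y - G x' y'| ≤ L * (|x - x'| + |y - y'|)
  smooth : ∃ θ : ℝ, 0 < θ ∧ ∃ G0 Gx Gy : ℝ → ℝ → ℝ, ∃ L : ℝ, QuadB G0 Gx Gy L ∧
    (∀ x x' y : ℝ, 0 ≤ x → x ≤ 1 → 0 ≤ x' → x' ≤ 1 → 0 ≤ y → y ≤ 1 →
      |Gx x y - Gx x' y| ≤ L * |x - x'| ∧ |Gy x y - Gy x' y| ≤ L * |x - x'|) ∧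
    ∀ x y : ℝ, 0 ≤ y → y ≤ x → x ≤ θ → G x y = G0 x y
  dyn : ∀ x y δ : ℝ, 0 ≤ y → y ≤ x → x ≤ 1 → 0 ≤ δ → δ ≤ (1 - x) ^ 2 →
    G x y + pay x y δ ≤ G (2 * x - x ^ 2 + δ) (2 * y - y ^ 2 + (x - y) ^ 2 / 2)

end Pool.Agent.Helper2.OC
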