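import Pool.Agent.Helper2.OD.Final4

/-!
# Interface: scalar certificates in the coordinates `x` (used fraction), `r = y / x`

On the reachable region `y ≤ x ^ 2 / (4 - 3 x)` (i.e. `r (4 - 3 x) ≤ x`) the potential is a
polynomial in `x` and `r`.
-/

namespace Pool.Agent.Helper2.OC

/-- dead fraction after the merge -/
noncomputable def yn (x y : ℝ) : ℝ := 2 * y - y ^ 2 + (x - y) ^ 2 / 2

/-- Scalar certificate on the reachable region. -/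
structure CertR (pay : ℝ → ℝ → ℝ → ℝ) (P : ℝ → ℝ → ℝ) (V : ℝ) : Prop where
  zero : P 0 0 = 0
  lip : ∃ L : ℝ, ∀ x r x' r' : ℝ, 0 ≤ x → x ≤ 1 → 0 ≤ r → r ≤ 1 → 0 ≤ x' → x' ≤ 1 → 0 ≤ r' →
    r' ≤ 1 → |P x r - P x' r'| ≤ L * (|x - x'| + |r - r'|)
  mono : ∀ x r r' : ℝ, 0 ≤ x → x ≤ 1 → 0 ≤ r → r ≤ r' → r' * (4 - 3 * x) ≤ x → P x r ≤ P x r'
  nonneg : ∀ x r : ℝ, 0 ≤ x → x ≤ 1 → 0 ≤ r → r * (4 - 3 * x) ≤ x → 0 ≤ P x r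
  le : ∀ x r : ℝ, 0 ≤ x → x ≤ 1 → 0 ≤ r → r * (4 - 3 * x) ≤ x → P x r ≤ V
  dyn : ∀ x r x' : ℝ, 0 ≤ x → x ≤ 1 → 0 ≤ r → r * (4 - 3 * x) ≤ x → 2 * x - x ^ 2 ≤ x' → x' ≤ 1 →
    P x r + pay x (x * r) (x' - (2 * x - x ^ 2)) ≤ P x' (yn x (x * r) / x')

/-- properties of the payoff -/
structure PayOK (pay : ℝ → ℝ → ℝ → ℝ) : Prop where
  anti : ∀ x y0 y δ : ℝ, 0 ≤ y0 → y0 ≤ y → y ≤ x → x ≤ 1 → x ^ 2 ≤ y0 * (4 - 3 * x) → 0 ≤ δ →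
    δ ≤ (1 - x) ^ 2 → pay x y δ ≤ pay x y0 δ
  bound : ∃ L : ℝ, 0 ≤ L ∧ ∀ x y δ : ℝ, 0 ≤ y → y ≤ x → x ≤ 1 → 0 ≤ δ → δ ≤ (1 - x) ^ 2 →
    pay x y δ ≤ L * (x + δ)

/-- GLUE (to be proved): a certificate on the reachable region gives certificates `Cert4` with
values arbitrarily close. -/
def GlueStatement : Prop := ∀ (pay : ℝ → ℝ → ℝ → ℝ) (P : ℝ → ℝ → ℝ) (V : ℝ), 0 ≤ V →
  PayOK pay → CertR pay P V → ∀ η : ℝ, 0 < η → ∃ G : ℝ → ℝ → ℝ, Cert4 pay G (V + η)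

end Pool.Agent.Helper2.OC
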