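import Pool.Agent.Helper2.OD.Sym
import Pool.Agent.Helper2.OD.Emb

/-!
# The `Λ` statistic of one colour: mean and variance
-/

namespace Pool.Agent.Helper2.OC

open Finset

theorem us_eq_stt (c : ℕ) (p : Comp) : us c p = if stt c p ≠ 0 then 1 else 0 := by
  unfold us stt
  by_cases h1 : c ∈ p false <;> by_cases h2 : c ∈ p true <;> simp [h1, h2]

theorem de_eq_stt (c : ℕ) (p : Comp) : de c p = if stt c p = 2 then 1 else 0 := by
  unfold de stt
  by_cases h1 : c ∈ p false <;> by_cases h2 : c ∈ p true <;> simp [h1, h2]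

theorem fr_eq_stt (c : ℕ) (p : Comp) : 1 - us c p = if stt c p = 0 then 1 else 0 := by
  unfold us stt
  by_cases h1 : c ∈ p false <;> by_cases h2 : c ∈ p true <;> simp [h1, h2]

theorem lv_eq_stt (c : ℕ) (p : Comp) : us c p - de c p = if stt c p = 1 then 1 else 0 := by
  unfold us de stt
  by_cases h1 : c ∈ p false <;> by_cases h2 : c ∈ p true <;> simp [h1, h2]

theorem stt_mrg_zero {c : ℕ} {p q : Comp} (hp : stt c p = 0) (hq : stt c q = 0) (y : Bool) :
    stt c (mrg p q y) = 0 := by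
  have h1 := us_mrg c p q y
  rw [us_eq_stt, us_eq_stt c p, us_eq_stt c q, hp, hq] at h1
  by_contra h
  rw [if_pos h] at h1
  norm_num at h1

theorem lamC_sum (Λ : Fin 3 → Fin 3 → Fin 3 → ℝ) (c : ℕ) (p q : Comp) :
    lamC Λ c p q false + lamC Λ c p q true = 2 * lamBar Λ (stt c p) (stt c q) := by
  unfold lamC lamBar mrg stt
  by_cases h1 : c ∈ p false <;> by_cases h2 : c ∈ p true <;> by_cases h3 : c ∈ q false <;>
    by_cases h4 : c ∈ q true <;> simp [h1, h2, h3, h4] <;> ring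

section

variable {α β : Type*} [Fintype α] [Fintype β] [DecidableEq α] [DecidableEq β]

theorem ucnt_eq (c : ℕ) (s : α → Comp) (hM : 0 < Fintype.card α) :
    ucnt (fun i => stt c (s i)) / Fintype.card α = xs c s := by
  unfold ucnt xs
  congr 1
  exact Finset.sum_congr rfl fun i _ => (us_eq_stt c (s i)).symm

/-- the status distribution of a colour -/
noncomputable def pis (x y : ℝ) : Fin 3 → ℝ := ![1 - x, x - y, y]

theorem cnt_eq (c : ℕ) (s : α → Comp) (hM : 0 < Fintype.card α) (a : Fin 3) :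
    cnt (fun i => stt c (s i)) a / Fintype.card α = pis (xs c s) (ys c s) a := by
  have hM' : (Fintype.card α : ℝ) ≠ 0 := by
    have : (0 : ℝ) < Fintype.card α := by exact_mod_cast hM
    exact this.ne'
  have h0 : cnt (fun i => stt c (s i)) 0 = ∑ i, (1 - us c (s i)) := by
    unfold cnt
    exact Finset.sum_congr rfl fun i _ => (fr_eq_stt c (s i)).symm
  have h1 : cnt (fun i => stt c (s i)) 1 = ∑ i, (us c (s i) - de c (s i)) := by
    unfold cnt
    exact Finset.sum_congr rfl fun i _ => (lv_eq_stt c (s i)).symm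
  have h2 : cnt (fun i => stt c (s i)) 2 = ∑ i, de c (s i) := by
    unfold cnt
    exact Finset.sum_congr rfl fun i _ => (de_eq_stt c (s i)).symm
  unfold pis
  fin_cases a
  · show cnt (fun i => stt c (s i)) 0 / _ = 1 - xs c s
    rw [h0, Finset.sum_sub_distrib, Finset.sum_const, Finset.card_univ, nsmul_eq_mul]
    unfold xs
    field_simp
  · show cnt (fun i => stt c (s i)) 1 / _ = xs c s - ys c s
    rw [h1, Finset.sum_sub_distrib]
    unfold xs ys
    rw [sub_div]
  · show cnt (fun i => stt c (s i)) 2 / _ = ys c s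
    rw [h2]
    rfl

/-- equivalence for iterated sums over `Fin 2 → Fin 3` -/
def arr2 : (Fin 2 → Fin 3) ≃ Fin 3 × Fin 3 where
  toFun a := (a 0, a 1)
  invFun a := ![a.1, a.2]
  left_inv a := by
    funext i
    fin_cases i <;> rfl
  right_inv a := rfl

/-- equivalence for iterated sums over `Fin 4 → Fin 3` -/
def arr4 : (Fin 4 → Fin 3) ≃ Fin 3 × Fin 3 × Fin 3 × Fin 3 where
  toFun a := (a 0, a 1, a 2, a 3)
  invFun a := ![a.1, a.2.1, a.2.2.1, a.2.2.2]
  left_inv a := by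
    funext i
    fin_cases i <;> rfl
  right_inv a := rfl

theorem sum_arr2 (h : Fin 3 → Fin 3 → ℝ) (π : Fin 3 → ℝ) :
    ∑ a : Fin 2 → Fin 3, h (a 0) (a 1) * ∏ i, π (a i) = ∑ a, ∑ b, h a b * (π a * π b) := by
  rw [Fintype.sum_equiv arr2 _ (fun q => h q.1 q.2 * (π q.1 * π q.2)) (fun a => by
    rw [Fin.prod_univ_two]; rfl), Fintype.sum_prod_type]

theorem sum_arr4 (h : Fin 3 → Fin 3 → Fin 3 → Fin 3 → ℝ) (π : Fin 3 → ℝ) :
    ∑ a : Fin 4 → Fin 3, h (a 0) (a 1) (a 2) (a 3) * ∏ i, π (a i) =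
      ∑ a, ∑ b, ∑ c, ∑ d, h a b c d * (π a * π b * π c * π d) := by
  rw [Fintype.sum_equiv arr4 _ (fun q => h q.1 q.2.1 q.2.2.1 q.2.2.2 *
    (π q.1 * π q.2.1 * π q.2.2.1 * π q.2.2.2)) (fun a => by
    rw [Fin.prod_univ_four]; rfl), Fintype.sum_prod_type]
  refine Finset.sum_congr rfl fun a _ => ?_
  rw [Fintype.sum_prod_type]
  refine Finset.sum_congr rfl fun b _ => ?_
  rw [Fintype.sum_prod_type]

/-- the mean of `Λ` -/
noncomputable def lamP (Λ : Fin 3 → Fin 3 → Fin 3 → ℝ) (x y : ℝ) : ℝ :=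
  ∑ a, ∑ b, lamBar Λ a b * (pis x y a * pis x y b)

/-- the mean of `g` -/
noncomputable def gP (g : Fin 3 → Fin 3 → Fin 3 → Fin 3 → ℝ) (x y : ℝ) : ℝ :=
  ∑ a, ∑ b, ∑ c, ∑ d, g a b c d * (pis x y a * pis x y b * pis x y c * pis x y d)

theorem payoff_eq (g : Fin 3 → Fin 3 → Fin 3 → Fin 3 → ℝ) (Λ : Fin 3 → Fin 3 → Fin 3 → ℝ) (κ : ℝ)
    (x y δ : ℝ) : payoff g Λ κ x y δ = gP g x y + δ * lamP Λ x y - κ * δ ^ 2 := rfl

theorem card_emb_ge (hM : 6 ≤ Fintype.card α) :
    (Fintype.card α : ℝ) ^ 4 ≤ 4 * Fintype.card (Fin 4 ↪ α) := by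
  have hc4 : (Fintype.card (Fin 4 ↪ α) : ℝ) = (Fintype.card α : ℝ) * ((Fintype.card α : ℝ) - 1) *
      (((Fintype.card α : ℝ) - 2) * ((Fintype.card α : ℝ) - 3)) := by
    rw [Fintype.card_embedding_eq, Fintype.card_fin]
    have h1 : (Fintype.card α).descFactorial 4 =
        (Fintype.card α) * (Fintype.card α - 1) * ((Fintype.card α - 2) *
          (Fintype.card α - 3)) := by
      simp only [Nat.descFactorial_succ, Nat.descFactorial_zero, Nat.sub_zero, mul_one]
      ring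
    rw [h1]
    have e1 : ((Fintype.card α - 1 : ℕ) : ℝ) = (Fintype.card α : ℝ) - 1 := by
      rw [Nat.cast_sub (by omega)]; push_cast; ring
    have e2 : ((Fintype.card α - 2 : ℕ) : ℝ) = (Fintype.card α : ℝ) - 2 := by
      rw [Nat.cast_sub (by omega)]; push_cast; ring
    have e3 : ((Fintype.card α - 3 : ℕ) : ℝ) = (Fintype.card α : ℝ) - 3 := by
      rw [Nat.cast_sub (by omega)]; push_cast; ring
    simp only [Nat.cast_mul, e1, e2, e3]
  rw [hc4]
  have hM' : (6 : ℝ) ≤ Fintype.card α := by exact_mod_cast hM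
  set M : ℝ := (Fintype.card α : ℝ)
  have h1 : 5 / 6 * M ≤ M - 1 := by linarith
  have h2 : 4 / 6 * M ≤ M - 2 := by linarith
  have h3 : 3 / 6 * M ≤ M - 3 := by linarith
  have h4 : (5 / 6 * M) * ((4 / 6 * M) * (3 / 6 * M)) ≤ (M - 1) * ((M - 2) * (M - 3)) := by
    have := mul_le_mul h2 h3 (by linarith) (by linarith)
    exact mul_le_mul h1 this (by positivity) (by linarith)
  have h5 := mul_le_mul_of_nonneg_left h4 (by linarith : 0 ≤ M)
  have h6 : M ^ 4 ≤ 4 * (M * ((5 / 6 * M) * ((4 / 6 * M) * (3 / 6 * M)))) := by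
    have : 4 * (M * ((5 / 6 * M) * ((4 / 6 * M) * (3 / 6 * M)))) = 240 / 216 * M ^ 4 := by ring
    rw [this]
    nlinarith [pow_pos (by linarith : 0 < M) 4]
  nlinarith

theorem card_emb_ge2 (hM : 6 ≤ Fintype.card α) :
    (Fintype.card α : ℝ) ^ 2 ≤ 4 * Fintype.card (Fin 2 ↪ α) := by
  rw [card_emb_two _ rfl (by omega)]
  have hM' : (6 : ℝ) ≤ Fintype.card α := by exact_mod_cast hM
  nlinarith

/-- four samples without replacement -/
theorem gmean (c : ℕ) (s : α → Comp) (g : Fin 3 → Fin 3 → Fin 3 → Fin 3 → ℝ) (B : ℝ)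
    (hB : ∀ a b c d, |g a b c d| ≤ B) (h0 : g 0 0 0 0 = 0) (hM : 6 ≤ Fintype.card α) :
    |(∑ t : Fin 4 ↪ α, g (stt c (s (t 0))) (stt c (s (t 1))) (stt c (s (t 2))) (stt c (s (t 3)))) /
      Fintype.card (Fin 4 ↪ α) - gP g (xs c s) (ys c s)| ≤
      320 * B * xs c s / Fintype.card α := by
  have h1 := emb_mean (α := α) (k := 4) (fun i => stt c (s i))
    (fun a => g (a 0) (a 1) (a 2) (a 3)) B (fun a => hB _ _ _ _) h0 (by omega) (card_emb_ge hM)
  simp only [cnt_eq c s (by omega : 0 < Fintype.card α)] at h1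
  rw [sum_arr4 g (pis (xs c s) (ys c s)), ucnt_eq c s (by omega)] at h1
  refine h1.trans (le_of_eq ?_)
  push_cast
  ring

theorem lamMean (c : ℕ) (s : α → Comp) (Λ : Fin 3 → Fin 3 → Fin 3 → ℝ) (B : ℝ)
    (hB : ∀ a b m, |Λ a b m| ≤ B) (hM : 6 ≤ Fintype.card α) :
    |pairMean (fun i i' y => lamC Λ c (s i) (s i') y) - lamP Λ (xs c s) (ys c s)| ≤
      80 * B * xs c s / Fintype.card α := by
  have hM' : (6 : ℝ) ≤ Fintype.card α := by exact_mod_cast hM
  have hne : (0 : ℝ) < Fintype.card (Fin 2 ↪ α) := by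
    rw [card_emb_two _ rfl (by omega)]
    nlinarith
  have hbar : ∀ a b, |lamBar Λ a b| ≤ B := by
    intro a b
    unfold lamBar
    split_ifs
    · have h1 := abs_le.mp (hB 1 1 1)
      have h2 := abs_le.mp (hB 1 1 2)
      rw [abs_le]
      constructor <;> linarith
    · exact hB _ _ _
  have h1 := emb_mean (α := α) (k := 2) (fun i => stt c (s i))
    (fun a => lamBar Λ (a 0) (a 1) - lamBar Λ 0 0) (2 * B)
    (fun a => by
      have h1 := abs_le.mp (hbar (a 0) (a 1))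
      have h2 := abs_le.mp (hbar 0 0)
      rw [abs_le]
      constructor <;> linarith) (sub_self _) (by omega) (card_emb_ge2 hM)
  simp only [cnt_eq c s (by omega : 0 < Fintype.card α)] at h1
  rw [sum_arr2 (fun a b => lamBar Λ a b - lamBar Λ 0 0) (pis (xs c s) (ys c s)),
    ucnt_eq c s (by omega)] at h1
  have e1 : (∑ t : Fin 2 ↪ α, (lamBar Λ (stt c (s (t 0))) (stt c (s (t 1))) - lamBar Λ 0 0)) /
      Fintype.card (Fin 2 ↪ α) = pairMean (fun i i' y => lamC Λ c (s i) (s i') y) -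
      lamBar Λ 0 0 := by
    unfold pairMean
    simp only [lamC_sum]
    rw [Finset.sum_sub_distrib, Finset.sum_const, Finset.card_univ, nsmul_eq_mul, ← Finset.mul_sum]
    field_simp
  have e2 : ∑ a, ∑ b, (lamBar Λ a b - lamBar Λ 0 0) *
      (pis (xs c s) (ys c s) a * pis (xs c s) (ys c s) b) =
      lamP Λ (xs c s) (ys c s) - lamBar Λ 0 0 := by
    unfold lamP
    have e3 : ∑ a, ∑ b, (pis (xs c s) (ys c s) a * pis (xs c s) (ys c s) b) = 1 := by
      rw [← Finset.sum_mul_sum]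
      unfold pis
      simp only [Fin.sum_univ_three, Matrix.cons_val_zero, Matrix.cons_val_one, Matrix.cons_val]
      ring
    have e5 : ∑ a, ∑ b, lamBar Λ 0 0 * (pis (xs c s) (ys c s) a * pis (xs c s) (ys c s) b) =
        lamBar Λ 0 0 := by
      calc _ = lamBar Λ 0 0 * ∑ a, ∑ b, (pis (xs c s) (ys c s) a * pis (xs c s) (ys c s) b) := by
            simp only [Finset.mul_sum]
        _ = _ := by rw [e3, mul_one]
    simp only [sub_mul, Finset.sum_sub_distrib]
    rw [e5]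
  rw [e1, e2] at h1
  have e4 : pairMean (fun i i' y => lamC Λ c (s i) (s i') y) - lamP Λ (xs c s) (ys c s) =
      pairMean (fun i i' y => lamC Λ c (s i) (s i') y) - lamBar Λ 0 0 -
      (lamP Λ (xs c s) (ys c s) - lamBar Λ 0 0) := by ring
  rw [e4]
  refine h1.trans (le_of_eq ?_)
  push_cast
  ring

end

end Pool.Agent.Helper2.OC
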