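import Pool.Agent.Helper2.OD.Lam

/-!
# The `Λ` statistic of one colour: variance
-/

namespace Pool.Agent.Helper2.OC

open Finset

section

variable {α β : Type*} [Fintype α] [Fintype β] [DecidableEq α] [DecidableEq β]

theorem pairMean_mono {d d' : α → α → Bool → ℝ} (h : ∀ i i' y, d i i' y ≤ d' i i' y) :
    pairMean d ≤ pairMean d' := by
  unfold pairMean
  refine div_le_div_of_nonneg_right (Finset.sum_le_sum fun x _ => ?_) (by positivity)
  exact add_le_add (h _ _ _) (h _ _ _)

theorem pairMean_comb (hne : Nonempty (Fin 2 ↪ α)) (a b : ℝ) (d d' : α → α → Bool → ℝ) :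
    pairMean (fun i i' y => a + b * (d i i' y - d' i i' y)) =
      a + b * (pairMean d - pairMean d') := by
  have hc : (0 : ℝ) < Fintype.card (Fin 2 ↪ α) := by exact_mod_cast Fintype.card_pos
  unfold pairMean
  have h1 : ∑ x : Fin 2 ↪ α, (a + b * (d (x 0) (x 1) false - d' (x 0) (x 1) false) +
      (a + b * (d (x 0) (x 1) true - d' (x 0) (x 1) true))) =
      2 * Fintype.card (Fin 2 ↪ α) * a + b * (∑ x : Fin 2 ↪ α, (d (x 0) (x 1) false +
        d (x 0) (x 1) true) - ∑ x : Fin 2 ↪ α, (d' (x 0) (x 1) false + d' (x 0) (x 1) true)) := by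
    rw [← Finset.sum_sub_distrib, Finset.mul_sum,
      show (2 : ℝ) * Fintype.card (Fin 2 ↪ α) * a = ∑ _x : Fin 2 ↪ α, (2 * a) by
        rw [Finset.sum_const, Finset.card_univ, nsmul_eq_mul]; ring, ← Finset.sum_add_distrib]
    exact Finset.sum_congr rfl fun x _ => by ring
  rw [h1]
  field_simp

theorem totStat_comb (a b : ℝ) (d d' : α → α → Bool → ℝ) (o : (α ≃ β × Bool) × (β → Bool)) :
    totStat (fun i i' y => a + b * (d i i' y - d' i i' y)) o =
      Fintype.card β * a + b * (totStat d o - totStat d' o) := by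
  unfold totStat pairStat
  rw [Finset.sum_add_distrib, Finset.sum_const, Finset.card_univ, nsmul_eq_mul, ← Finset.mul_sum,
    Finset.sum_sub_distrib]

/-- variance of the `Λ` statistic -/
theorem lamVar (hcard : Fintype.card α = 2 * Fintype.card β) (h3 : 3 ≤ Fintype.card β)
    (c : ℕ) (s : α → Comp) (Λ : Fin 3 → Fin 3 → Fin 3 → ℝ) (B : ℝ) (hB0 : 0 < B)
    (hB : ∀ a b m, |Λ a b m| ≤ B) :
    ∑ o : (α ≃ β × Bool) × (β → Bool),
      (totStat (fun i i' y => lamC Λ c (s i) (s i') y) o / Fintype.card β -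
        pairMean (fun i i' y => lamC Λ c (s i) (s i') y)) ^ 2 ≤
      (Fintype.card ((α ≃ β × Bool) × (β → Bool)) : ℝ) * (144 * B ^ 2 * xs c s / Fintype.card β) := by
  have hne : Nonempty (Fin 2 ↪ α) := by
    refine ⟨(Function.Embedding.nonempty_of_card_le ?_).some⟩
    rw [Fintype.card_fin, hcard]
    omega
  have hM : 2 ≤ Fintype.card α := by omega
  set W : ℝ := (Fintype.card ((α ≃ β × Bool) × (β → Bool)) : ℝ) with hW
  have hW0 : 0 ≤ W := Nat.cast_nonneg _
  set b : ℝ := (Fintype.card β : ℝ) with hb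
  have hb3 : (3 : ℝ) ≤ b := by rw [hb]; exact_mod_cast h3
  have hb0 : 0 < b := by linarith
  set x := xs c s with hx
  have hx0 : 0 ≤ x := xs_nonneg c s
  have hx1 : x ≤ 1 := xs_le_one c s
  -- positive and negative parts
  set dp : α → α → Bool → ℝ := fun i i' y => max (lamC Λ c (s i) (s i') y - Λ 0 0 0) 0 / (2 * B)
    with hdp
  set dm : α → α → Bool → ℝ := fun i i' y => max (Λ 0 0 0 - lamC Λ c (s i) (s i') y) 0 / (2 * B)
    with hdm
  have hL : (fun i i' y => lamC Λ c (s i) (s i') y) =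
      fun i i' y => Λ 0 0 0 + (2 * B) * (dp i i' y - dm i i' y) := by
    funext i i' y
    rw [hdp, hdm]
    simp only
    rcases le_total (lamC Λ c (s i) (s i') y - Λ 0 0 0) 0 with h | h
    · rw [max_eq_right h, max_eq_left (by linarith)]
      field_simp
      ring
    · rw [max_eq_left h, max_eq_right (by linarith)]
      field_simp
      ring
  have hLB : ∀ i i' y, |lamC Λ c (s i) (s i') y| ≤ B := fun i i' y => hB _ _ _
  have hp0 : ∀ i i' y, 0 ≤ dp i i' y := fun i i' y => by
    rw [hdp]; positivity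
  have hm0 : ∀ i i' y, 0 ≤ dm i i' y := fun i i' y => by
    rw [hdm]; positivity
  have hus : ∀ i i' y, us c (mrg (s i) (s i') y) = 0 → lamC Λ c (s i) (s i') y = Λ 0 0 0 := by
    intro i i' y h
    rw [us_mrg] at h
    have h1 : stt c (s i) = 0 := by
      by_contra hcon
      rw [us_eq_stt c (s i), if_pos hcon] at h
      norm_num at h
    have h2 : stt c (s i') = 0 := by
      by_contra hcon
      rw [us_eq_stt c (s i'), if_pos hcon] at h
      norm_num at h
    unfold lamC
    rw [h1, h2, stt_mrg_zero h1 h2]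
  have husd : ∀ i i' y, us c (mrg (s i) (s i') y) = 0 ∨ us c (mrg (s i) (s i') y) = 1 := by
    intro i i' y
    unfold us
    split_ifs
    · exact Or.inr rfl
    · exact Or.inl rfl
  have hp1 : ∀ i i' y, dp i i' y ≤ us c (mrg (s i) (s i') y) := by
    intro i i' y
    rcases husd i i' y with h | h
    · rw [h, hdp]
      simp only
      rw [hus i i' y h]
      simp
    · rw [h, hdp]
      simp only
      rw [div_le_one (by positivity)]
      have h1 := abs_le.mp (hLB i i' y)
      have h2 := abs_le.mp (hB 0 0 0)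
      exact max_le (by linarith) (by linarith)
  have hm1 : ∀ i i' y, dm i i' y ≤ us c (mrg (s i) (s i') y) := by
    intro i i' y
    rcases husd i i' y with h | h
    · rw [h, hdm]
      simp only
      rw [hus i i' y h]
      simp
    · rw [h, hdm]
      simp only
      rw [div_le_one (by positivity)]
      have h1 := abs_le.mp (hLB i i' y)
      have h2 := abs_le.mp (hB 0 0 0)
      exact max_le (by linarith) (by linarith)
  have mU : pairMean (fun i i' y => us c (mrg (s i) (s i') y)) ≤ 3 * x := by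
    have h1 := (abs_le.mp (mean_us_err c s hM)).2
    rw [← hx] at h1
    have hMb : b ≤ (Fintype.card α : ℝ) - 1 := by
      rw [hcard]; push_cast; rw [← hb]; linarith
    have h2 : x / ((Fintype.card α : ℝ) - 1) ≤ x :=
      div_le_self hx0 (by linarith)
    nlinarith
  have mp : pairMean dp ≤ 3 * x := (pairMean_mono hp1).trans mU
  have mm : pairMean dm ≤ 3 * x := (pairMean_mono hm1).trans mU
  have vp := var_totStat hcard h3 dp hp0 (fun i i' y => (hp1 i i' y).trans (us_le_one _ _))
  have vm := var_totStat hcard h3 dm hm0 (fun i i' y => (hm1 i i' y).trans (us_le_one _ _))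
  rw [← hW, ← hb] at vp vm
  have hpt : ∀ o : (α ≃ β × Bool) × (β → Bool),
      (totStat (fun i i' y => lamC Λ c (s i) (s i') y) o / b -
        pairMean (fun i i' y => lamC Λ c (s i) (s i') y)) ^ 2 ≤
      8 * B ^ 2 / b ^ 2 * ((totStat dp o - b * pairMean dp) ^ 2 +
        (totStat dm o - b * pairMean dm) ^ 2) := by
    intro o
    rw [hL, totStat_comb, pairMean_comb hne, ← hb]
    have e : (b * Λ 0 0 0 + 2 * B * (totStat dp o - totStat dm o)) / b -
        (Λ 0 0 0 + 2 * B * (pairMean dp - pairMean dm)) =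
        2 * B / b * ((totStat dp o - b * pairMean dp) - (totStat dm o - b * pairMean dm)) := by
      field_simp
      ring
    rw [e, mul_pow, div_pow]
    have e2 : 8 * B ^ 2 / b ^ 2 * ((totStat dp o - b * pairMean dp) ^ 2 +
        (totStat dm o - b * pairMean dm) ^ 2) = (2 * B) ^ 2 / b ^ 2 *
        (2 * ((totStat dp o - b * pairMean dp) ^ 2 + (totStat dm o - b * pairMean dm) ^ 2)) := by
      ring
    rw [e2]
    refine mul_le_mul_of_nonneg_left ?_ (by positivity)
    nlinarith [sq_nonneg ((totStat dp o - b * pairMean dp) + (totStat dm o - b * pairMean dm))]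
  refine (Finset.sum_le_sum fun o _ => hpt o).trans ?_
  rw [← Finset.mul_sum, Finset.sum_add_distrib]
  have h5 : ∑ o : (α ≃ β × Bool) × (β → Bool), (totStat dp o - b * pairMean dp) ^ 2 +
      ∑ o : (α ≃ β × Bool) × (β → Bool), (totStat dm o - b * pairMean dm) ^ 2 ≤
      W * (18 * b * x) := by
    have a1 : W * (3 * b * pairMean dp) ≤ W * (3 * b * (3 * x)) :=
      mul_le_mul_of_nonneg_left (mul_le_mul_of_nonneg_left mp (by positivity)) hW0
    have a2 : W * (3 * b * pairMean dm) ≤ W * (3 * b * (3 * x)) :=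
      mul_le_mul_of_nonneg_left (mul_le_mul_of_nonneg_left mm (by positivity)) hW0
    calc _ ≤ W * (3 * b * pairMean dp) + W * (3 * b * pairMean dm) := add_le_add vp vm
      _ ≤ W * (3 * b * (3 * x)) + W * (3 * b * (3 * x)) := add_le_add a1 a2
      _ = _ := by ring
  calc 8 * B ^ 2 / b ^ 2 * (∑ o : (α ≃ β × Bool) × (β → Bool),
        (totStat dp o - b * pairMean dp) ^ 2 +
      ∑ o : (α ≃ β × Bool) × (β → Bool), (totStat dm o - b * pairMean dm) ^ 2)
      ≤ 8 * B ^ 2 / b ^ 2 * (W * (18 * b * x)) :=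
        mul_le_mul_of_nonneg_left h5 (by positivity)
    _ = _ := by
        field_simp
        ring

/-- mean square deviation of the `Λ` statistic from its ideal value -/
theorem lamDev (hcard : Fintype.card α = 2 * Fintype.card β) (h3 : 3 ≤ Fintype.card β)
    (c : ℕ) (s : α → Comp) (Λ : Fin 3 → Fin 3 → Fin 3 → ℝ) (B : ℝ) (hB0 : 0 < B)
    (hB : ∀ a b m, |Λ a b m| ≤ B) :
    ∑ o : (α ≃ β × Bool) × (β → Bool),
      (totStat (fun i i' y => lamC Λ c (s i) (s i') y) o / Fintype.card β -
        lamP Λ (xs c s) (ys c s)) ^ 2 ≤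
      (Fintype.card ((α ≃ β × Bool) × (β → Bool)) : ℝ) *
        (3488 * B ^ 2 * xs c s / Fintype.card β) := by
  have h1 := lamVar hcard h3 c s Λ B hB0 hB
  have h2 := lamMean c s Λ B hB (by omega : 6 ≤ Fintype.card α)
  set W : ℝ := (Fintype.card ((α ≃ β × Bool) × (β → Bool)) : ℝ) with hW
  have hW0 : 0 ≤ W := Nat.cast_nonneg _
  set b : ℝ := (Fintype.card β : ℝ) with hb
  have hb3 : (3 : ℝ) ≤ b := by rw [hb]; exact_mod_cast h3
  have hb0 : 0 < b := by linarith
  have hMb : (Fintype.card α : ℝ) = 2 * b := by rw [hcard]; push_cast; rw [← hb]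
  rw [hMb] at h2
  set x := xs c s with hx
  have hx0 : 0 ≤ x := xs_nonneg c s
  have hx1 : x ≤ 1 := xs_le_one c s
  set m := pairMean (fun i i' y => lamC Λ c (s i) (s i') y) with hm
  set z := lamP Λ x (ys c s) with hz
  have h3' : (m - z) ^ 2 ≤ 1600 * B ^ 2 * x / b := by
    have e1 : (m - z) ^ 2 ≤ (80 * B * x / (2 * b)) ^ 2 := by
      rw [← sq_abs]
      exact pow_le_pow_left₀ (abs_nonneg _) h2 2
    refine e1.trans ?_
    have e2 : (80 * B * x / (2 * b)) ^ 2 = 1600 * B ^ 2 * x ^ 2 / b ^ 2 := by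
      field_simp
      ring
    rw [e2, div_le_div_iff₀ (by positivity) hb0]
    have a1 : x ^ 2 ≤ x := by nlinarith
    have a2 : b ≤ b ^ 2 := by nlinarith
    have a3 : x ^ 2 * b ≤ x * b ^ 2 := mul_le_mul a1 a2 hb0.le hx0
    nlinarith [mul_le_mul_of_nonneg_left a3 (by positivity : 0 ≤ 1600 * B ^ 2)]
  have h4 : ∀ o : (α ≃ β × Bool) × (β → Bool),
      (totStat (fun i i' y => lamC Λ c (s i) (s i') y) o / b - z) ^ 2 ≤
      2 * (totStat (fun i i' y => lamC Λ c (s i) (s i') y) o / b - m) ^ 2 + 2 * (m - z) ^ 2 := by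
    intro o
    nlinarith [sq_nonneg ((totStat (fun i i' y => lamC Λ c (s i) (s i') y) o / b - m) - (m - z))]
  refine (Finset.sum_le_sum fun o _ => h4 o).trans ?_
  rw [Finset.sum_add_distrib, ← Finset.mul_sum, Finset.sum_const, Finset.card_univ, nsmul_eq_mul,
    ← hW]
  have h5 : W * (2 * (m - z) ^ 2) ≤ W * (2 * (1600 * B ^ 2 * x / b)) :=
    mul_le_mul_of_nonneg_left (by linarith) hW0
  calc _ ≤ 2 * (W * (144 * B ^ 2 * x / b)) + W * (2 * (1600 * B ^ 2 * x / b)) := by linarith
    _ = _ := by ring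

end

end Pool.Agent.Helper2.OC
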