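import Pool.Agent.Helper2.OD.StepA
import Pool.Agent.Helper2.OC.Main

/-!
# From a population inequality and a scalar certificate to a lower bound for `f n`
-/

namespace Pool.Agent.Helper2.OC

open Finset
open scoped ENNReal

/-- mean of a pair feature over two distinct random components -/
noncomputable def pairK (k : Comp → Comp → ℝ) {α : Type*} [Fintype α] [DecidableEq α]
    (s : α → Comp) : ℝ :=
  (∑ x : Fin 2 ↪ α, k (s (x 0)) (s (x 1))) / Fintype.card (Fin 2 ↪ α)

theorem abs_pairK_le {k : Comp → Comp → ℝ} {B : ℝ} (hB : 0 ≤ B) (hk : ∀ p q, |k p q| ≤ B)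
    {α : Type*} [Fintype α] [DecidableEq α] (s : α → Comp) : |pairK k s| ≤ B := by
  unfold pairK
  rw [abs_div, abs_of_nonneg (Nat.cast_nonneg _ : (0:ℝ) ≤ Fintype.card (Fin 2 ↪ α))]
  refine div_le_of_le_mul₀ (Nat.cast_nonneg _) hB ?_
  calc |∑ x : Fin 2 ↪ α, k (s (x 0)) (s (x 1))| ≤ ∑ x : Fin 2 ↪ α, |k (s (x 0)) (s (x 1))| :=
        Finset.abs_sum_le_sum_abs _ _
    _ ≤ ∑ _x : Fin 2 ↪ α, B := Finset.sum_le_sum fun x _ => hk _ _
    _ = B * Fintype.card (Fin 2 ↪ α) := by
        rw [Finset.sum_const, Finset.card_univ, nsmul_eq_mul, mul_comm]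

/-- LAW INEQUALITY for finite populations. -/
def PopIneq (pay : ℝ → ℝ → ℝ → ℝ) (k : Comp → Comp → ℝ) (A : ℝ) : Prop :=
  ∀ (α β : Type) [Fintype α] [Fintype β] [DecidableEq α] [DecidableEq β],
    Fintype.card α = 2 * Fintype.card β → 3 ≤ Fintype.card β →
    ∀ (s : α → Comp), (∀ i, (s i).Ok) → ∀ (F : (α ≃ β × Bool) × (β → Bool) → β → Comp),
    (∀ o j, Fix1 (mst s o j) (F o j)) → ∀ P : Finset ℕ, (∀ i σ, s i σ ⊆ P) →
    (∀ o j σ, F o j σ ⊆ P) →
    (Fintype.card ((α ≃ β × Bool) × (β → Bool)) : ℝ) *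
      (1 + pairK k s - A * (∑ c ∈ P, xs c s + 1) / Real.sqrt (Fintype.card β)) ≤
    ∑ o : (α ≃ β × Bool) × (β → Bool),
      (∑ c ∈ P, pay (xs c s) (ys c s) (dlt c (mst s o) (F o)) + pairK k (F o))

/-- the potential -/
noncomputable def pot4 (G : ℝ → ℝ → ℝ) (k : Comp → Comp → ℝ) (B η : ℝ) {M : ℕ} (s : Pop M) : ℝ :=
  pot G η s + pairK k s - B

theorem main_game4 {pay : ℝ → ℝ → ℝ → ℝ} {G : ℝ → ℝ → ℝ} {V Lp : ℝ} (hG : Cert4 pay G V)
    (hp : PayLip pay Lp) {k : Comp → Comp → ℝ} {B : ℝ} (hB : 0 ≤ B) (hk : ∀ p q, |k p q| ≤ B)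
    {A0 : ℝ} (hA0 : 0 ≤ A0) (hpop : PopIneq pay k A0) :
    ∃ H : ℝ, 0 ≤ H ∧ ∀ R T : ℕ, 3 ≤ R → ∀ n, 4 * R * 2 ^ T ≤ n → 0 < V + 2 * H / Real.sqrt R →
      ENNReal.ofReal ((T - 2 * B) / (V + 2 * H / Real.sqrt R)) ≤ f n := by
  obtain ⟨A, hA, hstep⟩ := cert4_step hG hp
  set H : ℝ := 4 * (A + A0) with hH
  have hH0 : 0 ≤ H := by positivity
  refine ⟨H, hH0, ?_⟩
  intro R T hR n hn hpos
  have hR' : (3 : ℝ) ≤ R := by exact_mod_cast hR
  refine game_bound T (Nt R T) (fun t => by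
      unfold Nt
      exact Nat.mul_le_mul_left _ (Nat.pow_le_pow_right (by norm_num) (by omega)))
    (fun t ht => by
      refine ⟨Fintype.equivOfCardEq ?_⟩
      rw [Fintype.card_fin, Fintype.card_prod, Fintype.card_fin, Fintype.card_bool, Nt_succ R T t ht]
      ring)
    (fun t s => pot4 G k B (H / Real.sqrt (Nt R T t)) s) (2 * B) (V + 2 * H / Real.sqrt R) hpos
    ?_ ?_ ?_ n ((card_vtx R T).trans hn)
  · -- the start
    intro s _
    unfold pot4 pot
    have h1 : 0 ≤ ∑ c ∈ pal s, G (xs c s) (ys c s) + H / Real.sqrt (Nt R T 0) *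
        (∑ c ∈ pal s, xs c s + 1) := by
      refine add_nonneg (Finset.sum_nonneg fun c _ => hG.nonneg _ _ (ys_nonneg _ _) (ys_le_xs _ _)
        (xs_le_one _ _)) ?_
      refine mul_nonneg (by positivity) (add_nonneg (Finset.sum_nonneg fun c _ => xs_nonneg _ _)
        zero_le_one)
    have h2 := (abs_le.mp (abs_pairK_le hB hk s)).1
    linarith
  · -- one step
    intro t ht s hs F hF
    have hNN : Nt R T t = 2 * Nt R T (t + 1) := Nt_succ R T t ht
    have hN3 : 3 ≤ Nt R T (t + 1) := by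
      have : 1 ≤ 2 ^ (T - (t + 1)) := Nat.one_le_two_pow
      unfold Nt
      nlinarith
    have hN3' : (3 : ℝ) ≤ (Nt R T (t + 1) : ℝ) := by exact_mod_cast hN3
    set P : Finset ℕ := pal s ∪ Finset.univ.biUnion (fun o => pal (F o)) with hP
    have hPF : ∀ o, pal (F o) ⊆ P := fun o =>
      (Finset.subset_biUnion_of_mem (fun o => pal (F o)) (Finset.mem_univ o)).trans
        Finset.subset_union_right
    have hPs : ∀ i σ, s i σ ⊆ P := fun i σ => (subset_pal s i σ).trans Finset.subset_union_left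
    have hPF' : ∀ o j σ, F o j σ ⊆ P := fun o j σ => (subset_pal (F o) j σ).trans (hPF o)
    have hfix : ∀ o j, Fix1 (mst s o j) (F o j) := by
      intro o j
      obtain ⟨χ, h1, h2⟩ := hF o
      exact ⟨χ j, fun σ => h1 j σ, fun σ => h2 j σ⟩
    have hcard : Fintype.card (Fin (Nt R T t)) = 2 * Fintype.card (Fin (Nt R T (t + 1))) := by
      rw [Fintype.card_fin, Fintype.card_fin, hNN]
    have h3c : 3 ≤ Fintype.card (Fin (Nt R T (t + 1))) := by rw [Fintype.card_fin]; exact hN3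
    have h1 := hstep (Fin (Nt R T t)) (Fin (Nt R T (t + 1))) hcard h3c s F hfix P
    have h2 := hpop (Fin (Nt R T t)) (Fin (Nt R T (t + 1))) hcard h3c s (fun i => hs i) F hfix P
      hPs hPF'
    rw [Fintype.card_fin] at h1 h2
    set b : ℝ := (Nt R T (t + 1) : ℝ) with hb
    have hb0 : 0 < b := by linarith
    have hsb : 0 < Real.sqrt b := Real.sqrt_pos.mpr hb0
    set W : ℝ := (Fintype.card ((Fin (Nt R T t) ≃ Fin (Nt R T (t + 1)) × Bool) ×
      (Fin (Nt R T (t + 1)) → Bool)) : ℝ) with hW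
    have hW0 : 0 ≤ W := Nat.cast_nonneg _
    set X : ℝ := ∑ c ∈ P, xs c s with hX
    have hX0 : 0 ≤ X := Finset.sum_nonneg fun c _ => xs_nonneg _ _
    -- the auxiliary potential
    have h4 : ∀ o : Om (Nt R T) t, X + 1 ≤ ∑ c ∈ P, xs c (F o) + 1 := by
      intro o
      have : X ≤ ∑ c ∈ P, xs c (F o) := by
        refine Finset.sum_le_sum fun c _ => ?_
        have e1 := xs_le_xs_mst hcard c s o
        have e2 : xs c (mst s o) ≤ xs c (F o) := by
          have := dlt_nonneg (hfix o) c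
          unfold dlt at this
          linarith
        exact e1.trans e2
      linarith
    have h5 : W * (H / Real.sqrt b * (X + 1)) ≤
        ∑ o : Om (Nt R T) t, (H / Real.sqrt b) * (∑ c ∈ P, xs c (F o) + 1) := by
      have h3 : ∑ _o : Om (Nt R T) t, (H / Real.sqrt b) * (X + 1) ≤
          ∑ o : Om (Nt R T) t, (H / Real.sqrt b) * (∑ c ∈ P, xs c (F o) + 1) :=
        Finset.sum_le_sum fun o _ => mul_le_mul_of_nonneg_left (h4 o) (by positivity)
      rw [Finset.sum_const, Finset.card_univ, nsmul_eq_mul] at h3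
      exact h3
    have h6 : ∑ o : Om (Nt R T) t, pot4 G k B (H / Real.sqrt b) (F o) =
        ∑ o : Om (Nt R T) t, ∑ c ∈ P, G (xs c (F o)) (ys c (F o)) +
        ∑ o : Om (Nt R T) t, (H / Real.sqrt b) * (∑ c ∈ P, xs c (F o) + 1) +
        ∑ o : Om (Nt R T) t, pairK k (F o) - W * B := by
      unfold pot4
      rw [Finset.sum_congr rfl fun o _ => by
        rw [pot_eq hG.zero (H / Real.sqrt b) (hPF o)]]
      rw [Finset.sum_sub_distrib, Finset.sum_add_distrib, Finset.sum_add_distrib, Finset.sum_const,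
        Finset.card_univ, nsmul_eq_mul]
    rw [h6]
    show W * (pot4 G k B (H / Real.sqrt (Nt R T t)) s + 1) ≤ _
    unfold pot4
    rw [pot_eq hG.zero _ (Finset.subset_union_left : pal s ⊆ P), ← hX]
    rw [Finset.sum_add_distrib] at h2
    have hNr : (Nt R T t : ℝ) = 2 * b := by rw [hNN]; push_cast; ring
    rw [hNr]
    have hs2 : Real.sqrt (2 * b) = Real.sqrt 2 * Real.sqrt b := Real.sqrt_mul (by norm_num) b
    have h43 : (4 : ℝ) / 3 ≤ Real.sqrt 2 := by
      rw [Real.le_sqrt (by norm_num) (by norm_num)]; norm_num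
    have h7 : H / Real.sqrt (2 * b) ≤ H / Real.sqrt b - (A + A0) / Real.sqrt b := by
      rw [hs2, ← sub_div, div_le_div_iff₀ (by positivity) hsb]
      have e : H - (A + A0) = 3 * (A + A0) := by rw [hH]; ring
      rw [e, hH]
      have : 0 ≤ (A + A0) * Real.sqrt b := by positivity
      nlinarith
    have h8 : H / Real.sqrt (2 * b) * (X + 1) ≤
        H / Real.sqrt b * (X + 1) - (A * (X + 1) / Real.sqrt b + A0 * (X + 1) / Real.sqrt b) := by
      have := mul_le_mul_of_nonneg_right h7 (by positivity : 0 ≤ X + 1)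
      refine this.trans (le_of_eq ?_)
      ring
    have h9 := mul_le_mul_of_nonneg_left h8 hW0
    have h1' : W * (∑ c ∈ P, G (xs c s) (ys c s)) - W * (A * (X + 1) / Real.sqrt b) +
        ∑ o : Om (Nt R T) t, ∑ c ∈ P, pay (xs c s) (ys c s) (dlt c (mst s o) (F o)) ≤
        ∑ o : Om (Nt R T) t, ∑ c ∈ P, G (xs c (F o)) (ys c (F o)) := by
      rw [← mul_sub]; exact h1
    have h2' : W + W * pairK k s - W * (A0 * (X + 1) / Real.sqrt b) ≤
        ∑ o : Om (Nt R T) t, ∑ c ∈ P, pay (xs c s) (ys c s) (dlt c (mst s o) (F o)) +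
        ∑ o : Om (Nt R T) t, pairK k (F o) := by
      have : W + W * pairK k s - W * (A0 * (X + 1) / Real.sqrt b) =
        W * (1 + pairK k s - A0 * (X + 1) / Real.sqrt b) := by ring
      rw [this]; exact h2
    have e9 : W * (H / Real.sqrt b * (X + 1) - (A * (X + 1) / Real.sqrt b +
        A0 * (X + 1) / Real.sqrt b)) = W * (H / Real.sqrt b * (X + 1)) -
        W * (A * (X + 1) / Real.sqrt b) - W * (A0 * (X + 1) / Real.sqrt b) := by ring
    rw [e9] at h9
    have e10 : W * (∑ c ∈ P, G (xs c s) (ys c s) + H / Real.sqrt (2 * b) * (X + 1) +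
        pairK k s - B + 1) = W * (∑ c ∈ P, G (xs c s) (ys c s)) +
        W * (H / Real.sqrt (2 * b) * (X + 1)) + W * pairK k s - W * B + W := by ring
    rw [e10]
    linarith
  · -- the end
    intro s hs P hP
    have hN : Nt R T T = R := by unfold Nt; simp
    have hNr : (Nt R T T : ℝ) = R := by rw [hN]
    unfold pot4
    rw [pot_eq hG.zero _ (pal_subset hP), hNr]
    have hP1 : (1 : ℝ) ≤ P.card := by
      have : 0 < P.card := by
        have hR0 : 0 < Nt R T T := by rw [hN]; omega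
        obtain ⟨c, hc, _⟩ := hs ⟨0, hR0⟩ false
        exact Finset.card_pos.mpr ⟨c, hP _ _ hc⟩
      exact_mod_cast this
    have h1 : ∑ c ∈ P, G (xs c s) (ys c s) ≤ P.card * V := by
      rw [← nsmul_eq_mul]
      exact Finset.sum_le_card_nsmul _ _ _ fun c _ =>
        hG.le _ _ (ys_nonneg _ _) (ys_le_xs _ _) (xs_le_one _ _)
    have h2 : ∑ c ∈ P, xs c s ≤ P.card := by
      have := Finset.sum_le_card_nsmul P (fun c => xs c s) 1 fun c _ => xs_le_one _ _
      rwa [nsmul_eq_mul, mul_one] at this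
    have h3 : H / Real.sqrt R * (∑ c ∈ P, xs c s + 1) ≤ H / Real.sqrt R * (2 * P.card) := by
      refine mul_le_mul_of_nonneg_left ?_ (by positivity)
      linarith
    have h4 : H / Real.sqrt R * (2 * (P.card : ℝ)) = 2 * H / Real.sqrt R * P.card := by ring
    rw [h4] at h3
    have h5 := (abs_le.mp (abs_pairK_le hB hk s)).2
    linarith

/-- MAIN THEOREM for four-sample certificates. -/
theorem cert4_bound {pay : ℝ → ℝ → ℝ → ℝ} {G : ℝ → ℝ → ℝ} {V Lp : ℝ} (hG : Cert4 pay G V)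
    (hp : PayLip pay Lp) {k : Comp → Comp → ℝ} {B : ℝ} (hB : 0 ≤ B) (hk : ∀ p q, |k p q| ≤ B)
    {A0 : ℝ} (hA0 : 0 ≤ A0) (hpop : PopIneq pay k A0) {s : ℝ} (hV : 0 < V) (hs : 0 < s)
    (hsV : s * V < 1) :
    ∃ C : ℝ, ∀ n : ℕ, 1 ≤ n → ENNReal.ofReal (s * Real.logb 2 n - C) ≤ f n := by
  obtain ⟨H, hH, h⟩ := main_game4 hG hp hB hk hA0 hpop
  -- choose R
  obtain ⟨R, hR⟩ : ∃ R : ℕ, 3 ≤ R ∧ s * (V + 2 * H / Real.sqrt R) ≤ 1 := by
    obtain ⟨R, hR⟩ := exists_nat_gt (max 3 ((2 * H * s / (1 - s * V)) ^ 2))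
    have h1 : (3 : ℝ) < R := (le_max_left _ _).trans_lt hR
    have h2 : (2 * H * s / (1 - s * V)) ^ 2 < R := (le_max_right _ _).trans_lt hR
    refine ⟨R, by exact_mod_cast h1.le, ?_⟩
    have h0 : 0 ≤ 2 * H * s / (1 - s * V) := div_nonneg (by positivity) (by linarith)
    have h3 : 2 * H * s / (1 - s * V) ≤ Real.sqrt R := Real.le_sqrt_of_sq_le h2.le
    rw [div_le_iff₀ (by linarith)] at h3
    have hR0 : (0 : ℝ) < Real.sqrt R := Real.sqrt_pos.mpr (by linarith)
    have : s * (V + 2 * H / Real.sqrt R) = s * V + 2 * H * s / Real.sqrt R := by ring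
    rw [this]
    have : 2 * H * s / Real.sqrt R ≤ 1 - s * V := by
      rw [div_le_iff₀ hR0]
      linarith
    linarith
  obtain ⟨hR3, hRs⟩ := hR
  have hR3' : (3 : ℝ) ≤ R := by exact_mod_cast hR3
  have hpos : 0 < V + 2 * H / Real.sqrt R := by positivity
  refine ⟨s * (Real.logb 2 (8 * R) + 2 * B), ?_⟩
  intro n hn
  by_cases hsmall : n < 4 * R
  · rw [ENNReal.ofReal_of_nonpos]
    · exact zero_le
    · rw [← mul_sub]
      refine mul_nonpos_of_nonneg_of_nonpos hs.le (sub_nonpos.mpr ?_)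
      have : Real.logb 2 n ≤ Real.logb 2 (8 * R) := by
        refine Real.logb_le_logb_of_le (by norm_num) (by exact_mod_cast hn) ?_
        have : (n : ℝ) < 4 * R := by exact_mod_cast hsmall
        linarith
      linarith
  · push Not at hsmall
    -- T = floor log2 (n / 4R)
    set T := Nat.log 2 (n / (4 * R)) with hT
    have hdiv : n / (4 * R) ≠ 0 := by
      have : 0 < n / (4 * R) := Nat.div_pos hsmall (by omega)
      omega
    have h1 : 2 ^ T ≤ n / (4 * R) := Nat.pow_log_le_self 2 hdiv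
    have h2 : 4 * R * 2 ^ T ≤ n := by
      calc 4 * R * 2 ^ T ≤ 4 * R * (n / (4 * R)) := Nat.mul_le_mul_left _ h1
        _ ≤ n := Nat.mul_div_le _ _
    have h3 : n / (4 * R) < 2 ^ (T + 1) := Nat.lt_pow_succ_log_self (by norm_num) _
    have h4 : n < 4 * R * 2 ^ (T + 1) := by
      rw [Nat.div_lt_iff_lt_mul (by omega)] at h3
      rwa [mul_comm] at h3
    have h5 : Real.logb 2 n - Real.logb 2 (8 * R) ≤ T := by
      rw [sub_le_iff_le_add]
      have e : (T : ℝ) + Real.logb 2 (8 * R) = Real.logb 2 (2 ^ T * (8 * R)) := by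
        symm
        rw [Real.logb_mul (by positivity) (by positivity), Real.logb_pow,
          Real.logb_self_eq_one (by norm_num), mul_one]
      rw [e]
      refine Real.logb_le_logb_of_le (by norm_num) (by exact_mod_cast hn) ?_
      have : (n : ℝ) < 4 * R * 2 ^ (T + 1) := by exact_mod_cast h4
      rw [pow_succ] at this
      linarith
    rcases le_total ((T : ℝ)) (2 * B) with hTB | hTB
    · rw [ENNReal.ofReal_of_nonpos]
      · exact zero_le
      · rw [← mul_sub]
        exact mul_nonpos_of_nonneg_of_nonpos hs.le (by linarith)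
    · refine le_trans (ENNReal.ofReal_le_ofReal ?_) (h R T hR3 n h2 hpos)
      rw [← mul_sub, le_div_iff₀ hpos]
      have hT0 : (0 : ℝ) ≤ T - 2 * B := by linarith
      calc s * (Real.logb 2 n - (Real.logb 2 (8 * R) + 2 * B)) * (V + 2 * H / Real.sqrt R)
          = (s * (V + 2 * H / Real.sqrt R)) *
            (Real.logb 2 n - (Real.logb 2 (8 * R) + 2 * B)) := by ring
        _ ≤ (s * (V + 2 * H / Real.sqrt R)) * (T - 2 * B) :=
          mul_le_mul_of_nonneg_left (by linarith) (by positivity)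
        _ ≤ 1 * (T - 2 * B) := mul_le_mul_of_nonneg_right hRs hT0
        _ = T - 2 * B := one_mul _

end Pool.Agent.Helper2.OC
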