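import Pool.Agent.Helper2.OD.Iface

/-!
# One colour, one outcome: lower bound for the certificate after the merge
-/

namespace Pool.Agent.Helper2.OC

/-- the payoff is Lipschitz in the introduced mass -/
def PayLip (pay : ℝ → ℝ → ℝ → ℝ) (L : ℝ) : Prop :=
  ∀ x y δ δ' : ℝ, 0 ≤ y → y ≤ x → x ≤ 1 → 0 ≤ δ → δ ≤ 1 → 0 ≤ δ' → δ' ≤ 1 →
    |pay x y δ - pay x y δ'| ≤ L * |δ - δ'|

/-- the error term -/
noncomputable def errE (x δ d d' : ℝ) : ℝ := δ * (|d| + |d'|) + (d ^ 2 + d' ^ 2) + x * (|d| + |d'|)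

theorem errE_nonneg {x δ d d' : ℝ} (hx : 0 ≤ x) (hδ : 0 ≤ δ) : 0 ≤ errE x δ d d' := by
  unfold errE; positivity

/-- Either everything is small, or the linear term is dominated by the error term. -/
theorem lin_le_errE {x δ d d' θ : ℝ} (hx : 0 ≤ x) (hδ : 0 ≤ δ) (hθ : 0 < θ)
    (h : θ / 8 ≤ x ∨ θ / 4 ≤ δ ∨ θ / 4 ≤ |d|) : |d| + |d'| ≤ 8 / θ * errE x δ d d' := by
  have hd := abs_nonneg d
  have hd' := abs_nonneg d'
  have h2 : d ^ 2 = |d| ^ 2 := (sq_abs d).symm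
  have h2' : d' ^ 2 = |d'| ^ 2 := (sq_abs d').symm
  have hE : errE x δ d d' = δ * (|d| + |d'|) + (|d| ^ 2 + |d'| ^ 2) + x * (|d| + |d'|) := by
    unfold errE; rw [h2, h2']
  rw [hE, div_mul_eq_mul_div, le_div_iff₀ hθ]
  set u := |d|
  set v := |d'|
  have huv : 0 ≤ u + v := by positivity
  rcases h with h | h | h
  · nlinarith [mul_nonneg (sub_nonneg.mpr h) huv, mul_nonneg hδ huv, sq_nonneg u, sq_nonneg v]
  · nlinarith [mul_nonneg (sub_nonneg.mpr h) huv, mul_nonneg hx huv, sq_nonneg u, sq_nonneg v]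
  · nlinarith [mul_nonneg (sub_nonneg.mpr h) huv, mul_nonneg hx huv, mul_nonneg hδ huv,
      sq_nonneg (u - v)]

theorem y1_le_x1 {x y : ℝ} (hy : 0 ≤ y) (hyx : y ≤ x) (hx : x ≤ 1) :
    2 * y - y ^ 2 + (x - y) ^ 2 / 2 ≤ 2 * x - x ^ 2 := by
  nlinarith [mul_nonneg (sub_nonneg.mpr hyx) (sub_nonneg.mpr hx),
    mul_nonneg (sub_nonneg.mpr hyx) (sub_nonneg.mpr (hyx.trans hx))]

theorem cert4_point {pay : ℝ → ℝ → ℝ → ℝ} {G : ℝ → ℝ → ℝ} {V Lp : ℝ} (hG : Cert4 pay G V)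
    (hp : PayLip pay Lp) :
    ∃ A : ℝ, 0 ≤ A ∧ ∀ x y : ℝ, 0 ≤ y → y ≤ x → x ≤ 1 → ∃ gx gy : ℝ, |gx| ≤ A ∧ |gy| ≤ A ∧
      ∀ p δ y' : ℝ, 0 ≤ y' → y' ≤ p → 0 ≤ δ → p + δ ≤ 1 →
        G x y + pay x y δ + gx * (p - (2 * x - x ^ 2)) +
          gy * (y' - (2 * y - y ^ 2 + (x - y) ^ 2 / 2)) -
          A * errE x δ (p - (2 * x - x ^ 2)) (y' - (2 * y - y ^ 2 + (x - y) ^ 2 / 2)) ≤
        G (p + δ) y' := by
  obtain ⟨L1, hL1⟩ := hG.lip
  obtain ⟨θ0, hθ0, G0, Gx, Gy, L2, hQ, hLip, hEq⟩ := hG.smooth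
  set θ := min θ0 1 with hθdef
  have hθ : 0 < θ := lt_min hθ0 one_pos
  have hθ1 : θ ≤ 1 := min_le_right _ _
  have hθ0' : θ ≤ θ0 := min_le_left _ _
  have hL1n : 0 ≤ L1 := by
    have := hL1 1 0 0 0 le_rfl zero_le_one le_rfl le_rfl le_rfl zero_le_one
    simp only [sub_zero, abs_one, abs_zero, add_zero, mul_one] at this
    exact (abs_nonneg _).trans this
  have hLpn : 0 ≤ Lp := by
    have := hp 0 0 1 0 le_rfl le_rfl zero_le_one zero_le_one le_rfl le_rfl zero_le_one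
    simp only [sub_zero, abs_one, mul_one] at this
    exact (abs_nonneg _).trans this
  have hL2n : 0 ≤ L2 := by
    have := (hQ 0 0 0 0 le_rfl zero_le_one le_rfl zero_le_one le_rfl zero_le_one le_rfl
      zero_le_one).1
    exact (abs_nonneg _).trans this
  -- the big constant
  set B : ℝ := 2 * L1 + Lp + L2 with hB
  have hB0 : 0 ≤ B := by positivity
  set A : ℝ := 8 / θ * B + B with hA
  have hA0 : 0 ≤ A := by positivity
  have hBA : B ≤ A := by
    rw [hA]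
    have : 0 ≤ 8 / θ * B := by positivity
    linarith
  refine ⟨A, hA0, ?_⟩
  intro x y hy hyx hx1
  have hx0 : 0 ≤ x := hy.trans hyx
  set x1 : ℝ := 2 * x - x ^ 2 with hx1def
  set y1 : ℝ := 2 * y - y ^ 2 + (x - y) ^ 2 / 2 with hy1def
  have hx10 : 0 ≤ x1 := by rw [hx1def]; nlinarith
  have hx11 : x1 ≤ 1 := by rw [hx1def]; nlinarith [sq_nonneg (1 - x)]
  have hy1x1 : y1 ≤ x1 := y1_le_x1 hy hyx hx1
  have hy10 : 0 ≤ y1 := by rw [hy1def]; nlinarith [sq_nonneg (x - y)]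
  have hy11 : y1 ≤ 1 := hy1x1.trans hx11
  obtain ⟨_, hgx, hgy, _⟩ := hQ x1 y1 x1 y1 hx10 hx11 hy10 hy11 hx10 hx11 hy10 hy11
  have hL2A : L2 ≤ A := by
    have : L2 ≤ B := by rw [hB]; linarith
    linarith
  refine ⟨Gx x1 y1, Gy x1 y1, hgx.trans hL2A, hgy.trans hL2A, ?_⟩
  intro p δ y' hy' hy'p hδ hpδ
  have hp0 : 0 ≤ p := hy'.trans hy'p
  have hδ1 : δ ≤ 1 := by linarith
  set d : ℝ := p - x1 with hd
  set d' : ℝ := y' - y1 with hd'
  have hE0 := errE_nonneg (d := d) (d' := d') hx0 hδ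
  by_cases hcase : θ / 8 ≤ x ∨ θ / 4 ≤ δ ∨ θ / 4 ≤ |d|
  · -- the Lipschitz case
    have hlin := lin_le_errE (d' := d') hx0 hδ hθ hcase
    set δ' : ℝ := min δ (1 - x1) with hδ'
    have hδ'0 : 0 ≤ δ' := le_min hδ (by linarith)
    have hδ'1 : δ' ≤ 1 - x1 := min_le_right _ _
    have hδδ' : |δ - δ'| ≤ |d| := by
      rw [hδ']
      rcases le_total δ (1 - x1) with h | h
      · rw [min_eq_left h]; simp
      · rw [min_eq_right h, abs_of_nonneg (by linarith)]
        have : -d ≤ |d| := neg_le_abs d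
        rw [hd] at this ⊢
        linarith
    have e1 := hG.dyn x y δ' hy hyx hx1 hδ'0 (by
      have : (1 - x) ^ 2 = 1 - x1 := by rw [hx1def]; ring
      rw [this]; exact hδ'1)
    rw [← hx1def, ← hy1def] at e1
    have e2 := hL1 (p + δ) y' (x1 + δ') y1 hy' (by linarith) hpδ hy10 (by linarith) (by linarith)
    have e3 := hp x y δ δ' hy hyx hx1 hδ hδ1 hδ'0 (by linarith)
    have e4 : |p + δ - (x1 + δ')| ≤ 2 * |d| := by
      have : p + δ - (x1 + δ') = d + (δ - δ') := by rw [hd]; ring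
      rw [this]
      exact (abs_add_le _ _).trans (by linarith)
    have e2' : -(L1 * (2 * |d| + |d'|)) ≤ G (p + δ) y' - G (x1 + δ') y1 := by
      have := (abs_le.mp e2).1
      have h2 : L1 * (|p + δ - (x1 + δ')| + |y' - y1|) ≤ L1 * (2 * |d| + |d'|) := by
        refine mul_le_mul_of_nonneg_left ?_ hL1n
        rw [hd']
        linarith
      linarith
    have e3' : pay x y δ - pay x y δ' ≤ Lp * |d| := by
      have := (abs_le.mp e3).2
      have h2 : Lp * |δ - δ'| ≤ Lp * |d| := mul_le_mul_of_nonneg_left hδδ' hLpn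
      linarith
    have e5 : Gx x1 y1 * d + Gy x1 y1 * d' ≤ L2 * (|d| + |d'|) := by
      have a1 : Gx x1 y1 * d ≤ L2 * |d| := by
        refine (le_abs_self _).trans ?_
        rw [abs_mul]
        exact mul_le_mul_of_nonneg_right hgx (abs_nonneg _)
      have a2 : Gy x1 y1 * d' ≤ L2 * |d'| := by
        refine (le_abs_self _).trans ?_
        rw [abs_mul]
        exact mul_le_mul_of_nonneg_right hgy (abs_nonneg _)
      linarith
    have e6 : B * (|d| + |d'|) ≤ A * errE x δ d d' := by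
      have h1 := mul_le_mul_of_nonneg_left hlin hB0
      have h2 : B * (8 / θ * errE x δ d d') ≤ A * errE x δ d d' := by
        rw [hA, add_mul]
        have : 0 ≤ B * errE x δ d d' := mul_nonneg hB0 hE0
        have : B * (8 / θ * errE x δ d d') = 8 / θ * B * errE x δ d d' := by ring
        linarith
      linarith
    have e7 : L1 * (2 * |d| + |d'|) + Lp * |d| + L2 * (|d| + |d'|) ≤ B * (|d| + |d'|) := by
      rw [hB]
      nlinarith [abs_nonneg d, abs_nonneg d', mul_nonneg hL1n (abs_nonneg d'),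
        mul_nonneg hLpn (abs_nonneg d')]
    linarith
  · -- the smooth case
    push Not at hcase
    obtain ⟨c1, c2, c3⟩ := hcase
    have hx1s : x1 < θ / 4 := by
      rw [hx1def]
      nlinarith
    have hdle : d ≤ |d| := le_abs_self d
    have hpp : p = x1 + d := by rw [hd]; ring
    have hpθ : p + δ ≤ θ := by rw [hpp]; linarith
    have hxθ : x1 + δ ≤ θ := by linarith
    have hδx : δ ≤ (1 - x) ^ 2 := by nlinarith
    have e1 := hG.dyn x y δ hy hyx hx1 hδ hδx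
    rw [← hx1def, ← hy1def] at e1
    rw [hEq (x1 + δ) y1 hy10 (by linarith) (hxθ.trans hθ0')] at e1
    rw [hEq (p + δ) y' hy' (by linarith) (hpθ.trans hθ0')]
    have e2 := (hQ (p + δ) y' (x1 + δ) y1 (by linarith) (by linarith) hy' (by linarith)
      (by linarith) (by linarith) hy10 hy11).2.2.2
    have e3 := hLip (x1 + δ) x1 y1 (by linarith) (by linarith) hx10 hx11 hy10 hy11
    have e4 : p + δ - (x1 + δ) = d := by rw [hd]; ring
    rw [e4, ← hd'] at e2
    have e2' := (abs_le.mp e2).1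
    have e5 : |x1 + δ - x1| = δ := by rw [add_sub_cancel_left, abs_of_nonneg hδ]
    rw [e5] at e3
    have e6 : -(L2 * δ * |d|) ≤ Gx (x1 + δ) y1 * d - Gx x1 y1 * d := by
      have : |(Gx (x1 + δ) y1 - Gx x1 y1) * d| ≤ L2 * δ * |d| := by
        rw [abs_mul]
        exact mul_le_mul_of_nonneg_right e3.1 (abs_nonneg _)
      have := (abs_le.mp this).1
      linarith
    have e7 : -(L2 * δ * |d'|) ≤ Gy (x1 + δ) y1 * d' - Gy x1 y1 * d' := by
      have : |(Gy (x1 + δ) y1 - Gy x1 y1) * d'| ≤ L2 * δ * |d'| := by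
        rw [abs_mul]
        exact mul_le_mul_of_nonneg_right e3.2 (abs_nonneg _)
      have := (abs_le.mp this).1
      linarith
    have e8 : L2 * δ * |d| + L2 * δ * |d'| + L2 * (d ^ 2 + d' ^ 2) ≤ A * errE x δ d d' := by
      have h1 : L2 * δ * |d| + L2 * δ * |d'| + L2 * (d ^ 2 + d' ^ 2) ≤ L2 * errE x δ d d' := by
        unfold errE
        have : 0 ≤ L2 * (x * (|d| + |d'|)) := by positivity
        linarith
      have h2 : L2 * errE x δ d d' ≤ A * errE x δ d d' := mul_le_mul_of_nonneg_right hL2A hE0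
      linarith
    linarith

end Pool.Agent.Helper2.OC
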