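import Pool.Agent.Helper2.OD.LamVar
import Pool.Agent.Helper2.OD.Main4

/-!
# From the pointwise four-sample inequality to the inequality for finite populations
-/

namespace Pool.Agent.Helper2.OC

open Finset

/-- indicator of a new colour -/
noncomputable def ind (c : ℕ) (p p' : Comp) : ℝ := us c p' - us c p

theorem ind_eq {p p' : Comp} (h : Fix1 p p') (c : ℕ) : ind c p p' = if c ∈ nw p p' then 1 else 0 := by
  unfold ind us nw
  have h0 := h.subset
  by_cases h1 : c ∈ p false ∨ c ∈ p true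
  · have h2 : c ∈ p' false ∨ c ∈ p' true := h1.imp (fun x => h0 _ x) (fun x => h0 _ x)
    have h3 : c ∉ (p' false ∪ p' true) \ (p false ∪ p true) := by
      rw [Finset.mem_sdiff, Finset.mem_union, Finset.mem_union]
      push Not
      intro _
      exact h1
    rw [if_pos h1, if_pos h2, if_neg h3, sub_self]
  · rw [if_neg h1, sub_zero]
    by_cases h2 : c ∈ p' false ∨ c ∈ p' true
    · have h3 : c ∈ (p' false ∪ p' true) \ (p false ∪ p true) := by
        rw [Finset.mem_sdiff, Finset.mem_union, Finset.mem_union]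
        exact ⟨h2, h1⟩
      rw [if_pos h2, if_pos h3]
    · have h3 : c ∉ (p' false ∪ p' true) \ (p false ∪ p true) := by
        rw [Finset.mem_sdiff, Finset.mem_union, Finset.mem_union]
        exact fun h => h2 h.1
      rw [if_neg h2, if_neg h3]

theorem ind_sq {p p' : Comp} (h : Fix1 p p') (c : ℕ) : ind c p p' * ind c p p' = ind c p p' := by
  rw [ind_eq h]; split_ifs <;> norm_num

theorem ind_nonneg {p p' : Comp} (h : Fix1 p p') (c : ℕ) : 0 ≤ ind c p p' := by
  rw [ind_eq h]; split_ifs <;> norm_num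

theorem nw_subset {p p' : Comp} {P : Finset ℕ} (hP : ∀ τ, p' τ ⊆ P) : nw p p' ⊆ P := by
  unfold nw
  intro c hc
  rw [Finset.mem_sdiff, Finset.mem_union] at hc
  rcases hc.1 with h | h
  · exact hP _ h
  · exact hP _ h

theorem sum_nw {p p' : Comp} (h : Fix1 p p') {P : Finset ℕ} (hP : ∀ τ, p' τ ⊆ P) (φ : ℕ → ℝ) :
    ∑ c ∈ nw p p', φ c = ∑ c ∈ P, ind c p p' * φ c := by
  have h1 : ∑ c ∈ P, ind c p p' * φ c = ∑ c ∈ P, if c ∈ nw p p' then φ c else 0 := by
    refine Finset.sum_congr rfl fun c _ => ?_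
    rw [ind_eq h]
    split_ifs <;> simp
  rw [h1, ← Finset.sum_filter]
  refine Finset.sum_congr ?_ fun _ _ => rfl
  ext c
  rw [Finset.mem_filter]
  exact ⟨fun hc => ⟨nw_subset hP hc, hc⟩, fun hc => hc.2⟩

theorem card_inter_nw {p p' q q' : Comp} (h : Fix1 p p') (h' : Fix1 q q') {P : Finset ℕ}
    (hP : ∀ τ, p' τ ⊆ P) :
    ((nw p p' ∩ nw q q').card : ℝ) = ∑ c ∈ P, ind c p p' * ind c q q' := by
  have h1 : ∑ c ∈ P, ind c p p' * ind c q q' =
      ∑ c ∈ P, if c ∈ nw p p' ∩ nw q q' then (1:ℝ) else 0 := by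
    refine Finset.sum_congr rfl fun c _ => ?_
    rw [ind_eq h, ind_eq h']
    by_cases h1 : c ∈ nw p p' <;> by_cases h2 : c ∈ nw q q' <;> simp [h1, h2]
  rw [h1, ← Finset.sum_filter, Finset.sum_const, nsmul_eq_mul, mul_one]
  congr 2
  ext c
  rw [Finset.mem_filter]
  exact ⟨fun hc => ⟨nw_subset hP (Finset.mem_inter.mp hc).1, hc⟩, fun hc => hc.2⟩

section

variable {α β : Type*} [Fintype α] [Fintype β] [DecidableEq α] [DecidableEq β]

theorem sum_ind (s : α → Comp) (F : (α ≃ β × Bool) × (β → Bool) → β → Comp) (hb : 0 < Fintype.card β)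
    (c : ℕ) (ω : (α ≃ β × Bool) × (β → Bool)) :
    ∑ j, ind c (mst s ω j) (F ω j) = Fintype.card β * dlt c (mst s ω) (F ω) := by
  rw [dlt_eq]
  have : (Fintype.card β : ℝ) ≠ 0 := by
    have : (0:ℝ) < Fintype.card β := by exact_mod_cast hb
    exact this.ne'
  unfold ind
  field_simp

/-- the sum of the outcome part over all ordered pairs -/
theorem sum_rest4 (Λ : Fin 3 → Fin 3 → Fin 3 → ℝ) (κ : ℝ) (k : Comp → Comp → ℝ)
    (s : α → Comp) (F : (α ≃ β × Bool) × (β → Bool) → β → Comp)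
    (hF : ∀ o j, Fix1 (mst s o j) (F o j)) (h3 : 3 ≤ Fintype.card β)
    (P : Finset ℕ) (hPF : ∀ o j σ, F o j σ ⊆ P) (ω : (α ≃ β × Bool) × (β → Bool)) :
    ∑ z : Fin 2 ↪ β, rest4 Λ κ k s F z ω =
      ∑ c ∈ P, ((Fintype.card β * dlt c (mst s ω) (F ω)) *
          totStat (fun i i' y => lamC Λ c (s i) (s i') y) ω -
        ∑ j, ind c (mst s ω j) (F ω j) * pairStat (fun i i' y => lamC Λ c (s i) (s i') y) ω j -
        κ * ((Fintype.card β * dlt c (mst s ω) (F ω)) ^ 2 -
          Fintype.card β * dlt c (mst s ω) (F ω))) +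
      Fintype.card (Fin 2 ↪ β) * pairK k (F ω) := by
  have hc : (0 : ℝ) < Fintype.card (Fin 2 ↪ β) := by
    rw [card_emb_two _ rfl (by omega)]
    have : (3:ℝ) ≤ Fintype.card β := by exact_mod_cast h3
    nlinarith
  set φ : ℕ → β → ℝ := fun c j => pairStat (fun i i' y => lamC Λ c (s i) (s i') y) ω j with hφ
  have h1 : ∀ z : Fin 2 ↪ β, rest4 Λ κ k s F z ω =
      ∑ c ∈ P, ((ind c (mst s ω (z 0)) (F ω (z 0)) * φ c (z 1)) / 2 +
        (φ c (z 0) * ind c (mst s ω (z 1)) (F ω (z 1))) / 2 -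
        κ * (ind c (mst s ω (z 0)) (F ω (z 0)) * ind c (mst s ω (z 1)) (F ω (z 1)))) +
      k (F ω (z 0)) (F ω (z 1)) := by
    intro z
    unfold rest4
    rw [sum_nw (hF ω (z 0)) (hPF ω (z 0)), sum_nw (hF ω (z 1)) (hPF ω (z 1)),
      card_inter_nw (hF ω (z 0)) (hF ω (z 1)) (hPF ω (z 0))]
    rw [Finset.sum_sub_distrib, Finset.sum_add_distrib, Finset.sum_div, Finset.sum_div,
      Finset.mul_sum]
    congr 3
    refine Finset.sum_congr rfl fun c _ => ?_
    rw [mul_comm (φ c (z 0))]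
    rfl
  rw [Finset.sum_congr rfl fun z _ => h1 z, Finset.sum_add_distrib, Finset.sum_comm]
  congr 1
  · refine Finset.sum_congr rfl fun c _ => ?_
    rw [Finset.sum_sub_distrib, Finset.sum_add_distrib, ← Finset.sum_div, ← Finset.sum_div,
      ← Finset.mul_sum]
    rw [sum_emb_two_mul (fun j => ind c (mst s ω j) (F ω j)) (φ c),
      sum_emb_two_mul (φ c) (fun j => ind c (mst s ω j) (F ω j)),
      sum_emb_two_mul (fun j => ind c (mst s ω j) (F ω j)) (fun j => ind c (mst s ω j) (F ω j))]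
    simp only [ind_sq (hF ω _)]
    rw [sum_ind s F (by omega)]
    have h5 : ∑ j, φ c j = totStat (fun i i' y => lamC Λ c (s i) (s i') y) ω := rfl
    have h6 : ∑ j, φ c j * ind c (mst s ω j) (F ω j) = ∑ j, ind c (mst s ω j) (F ω j) * φ c j :=
      Finset.sum_congr rfl fun j _ => mul_comm _ _
    rw [h5, h6]
    ring
  · unfold pairK
    rw [mul_div_cancel₀ _ hc.ne']

/-- upper bound for one outcome -/
theorem rest4_le (Λ : Fin 3 → Fin 3 → Fin 3 → ℝ) (κ : ℝ) (k : Comp → Comp → ℝ) {B : ℝ}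
    (hB0 : 0 < B) (hB : ∀ a b m, |Λ a b m| ≤ B)
    (s : α → Comp) (F : (α ≃ β × Bool) × (β → Bool) → β → Comp)
    (hF : ∀ o j, Fix1 (mst s o j) (F o j)) (h3 : 3 ≤ Fintype.card β)
    (P : Finset ℕ) (hPF : ∀ o j σ, F o j σ ⊆ P) (ω : (α ≃ β × Bool) × (β → Bool)) :
    ∑ z : Fin 2 ↪ β, rest4 Λ κ k s F z ω ≤
      Fintype.card (Fin 2 ↪ β) * (∑ c ∈ P, (dlt c (mst s ω) (F ω) * lamP Λ (xs c s) (ys c s) -
        κ * dlt c (mst s ω) (F ω) ^ 2) + pairK k (F ω) +
        (4 * (2 * B + |κ|) + 1) / Real.sqrt (Fintype.card β) +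
        Real.sqrt (Fintype.card β) / 2 * ∑ c ∈ P,
          (totStat (fun i i' y => lamC Λ c (s i) (s i') y) ω / Fintype.card β -
            lamP Λ (xs c s) (ys c s)) ^ 2) := by
  rw [sum_rest4 Λ κ k s F hF h3 P hPF ω, card_emb_two _ rfl (by omega)]
  set b : ℝ := (Fintype.card β : ℝ) with hb
  have hb3 : (3 : ℝ) ≤ b := by rw [hb]; exact_mod_cast h3
  have hb0 : 0 < b := by linarith
  have hb1 : 0 < b - 1 := by linarith
  have hsb : 0 < Real.sqrt b := Real.sqrt_pos.mpr hb0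
  have hsq : Real.sqrt b * Real.sqrt b = b := Real.mul_self_sqrt hb0.le
  have hκ0 : 0 ≤ |κ| := abs_nonneg κ
  have key : ∀ c ∈ P, (b * dlt c (mst s ω) (F ω)) *
          totStat (fun i i' y => lamC Λ c (s i) (s i') y) ω -
        ∑ j, ind c (mst s ω j) (F ω j) * pairStat (fun i i' y => lamC Λ c (s i) (s i') y) ω j -
        κ * ((b * dlt c (mst s ω) (F ω)) ^ 2 - b * dlt c (mst s ω) (F ω)) ≤
      b * (b - 1) * (dlt c (mst s ω) (F ω) * lamP Λ (xs c s) (ys c s) -
        κ * dlt c (mst s ω) (F ω) ^ 2 +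
        dlt c (mst s ω) (F ω) * ((2 * B + |κ|) * (2 / b) + 1 / (2 * Real.sqrt b)) +
        Real.sqrt b / 2 * (totStat (fun i i' y => lamC Λ c (s i) (s i') y) ω / b -
            lamP Λ (xs c s) (ys c s)) ^ 2) := by
    intro c _
    set δ := dlt c (mst s ω) (F ω) with hδ
    have hδ0 : 0 ≤ δ := dlt_nonneg (hF ω) c
    have hδ1 : δ ≤ 1 := dlt_le_one c
    set Tt := totStat (fun i i' y => lamC Λ c (s i) (s i') y) ω with hTt
    set lp := lamP Λ (xs c s) (ys c s) with hlp
    have hLB : ∀ j, |pairStat (fun i i' y => lamC Λ c (s i) (s i') y) ω j| ≤ B := fun j => hB _ _ _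
    have hTB : |Tt| ≤ B * b := by
      rw [hTt]
      unfold totStat
      refine (Finset.abs_sum_le_sum_abs _ _).trans ?_
      refine (Finset.sum_le_sum fun j _ => hLB j).trans (le_of_eq ?_)
      rw [Finset.sum_const, Finset.card_univ, nsmul_eq_mul, mul_comm, ← hb]
    have h1 : -(∑ j, ind c (mst s ω j) (F ω j) *
        pairStat (fun i i' y => lamC Λ c (s i) (s i') y) ω j) ≤ B * (b * δ) := by
      rw [hδ, hb, ← sum_ind s F (by omega) c ω, Finset.mul_sum, ← Finset.sum_neg_distrib]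
      refine Finset.sum_le_sum fun j _ => ?_
      have e1 := ind_nonneg (hF ω j) c
      have e2 := (abs_le.mp (hLB j)).1
      nlinarith
    have hT1 : Tt ≤ B * b := (abs_le.mp hTB).2
    -- deviation
    set D := Tt / b - lp with hD
    have hTt' : Tt = b * (lp + D) := by rw [hD]; field_simp; ring
    have h2 : δ * D ≤ δ * (1 / (2 * Real.sqrt b)) + Real.sqrt b / 2 * D ^ 2 := by
      have e1 : δ * D ≤ δ ^ 2 * (1 / (2 * Real.sqrt b)) + Real.sqrt b / 2 * D ^ 2 := by
        have e2 : δ ^ 2 * (1 / (2 * Real.sqrt b)) + Real.sqrt b / 2 * D ^ 2 - δ * D =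
            (1 / (2 * Real.sqrt b)) * (δ - Real.sqrt b * D) ^ 2 := by
          field_simp
          ring
        have e3 : 0 ≤ (1 / (2 * Real.sqrt b)) * (δ - Real.sqrt b * D) ^ 2 := by positivity
        linarith
      have e4 : δ ^ 2 * (1 / (2 * Real.sqrt b)) ≤ δ * (1 / (2 * Real.sqrt b)) :=
        mul_le_mul_of_nonneg_right (by nlinarith) (by positivity)
      linarith
    have h3 : -(κ * ((b * δ) ^ 2 - b * δ)) ≤ b * (b - 1) * (-κ * δ ^ 2) + |κ| * (b * δ) := by
      have e1 : -(κ * ((b * δ) ^ 2 - b * δ)) = b * (b - 1) * (-κ * δ ^ 2) +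
          κ * (b * (δ * (1 - δ))) := by ring
      rw [e1]
      have e2 : κ * (b * (δ * (1 - δ))) ≤ |κ| * (b * (δ * (1 - δ))) :=
        mul_le_mul_of_nonneg_right (le_abs_self κ) (by
          apply mul_nonneg hb0.le; exact mul_nonneg hδ0 (by linarith))
      have e3 : |κ| * (b * (δ * (1 - δ))) ≤ |κ| * (b * δ) := by
        refine mul_le_mul_of_nonneg_left ?_ hκ0
        refine mul_le_mul_of_nonneg_left ?_ hb0.le
        nlinarith
      linarith
    -- the main comparison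
    have h4 : (b * δ) * Tt ≤ b * (b - 1) * (δ * lp + δ * D) + (b * δ) * B := by
      have e1 : (b * δ) * Tt = b * (b - 1) * (δ * lp + δ * D) + δ * Tt := by
        rw [hTt']; ring
      rw [e1]
      have : δ * Tt ≤ δ * (B * b) := mul_le_mul_of_nonneg_left hT1 hδ0
      linarith
    have h5 : (b * δ) * B + B * (b * δ) + |κ| * (b * δ) ≤
        b * (b - 1) * (δ * ((2 * B + |κ|) * (2 / b))) := by
      have e1 : b * (b - 1) * (δ * ((2 * B + |κ|) * (2 / b))) =
          (2 * (b - 1)) * (δ * (2 * B + |κ|)) := by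
        field_simp
      rw [e1]
      have e2 : b * (δ * (2 * B + |κ|)) ≤ (2 * (b - 1)) * (δ * (2 * B + |κ|)) :=
        mul_le_mul_of_nonneg_right (by linarith) (by positivity)
      linarith
    have h6 : b * (b - 1) * (δ * D) ≤ b * (b - 1) * (δ * (1 / (2 * Real.sqrt b)) +
        Real.sqrt b / 2 * D ^ 2) := mul_le_mul_of_nonneg_left h2 (by positivity)
    have e7 : b * (b - 1) * (δ * lp - κ * δ ^ 2 +
        δ * ((2 * B + |κ|) * (2 / b) + 1 / (2 * Real.sqrt b)) + Real.sqrt b / 2 * D ^ 2) =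
        b * (b - 1) * (δ * lp) + b * (b - 1) * (-κ * δ ^ 2) +
        b * (b - 1) * (δ * ((2 * B + |κ|) * (2 / b))) +
        b * (b - 1) * (δ * (1 / (2 * Real.sqrt b)) + Real.sqrt b / 2 * D ^ 2) := by ring
    rw [e7]
    have e8 : b * (b - 1) * (δ * lp + δ * D) = b * (b - 1) * (δ * lp) +
      b * (b - 1) * (δ * D) := by ring
    rw [e8] at h4
    linarith
  have hsum := Finset.sum_le_sum key
  rw [← Finset.mul_sum] at hsum
  simp only [Finset.sum_add_distrib] at hsum ⊢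
  rw [← Finset.sum_mul, ← Finset.mul_sum (a := Real.sqrt b / 2)] at hsum
  have hδs := sum_dlt_le (hF ω) P
  have h7 : (∑ c ∈ P, dlt c (mst s ω) (F ω)) * ((2 * B + |κ|) * (2 / b) + 1 / (2 * Real.sqrt b)) ≤
      (4 * (2 * B + |κ|) + 1) / Real.sqrt b := by
    have e1 : 0 ≤ (2 * B + |κ|) * (2 / b) + 1 / (2 * Real.sqrt b) := by positivity
    refine (mul_le_mul_of_nonneg_right hδs e1).trans ?_
    have e2 : 2 * ((2 * B + |κ|) * (2 / b) + 1 / (2 * Real.sqrt b)) =
        (4 * (2 * B + |κ|)) / b + 1 / Real.sqrt b := by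
      field_simp
      ring
    rw [e2, add_div]
    have e3 : (4 * (2 * B + |κ|)) / b ≤ (4 * (2 * B + |κ|)) / Real.sqrt b := by
      refine div_le_div_of_nonneg_left (by positivity) hsb ?_
      rw [Real.sqrt_le_left hb0.le]
      nlinarith
    linarith
  have hbb : 0 < b * (b - 1) := by positivity
  refine (add_le_add_left hsum _).trans ?_
  rw [← mul_add]
  refine mul_le_mul_of_nonneg_left ?_ hbb.le
  linarith

end

end Pool.Agent.Helper2.OC
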