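import Pool.Agent.Helper2.OD.Iface

/-!
# Regular functions on the unit square: closure properties, and the regularity fields of `Cert4`
-/

namespace Pool.Agent.Helper2.OC

/-- second order Taylor bound, and gradient Lipschitz in `x` -/
def Reg (G : ℝ → ℝ → ℝ) : Prop := ∃ Gx Gy : ℝ → ℝ → ℝ, ∃ L : ℝ, 0 ≤ L ∧ QuadB G Gx Gy L ∧
  ∀ x x' y : ℝ, 0 ≤ x → x ≤ 1 → 0 ≤ x' → x' ≤ 1 → 0 ≤ y → y ≤ 1 →
      |Gx x y - Gx x' y| ≤ L * |x - x'| ∧ |Gy x y - Gy x' y| ≤ L * |x - x'|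

theorem Reg.const (r : ℝ) : Reg (fun _ _ => r) := by
  refine ⟨fun _ _ => 0, fun _ _ => 0, |r|, abs_nonneg r, ?_, ?_⟩
  · intro u v u0 v0 _ _ _ _ _ _ _ _
    refine ⟨le_rfl, by simp, by simp, ?_⟩
    simp only [sub_self, zero_mul, sub_zero, abs_zero]
    positivity
  · intro x x' y _ _ _ _ _ _
    simp only [sub_self, abs_zero]
    exact ⟨by positivity, by positivity⟩

theorem Reg.fst : Reg (fun x _ => x) := by
  refine ⟨fun _ _ => 1, fun _ _ => 0, 1, zero_le_one, ?_, ?_⟩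
  · intro u v u0 v0 _ _ _ _ h1 h2 _ _
    refine ⟨by rw [abs_of_nonneg h1]; exact h2, by simp, by simp, ?_⟩
    have : u - u0 - 1 * (u - u0) - 0 * (v - v0) = 0 := by ring
    rw [this, abs_zero]
    positivity
  · intro x x' y _ _ _ _ _ _
    simp only [sub_self, abs_zero]
    exact ⟨by positivity, by positivity⟩

theorem Reg.snd : Reg (fun _ y => y) := by
  refine ⟨fun _ _ => 0, fun _ _ => 1, 1, zero_le_one, ?_, ?_⟩
  · intro u v u0 v0 _ _ _ _ _ _ h1 h2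
    refine ⟨by rw [abs_of_nonneg h1]; exact h2, by simp, by simp, ?_⟩
    have : v - v0 - 0 * (u - u0) - 1 * (v - v0) = 0 := by ring
    rw [this, abs_zero]
    positivity
  · intro x x' y _ _ _ _ _ _
    simp only [sub_self, abs_zero]
    exact ⟨by positivity, by positivity⟩

theorem Reg.add {G H : ℝ → ℝ → ℝ} (hG : Reg G) (hH : Reg H) :
    Reg (fun x y => G x y + H x y) := by
  obtain ⟨Gx, Gy, L, hL, h, h'⟩ := hG
  obtain ⟨Hx, Hy, M, hM, k, k'⟩ := hH
  refine ⟨fun x y => Gx x y + Hx x y, fun x y => Gy x y + Hy x y, L + M, by positivity, ?_, ?_⟩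
  · intro u v u0 v0 a1 a2 a3 a4 a5 a6 a7 a8
    obtain ⟨h1, h2, h3, h4⟩ := h u v u0 v0 a1 a2 a3 a4 a5 a6 a7 a8
    obtain ⟨k1, k2, k3, k4⟩ := k u v u0 v0 a1 a2 a3 a4 a5 a6 a7 a8
    refine ⟨(abs_add_le _ _).trans (add_le_add h1 k1), (abs_add_le _ _).trans (add_le_add h2 k2),
      (abs_add_le _ _).trans (add_le_add h3 k3), ?_⟩
    have : G u v + H u v - (G u0 v0 + H u0 v0) - (Gx u0 v0 + Hx u0 v0) * (u - u0) -
        (Gy u0 v0 + Hy u0 v0) * (v - v0) =
        (G u v - G u0 v0 - Gx u0 v0 * (u - u0) - Gy u0 v0 * (v - v0)) +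
        (H u v - H u0 v0 - Hx u0 v0 * (u - u0) - Hy u0 v0 * (v - v0)) := by ring
    rw [this, add_mul]
    exact (abs_add_le _ _).trans (add_le_add h4 k4)
  · intro x x' y a1 a2 a3 a4 a5 a6
    obtain ⟨h1, h2⟩ := h' x x' y a1 a2 a3 a4 a5 a6
    obtain ⟨k1, k2⟩ := k' x x' y a1 a2 a3 a4 a5 a6
    rw [add_mul]
    constructor
    · have : Gx x y + Hx x y - (Gx x' y + Hx x' y) = (Gx x y - Gx x' y) + (Hx x y - Hx x' y) := by
        ring
      rw [this]
      exact (abs_add_le _ _).trans (add_le_add h1 k1)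
    · have : Gy x y + Hy x y - (Gy x' y + Hy x' y) = (Gy x y - Gy x' y) + (Hy x y - Hy x' y) := by
        ring
      rw [this]
      exact (abs_add_le _ _).trans (add_le_add h2 k2)

theorem QuadB.lipx {G Gx Gy : ℝ → ℝ → ℝ} {L : ℝ} (h : QuadB G Gx Gy L) (hL : 0 ≤ L) {x x' y : ℝ}
    (a1 : 0 ≤ x) (a2 : x ≤ 1) (a3 : 0 ≤ x') (a4 : x' ≤ 1) (a5 : 0 ≤ y) (a6 : y ≤ 1) :
    |G x y - G x' y| ≤ 2 * L * |x - x'| := by
  obtain ⟨_, h2, _, h4⟩ := h x y x' y a1 a2 a5 a6 a3 a4 a5 a6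
  have h5 : |x - x'| ≤ 1 := by rw [abs_le]; constructor <;> linarith
  have h6 : (x - x') ^ 2 ≤ |x - x'| := by
    rw [← sq_abs]; nlinarith [abs_nonneg (x - x')]
  have h7 : |Gx x' y * (x - x')| ≤ L * |x - x'| := by
    rw [abs_mul]; exact mul_le_mul_of_nonneg_right h2 (abs_nonneg _)
  have e : G x y - G x' y = (G x y - G x' y - Gx x' y * (x - x') - Gy x' y * (y - y)) +
    Gx x' y * (x - x') := by ring
  rw [e]
  refine (abs_add_le _ _).trans ?_
  have h8 : L * ((x - x') ^ 2 + (y - y) ^ 2) ≤ L * |x - x'| := by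
    refine mul_le_mul_of_nonneg_left ?_ hL
    rw [sub_self]
    linarith
  linarith

theorem Reg.mul {G H : ℝ → ℝ → ℝ} (hG : Reg G) (hH : Reg H) :
    Reg (fun x y => G x y * H x y) := by
  obtain ⟨Gx, Gy, L, hL, h, h'⟩ := hG
  obtain ⟨Hx, Hy, M, hM, k, k'⟩ := hH
  have hLM : 0 ≤ L * M := mul_nonneg hL hM
  have bnd : ∀ {a b A B : ℝ}, |a| ≤ A → |b| ≤ B → |a * b| ≤ A * B := by
    intro a b A B ha hb
    rw [abs_mul]
    exact mul_le_mul ha hb (abs_nonneg _) ((abs_nonneg _).trans ha)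
  refine ⟨fun x y => Gx x y * H x y + G x y * Hx x y,
    fun x y => Gy x y * H x y + G x y * Hy x y, 10 * (L * M), by positivity, ?_, ?_⟩
  · intro u v u0 v0 a1 a2 a3 a4 a5 a6 a7 a8
    obtain ⟨h1, h2, h3, h4⟩ := h u v u0 v0 a1 a2 a3 a4 a5 a6 a7 a8
    obtain ⟨k1, k2, k3, k4⟩ := k u v u0 v0 a1 a2 a3 a4 a5 a6 a7 a8
    refine ⟨(bnd h1 k1).trans (by linarith), ?_, ?_, ?_⟩
    · refine (abs_add_le _ _).trans ?_
      have := bnd h2 k1
      have := bnd h1 k2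
      linarith
    · refine (abs_add_le _ _).trans ?_
      have := bnd h3 k1
      have := bnd h1 k3
      linarith
    set ρ : ℝ := (u - u0) ^ 2 + (v - v0) ^ 2 with hρ
    have hρ0 : 0 ≤ ρ := by positivity
    have hdu : |u - u0| ≤ 1 := by rw [abs_le]; constructor <;> linarith
    have hdv : |v - v0| ≤ 1 := by rw [abs_le]; constructor <;> linarith
    have hρ2 : ρ ≤ 2 := by
      have e1 : (u - u0) ^ 2 ≤ 1 := by rw [← sq_abs]; nlinarith [abs_nonneg (u - u0)]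
      have e2 : (v - v0) ^ 2 ≤ 1 := by rw [← sq_abs]; nlinarith [abs_nonneg (v - v0)]
      linarith
    set g1 : ℝ := Gx u0 v0 * (u - u0) + Gy u0 v0 * (v - v0) with hg1
    set k1' : ℝ := Hx u0 v0 * (u - u0) + Hy u0 v0 * (v - v0) with hk1'
    set g2 : ℝ := G u v - G u0 v0 - Gx u0 v0 * (u - u0) - Gy u0 v0 * (v - v0) with hg2
    set k2' : ℝ := H u v - H u0 v0 - Hx u0 v0 * (u - u0) - Hy u0 v0 * (v - v0) with hk2'
    have bg1 : |g1| ≤ L * (|u - u0| + |v - v0|) := by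
      rw [hg1, mul_add]
      refine (abs_add_le _ _).trans (add_le_add ?_ ?_)
      · exact bnd h2 le_rfl
      · exact bnd h3 le_rfl
    have bk1 : |k1'| ≤ M * (|u - u0| + |v - v0|) := by
      rw [hk1', mul_add]
      refine (abs_add_le _ _).trans (add_le_add ?_ ?_)
      · exact bnd k2 le_rfl
      · exact bnd k3 le_rfl
    have hs2 : (|u - u0| + |v - v0|) ^ 2 ≤ 2 * ρ := by
      rw [hρ, ← sq_abs (u - u0), ← sq_abs (v - v0)]
      nlinarith [sq_nonneg (|u - u0| - |v - v0|)]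
    have hs1 : |u - u0| + |v - v0| ≤ 2 := by linarith
    have hs0 : 0 ≤ |u - u0| + |v - v0| := by positivity
    have bg1' : |g1| ≤ 2 * L := bg1.trans (by nlinarith)
    have bk1'' : |k1'| ≤ 2 * M := bk1.trans (by nlinarith)
    have bgk : |g1 * k1'| ≤ 2 * (L * M) * ρ := by
      refine (bnd bg1 bk1).trans ?_
      have : L * (|u - u0| + |v - v0|) * (M * (|u - u0| + |v - v0|)) =
          L * M * (|u - u0| + |v - v0|) ^ 2 := by ring
      rw [this]
      nlinarith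
    have b1 : |G u0 v0 * k2'| ≤ L * M * ρ := by
      refine (bnd h1 k4).trans (le_of_eq ?_); ring
    have b2 : |H u0 v0 * g2| ≤ L * M * ρ := by
      refine (bnd k1 h4).trans (le_of_eq ?_); ring
    have b3 : |g1 * k2'| ≤ 2 * (L * M) * ρ := by
      refine (bnd bg1' k4).trans (le_of_eq ?_); ring
    have b4 : |g2 * k1'| ≤ 2 * (L * M) * ρ := by
      refine (bnd h4 bk1'').trans (le_of_eq ?_); ring
    have b5 : |g2 * k2'| ≤ 2 * (L * M) * ρ := by
      refine (bnd h4 k4).trans ?_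
      have : L * ρ * (M * ρ) = (L * M) * ρ * ρ := by ring
      rw [this]
      nlinarith [mul_nonneg hLM hρ0]
    have hG' : G u v = G u0 v0 + g1 + g2 := by rw [hg1, hg2]; ring
    have hH' : H u v = H u0 v0 + k1' + k2' := by rw [hk1', hk2']; ring
    have hfin : G u v * H u v - G u0 v0 * H u0 v0 -
        (Gx u0 v0 * H u0 v0 + G u0 v0 * Hx u0 v0) * (u - u0) -
        (Gy u0 v0 * H u0 v0 + G u0 v0 * Hy u0 v0) * (v - v0) =
        G u0 v0 * k2' + H u0 v0 * g2 + g1 * k1' + g1 * k2' + g2 * k1' + g2 * k2' := by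
      rw [hG', hH', hg1, hk1']
      ring
    show |G u v * H u v - G u0 v0 * H u0 v0 -
        (Gx u0 v0 * H u0 v0 + G u0 v0 * Hx u0 v0) * (u - u0) -
        (Gy u0 v0 * H u0 v0 + G u0 v0 * Hy u0 v0) * (v - v0)| ≤ _
    rw [hfin]
    have t1 := abs_add_le (G u0 v0 * k2' + H u0 v0 * g2 + g1 * k1' + g1 * k2' + g2 * k1')
      (g2 * k2')
    have t2 := abs_add_le (G u0 v0 * k2' + H u0 v0 * g2 + g1 * k1' + g1 * k2') (g2 * k1')
    have t3 := abs_add_le (G u0 v0 * k2' + H u0 v0 * g2 + g1 * k1') (g1 * k2')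
    have t4 := abs_add_le (G u0 v0 * k2' + H u0 v0 * g2) (g1 * k1')
    have t5 := abs_add_le (G u0 v0 * k2') (H u0 v0 * g2)
    linarith
  · intro x x' y a1 a2 a3 a4 a5 a6
    obtain ⟨h1, h2⟩ := h' x x' y a1 a2 a3 a4 a5 a6
    obtain ⟨k1, k2⟩ := k' x x' y a1 a2 a3 a4 a5 a6
    obtain ⟨g1, g2, g3, _⟩ := h x' y x y a3 a4 a5 a6 a1 a2 a5 a6
    obtain ⟨g1', g2', g3', _⟩ := h x y x' y a1 a2 a5 a6 a3 a4 a5 a6
    obtain ⟨l1, l2, l3, _⟩ := k x' y x y a3 a4 a5 a6 a1 a2 a5 a6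
    obtain ⟨l1', l2', l3', _⟩ := k x y x' y a1 a2 a5 a6 a3 a4 a5 a6
    have p := h.lipx hL a1 a2 a3 a4 a5 a6
    have q := k.lipx hM a1 a2 a3 a4 a5 a6
    have key : ∀ A A' B B' : ℝ, |A - A'| ≤ L * |x - x'| → |B - B'| ≤ M * |x - x'| → |A'| ≤ L →
        |B| ≤ M → |A * H x y + G x y * B - (A' * H x' y + G x' y * B')| ≤
          10 * (L * M) * |x - x'| := by
      intro A A' B B' hA hB hA' hB'
      have e : A * H x y + G x y * B - (A' * H x' y + G x' y * B') =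
        ((A - A') * H x y + A' * (H x y - H x' y)) + ((G x y - G x' y) * B + G x' y * (B - B')) := by
        ring
      rw [e]
      have b1 := bnd hA l1
      have b2 := bnd hA' q
      have b3 := bnd p hB'
      have b4 := bnd g1' hB
      have t1 := abs_add_le ((A - A') * H x y + A' * (H x y - H x' y))
        ((G x y - G x' y) * B + G x' y * (B - B'))
      have t2 := abs_add_le ((A - A') * H x y) (A' * (H x y - H x' y))
      have t3 := abs_add_le ((G x y - G x' y) * B) (G x' y * (B - B'))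
      have e1 : L * |x - x'| * M = L * M * |x - x'| := by ring
      have e2 : L * (2 * M * |x - x'|) = 2 * (L * M * |x - x'|) := by ring
      have e3 : 2 * L * |x - x'| * M = 2 * (L * M * |x - x'|) := by ring
      have e4 : L * (M * |x - x'|) = L * M * |x - x'| := by ring
      have e5 : 10 * (L * M) * |x - x'| = 10 * (L * M * |x - x'|) := by ring
      have e6 : 0 ≤ L * M * |x - x'| := by positivity
      rw [e1] at b1; rw [e2] at b2; rw [e3] at b3; rw [e4] at b4; rw [e5]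
      linarith
    exact ⟨key _ _ _ _ h1 k1 g2' l2, key _ _ _ _ h2 k2 g3' l3⟩

theorem Reg.congr {G H : ℝ → ℝ → ℝ} (h : ∀ x y, G x y = H x y) (hG : Reg G) : Reg H := by
  have : G = H := by funext x y; exact h x y
  rw [← this]; exact hG

theorem Reg.smul {G : ℝ → ℝ → ℝ} (r : ℝ) (hG : Reg G) : Reg (fun x y => r * G x y) :=
  (Reg.const r).mul hG

theorem Reg.neg {G : ℝ → ℝ → ℝ} (hG : Reg G) : Reg (fun x y => - G x y) :=
  (hG.smul (-1)).congr (fun x y => by ring)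

theorem Reg.sub {G H : ℝ → ℝ → ℝ} (hG : Reg G) (hH : Reg H) : Reg (fun x y => G x y - H x y) :=
  (hG.add hH.neg).congr (fun x y => by ring)

theorem Reg.pow {G : ℝ → ℝ → ℝ} (hG : Reg G) : ∀ n : ℕ, Reg (fun x y => G x y ^ n)
  | 0 => (Reg.const 1).congr (fun x y => by ring)
  | n + 1 => ((Reg.pow hG n).mul hG).congr (fun x y => by ring)

theorem Reg.sum {ι : Type*} (s : Finset ι) (G : ι → ℝ → ℝ → ℝ) (h : ∀ i ∈ s, Reg (G i)) :
    Reg (fun x y => ∑ i ∈ s, G i x y) := by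
  classical
  induction s using Finset.induction_on with
  | empty => exact (Reg.const 0).congr (fun x y => by simp)
  | insert a s ha ih =>
    refine ((h a (Finset.mem_insert_self a s)).add
      (ih (fun i hi => h i (Finset.mem_insert_of_mem hi)))).congr (fun x y => ?_)
    rw [Finset.sum_insert ha]

theorem Reg.listSum {α : Type*} (l : List α) (G : α → ℝ → ℝ → ℝ) (h : ∀ i ∈ l, Reg (G i)) :
    Reg (fun x y => (l.map (fun i => G i x y)).sum) := by
  induction l with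
  | nil => exact (Reg.const 0).congr (fun x y => by simp)
  | cons a l ih =>
    exact ((h a List.mem_cons_self).add (ih (fun i hi => h i (List.mem_cons_of_mem a hi)))).congr
      (fun x y => by simp)

theorem trunc_sq (c u u0 : ℝ) :
    0 ≤ (max (u - c) 0) ^ 2 - (max (u0 - c) 0) ^ 2 - 2 * max (u0 - c) 0 * (u - u0) ∧
    (max (u - c) 0) ^ 2 - (max (u0 - c) 0) ^ 2 - 2 * max (u0 - c) 0 * (u - u0) ≤ (u - u0) ^ 2 := by
  rcases le_total (u - c) 0 with h | h <;> rcases le_total (u0 - c) 0 with h' | h' <;>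
    simp only [max_eq_right h, max_eq_right h', max_eq_left h, max_eq_left h']
  · constructor
    · nlinarith
    · nlinarith [sq_nonneg (u - u0)]
  · constructor
    · nlinarith
    · nlinarith [sq_nonneg (u - c)]
  · constructor
    · nlinarith
    · nlinarith
  · constructor
    · nlinarith [sq_nonneg (u - u0)]
    · nlinarith

theorem trunc_lip (c u u0 : ℝ) : |max (u - c) 0 - max (u0 - c) 0| ≤ |u - u0| := by
  have := abs_max_sub_max_le_abs (u - c) (u0 - c) 0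
  rwa [show u - c - (u0 - c) = u - u0 by ring] at this

theorem trunc_bd (c u : ℝ) (h0 : 0 ≤ u) (h1 : u ≤ 1) :
    0 ≤ max (u - c) 0 ∧ max (u - c) 0 ≤ 1 + |c| := by
  refine ⟨le_max_right _ _, max_le ?_ (by positivity)⟩
  have := neg_abs_le c
  linarith

/-- truncated square in `x` -/
theorem Reg.tx (c : ℝ) : Reg (fun x _ => (max (x - c) 0) ^ 2) := by
  refine ⟨fun x _ => 2 * max (x - c) 0, fun _ _ => 0, 2 * (1 + |c|) ^ 2, by positivity, ?_, ?_⟩
  · intro u v u0 v0 _ _ _ _ h1 h2 _ _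
    obtain ⟨b1, b2⟩ := trunc_bd c u0 h1 h2
    have hc := abs_nonneg c
    refine ⟨?_, ?_, by rw [abs_zero]; positivity, ?_⟩
    · rw [abs_of_nonneg (by positivity)]
      nlinarith
    · rw [abs_of_nonneg (by positivity)]
      nlinarith
    · obtain ⟨t1, t2⟩ := trunc_sq c u u0
      have e : (max (u - c) 0) ^ 2 - (max (u0 - c) 0) ^ 2 - 2 * max (u0 - c) 0 * (u - u0) -
        0 * (v - v0) = (max (u - c) 0) ^ 2 - (max (u0 - c) 0) ^ 2 -
          2 * max (u0 - c) 0 * (u - u0) := by ring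
      rw [e, abs_of_nonneg t1]
      refine t2.trans ?_
      have : 1 ≤ 2 * (1 + |c|) ^ 2 := by nlinarith
      nlinarith [sq_nonneg (u - u0), sq_nonneg (v - v0)]
  · intro x x' y _ _ _ _ _ _
    have hc := abs_nonneg c
    constructor
    · rw [← mul_sub, abs_mul, abs_of_pos (by norm_num : (0:ℝ) < 2)]
      have := trunc_lip c x x'
      have h3 : 1 ≤ (1 + |c|) ^ 2 := by nlinarith
      nlinarith [abs_nonneg (x - x')]
    · rw [sub_self, abs_zero]; positivity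

/-- truncated square in `y` -/
theorem Reg.ty (c : ℝ) : Reg (fun _ y => (max (y - c) 0) ^ 2) := by
  refine ⟨fun _ _ => 0, fun _ y => 2 * max (y - c) 0, 2 * (1 + |c|) ^ 2, by positivity, ?_, ?_⟩
  · intro u v u0 v0 _ _ _ _ _ _ h1 h2
    obtain ⟨b1, b2⟩ := trunc_bd c v0 h1 h2
    have hc := abs_nonneg c
    refine ⟨?_, by rw [abs_zero]; positivity, ?_, ?_⟩
    · rw [abs_of_nonneg (by positivity)]
      nlinarith
    · rw [abs_of_nonneg (by positivity)]
      nlinarith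
    · obtain ⟨t1, t2⟩ := trunc_sq c v v0
      have e : (max (v - c) 0) ^ 2 - (max (v0 - c) 0) ^ 2 - 0 * (u - u0) -
        2 * max (v0 - c) 0 * (v - v0) = (max (v - c) 0) ^ 2 - (max (v0 - c) 0) ^ 2 -
          2 * max (v0 - c) 0 * (v - v0) := by ring
      rw [e, abs_of_nonneg t1]
      refine t2.trans ?_
      have : 1 ≤ 2 * (1 + |c|) ^ 2 := by nlinarith
      nlinarith [sq_nonneg (u - u0), sq_nonneg (v - v0)]
  · intro x x' y _ _ _ _ _ _
    have hc := abs_nonneg c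
    constructor
    · rw [sub_self, abs_zero]; positivity
    · rw [sub_self, abs_zero]; positivity

theorem trunc_cube_tay (q q0 d : ℝ) (hq : 0 ≤ q) (hq0 : 0 ≤ q0)
    (h1 : 0 ≤ q ^ 2 - q0 ^ 2 - 2 * q0 * d) (h2 : q ^ 2 - q0 ^ 2 - 2 * q0 * d ≤ d ^ 2)
    (h3 : |q - q0| ≤ |d|) {M : ℝ} (hM : q ≤ M) (hM0 : q0 ≤ M) :
    |q ^ 3 - q0 ^ 3 - 3 * q0 ^ 2 * d| ≤ 3 * M * d ^ 2 := by
  have e : q ^ 3 - q0 ^ 3 - 3 * q0 ^ 2 * d =
    3 / 2 * q0 * (q ^ 2 - q0 ^ 2 - 2 * q0 * d) + (q - q0) ^ 2 * (q + q0 / 2) := by ring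
  have h4 : (q - q0) ^ 2 ≤ d ^ 2 := by rw [← sq_abs, ← sq_abs d]; gcongr
  have h5 : 0 ≤ (q - q0) ^ 2 * (q + q0 / 2) := by positivity
  have h6 : 0 ≤ 3 / 2 * q0 * (q ^ 2 - q0 ^ 2 - 2 * q0 * d) := by positivity
  rw [e, abs_of_nonneg (by linarith)]
  have h7 : 3 / 2 * q0 * (q ^ 2 - q0 ^ 2 - 2 * q0 * d) ≤ 3 / 2 * M * d ^ 2 := by
    have : 3 / 2 * q0 * (q ^ 2 - q0 ^ 2 - 2 * q0 * d) ≤ 3 / 2 * q0 * d ^ 2 :=
      mul_le_mul_of_nonneg_left h2 (by positivity)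
    nlinarith [sq_nonneg d]
  have h8 : (q - q0) ^ 2 * (q + q0 / 2) ≤ d ^ 2 * (3 / 2 * M) := by
    apply mul_le_mul h4 (by linarith) (by positivity) (by positivity)
  linarith

/-- truncated cube in `y` -/
theorem Reg.ty3 (c : ℝ) : Reg (fun _ y => (max (y - c) 0) ^ 3) := by
  refine ⟨fun _ _ => 0, fun _ y => 3 * (max (y - c) 0) ^ 2, 3 * (1 + |c|) ^ 3, by positivity,
    ?_, ?_⟩
  · intro u v u0 v0 _ _ hv0 hv1 _ _ h1 h2
    obtain ⟨b1, b2⟩ := trunc_bd c v0 h1 h2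
    obtain ⟨c1, c2⟩ := trunc_bd c v hv0 hv1
    have hc := abs_nonneg c
    have hM : 1 ≤ 1 + |c| := by linarith
    have p2 : (max (v0 - c) 0) ^ 2 ≤ (1 + |c|) ^ 2 := by gcongr
    have p3 : (max (v0 - c) 0) ^ 3 ≤ (1 + |c|) ^ 3 := by gcongr
    have m2 : (1 + |c|) ^ 2 ≤ (1 + |c|) ^ 3 := pow_le_pow_right₀ hM (by norm_num)
    have m1 : 1 + |c| ≤ (1 + |c|) ^ 3 := by
      calc 1 + |c| = (1 + |c|) ^ 1 := by ring
        _ ≤ _ := pow_le_pow_right₀ hM (by norm_num)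
    have m0 : 0 ≤ (1 + |c|) ^ 3 := by positivity
    refine ⟨?_, by rw [abs_zero]; positivity, ?_, ?_⟩
    · rw [abs_of_nonneg (by positivity)]
      linarith
    · rw [abs_of_nonneg (by positivity)]
      linarith
    · obtain ⟨t1, t2⟩ := trunc_sq c v v0
      have t3 := trunc_cube_tay _ _ (v - v0) c1 b1 t1 t2 (trunc_lip c v v0) c2 b2
      have e : (max (v - c) 0) ^ 3 - (max (v0 - c) 0) ^ 3 - 0 * (u - u0) -
        3 * (max (v0 - c) 0) ^ 2 * (v - v0) = (max (v - c) 0) ^ 3 - (max (v0 - c) 0) ^ 3 -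
          3 * (max (v0 - c) 0) ^ 2 * (v - v0) := by ring
      rw [e]
      refine t3.trans ?_
      have h4 : 0 ≤ (v - v0) ^ 2 := sq_nonneg _
      have h5 : 0 ≤ (u - u0) ^ 2 := sq_nonneg _
      nlinarith
  · intro x x' y _ _ _ _ _ _
    have hc := abs_nonneg c
    constructor
    · rw [sub_self, abs_zero]; positivity
    · rw [sub_self, abs_zero]; positivity

/-- truncated cube in `x` -/
theorem Reg.tx3 (c : ℝ) : Reg (fun x _ => (max (x - c) 0) ^ 3) := by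
  refine ⟨fun x _ => 3 * (max (x - c) 0) ^ 2, fun _ _ => 0, 6 * (1 + |c|) ^ 3, by positivity,
    ?_, ?_⟩
  · intro v u v0 u0 hv0 hv1 _ _ h1 h2 _ _
    obtain ⟨b1, b2⟩ := trunc_bd c v0 h1 h2
    obtain ⟨c1, c2⟩ := trunc_bd c v hv0 hv1
    have hc := abs_nonneg c
    have hM : 1 ≤ 1 + |c| := by linarith
    have p2 : (max (v0 - c) 0) ^ 2 ≤ (1 + |c|) ^ 2 := by gcongr
    have p3 : (max (v0 - c) 0) ^ 3 ≤ (1 + |c|) ^ 3 := by gcongr
    have m2 : (1 + |c|) ^ 2 ≤ (1 + |c|) ^ 3 := pow_le_pow_right₀ hM (by norm_num)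
    have m1 : 1 + |c| ≤ (1 + |c|) ^ 3 := by
      calc 1 + |c| = (1 + |c|) ^ 1 := by ring
        _ ≤ _ := pow_le_pow_right₀ hM (by norm_num)
    have m0 : 0 ≤ (1 + |c|) ^ 3 := by positivity
    refine ⟨?_, ?_, by rw [abs_zero]; positivity, ?_⟩
    · rw [abs_of_nonneg (by positivity)]
      linarith
    · rw [abs_of_nonneg (by positivity)]
      linarith
    · obtain ⟨t1, t2⟩ := trunc_sq c v v0
      have t3 := trunc_cube_tay _ _ (v - v0) c1 b1 t1 t2 (trunc_lip c v v0) c2 b2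
      have e : (max (v - c) 0) ^ 3 - (max (v0 - c) 0) ^ 3 -
        3 * (max (v0 - c) 0) ^ 2 * (v - v0) - 0 * (u - u0) =
          (max (v - c) 0) ^ 3 - (max (v0 - c) 0) ^ 3 -
          3 * (max (v0 - c) 0) ^ 2 * (v - v0) := by ring
      rw [e]
      refine t3.trans ?_
      have h4 : 0 ≤ (v - v0) ^ 2 := sq_nonneg _
      have h5 : 0 ≤ (u - u0) ^ 2 := sq_nonneg _
      nlinarith
  · intro x x' y h1 h2 h3 h4 _ _
    obtain ⟨b1, b2⟩ := trunc_bd c x h1 h2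
    obtain ⟨c1, c2⟩ := trunc_bd c x' h3 h4
    have hc := abs_nonneg c
    have hM : 1 ≤ 1 + |c| := by linarith
    have m1 : 1 + |c| ≤ (1 + |c|) ^ 3 := by
      calc 1 + |c| = (1 + |c|) ^ 1 := by ring
        _ ≤ _ := pow_le_pow_right₀ hM (by norm_num)
    constructor
    · have e : 3 * (max (x - c) 0) ^ 2 - 3 * (max (x' - c) 0) ^ 2 =
        3 * ((max (x - c) 0 + max (x' - c) 0) * (max (x - c) 0 - max (x' - c) 0)) := by ring
      rw [e, abs_mul, abs_mul, abs_of_pos (by norm_num : (0:ℝ) < 3),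
        abs_of_nonneg (by positivity : (0:ℝ) ≤ max (x - c) 0 + max (x' - c) 0)]
      have t := trunc_lip c x x'
      have : (max (x - c) 0 + max (x' - c) 0) * |max (x - c) 0 - max (x' - c) 0| ≤
        (2 * (1 + |c|)) * |x - x'| := mul_le_mul (by linarith) t (abs_nonneg _) (by positivity)
      nlinarith [abs_nonneg (x - x')]
    · rw [sub_self, abs_zero]; positivity

theorem Reg.lip {G : ℝ → ℝ → ℝ} (hG : Reg G) : ∃ L : ℝ, ∀ x y x' y' : ℝ, 0 ≤ y → y ≤ x → x ≤ 1 →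
    0 ≤ y' → y' ≤ x' → x' ≤ 1 → |G x y - G x' y'| ≤ L * (|x - x'| + |y - y'|) := by
  obtain ⟨Gx, Gy, L, hL, h, _⟩ := hG
  refine ⟨2 * L, ?_⟩
  intro x y x' y' a1 a2 a3 a4 a5 a6
  obtain ⟨_, h2, h3, h4⟩ := h x y x' y' (by linarith) a3 a1 (by linarith) (by linarith) a6 a4
    (by linarith)
  have k1 : |x - x'| ≤ 1 := by rw [abs_le]; constructor <;> linarith
  have k2 : |y - y'| ≤ 1 := by rw [abs_le]; constructor <;> linarith
  have k3 : (x - x') ^ 2 ≤ |x - x'| := by rw [← sq_abs]; nlinarith [abs_nonneg (x - x')]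
  have k4 : (y - y') ^ 2 ≤ |y - y'| := by rw [← sq_abs]; nlinarith [abs_nonneg (y - y')]
  have k5 : |Gx x' y' * (x - x')| ≤ L * |x - x'| := by
    rw [abs_mul]; exact mul_le_mul_of_nonneg_right h2 (abs_nonneg _)
  have k6 : |Gy x' y' * (y - y')| ≤ L * |y - y'| := by
    rw [abs_mul]; exact mul_le_mul_of_nonneg_right h3 (abs_nonneg _)
  have e : G x y - G x' y' = (G x y - G x' y' - Gx x' y' * (x - x') - Gy x' y' * (y - y')) +
    (Gx x' y' * (x - x') + Gy x' y' * (y - y')) := by ring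
  rw [e]
  refine (abs_add_le _ _).trans ?_
  have t := abs_add_le (Gx x' y' * (x - x')) (Gy x' y' * (y - y'))
  have : L * ((x - x') ^ 2 + (y - y') ^ 2) ≤ L * (|x - x'| + |y - y'|) :=
    mul_le_mul_of_nonneg_left (by linarith) hL
  linarith

/-- a regular function which satisfies the remaining conditions is a certificate -/
theorem Cert4.of_reg {pay : ℝ → ℝ → ℝ → ℝ} {G : ℝ → ℝ → ℝ} {V : ℝ} (hG : Reg G)
    (zero : G 0 0 = 0) (nonneg : ∀ x y : ℝ, 0 ≤ y → y ≤ x → x ≤ 1 → 0 ≤ G x y)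
    (le : ∀ x y : ℝ, 0 ≤ y → y ≤ x → x ≤ 1 → G x y ≤ V)
    (dyn : ∀ x y δ : ℝ, 0 ≤ y → y ≤ x → x ≤ 1 → 0 ≤ δ → δ ≤ (1 - x) ^ 2 →
      G x y + pay x y δ ≤ G (2 * x - x ^ 2 + δ) (2 * y - y ^ 2 + (x - y) ^ 2 / 2)) :
    Cert4 pay G V where
  zero := zero
  nonneg := nonneg
  le := le
  lip := hG.lip
  smooth := by
    obtain ⟨Gx, Gy, L, _, h, h'⟩ := hG
    exact ⟨1, one_pos, G, Gx, Gy, L, h, h', fun _ _ _ _ _ => rfl⟩
  dyn := dyn

end Pool.Agent.Helper2.OC
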