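import Pool.Agent.Helper2.OD.Point

/-!
# One round: the sum of the certificate over all colours
-/

namespace Pool.Agent.Helper2.OC

open Finset

theorem Fix1.subset {p p' : Comp} (h : Fix1 p p') (σ : Bool) : p σ ⊆ p' σ := by
  obtain ⟨χ, h1, _⟩ := h
  rw [h1]
  exact Finset.subset_insert _ _

theorem Fix1.ok {p p' : Comp} (h : Fix1 p p') : p'.Ok := by
  obtain ⟨χ, h1, h2⟩ := h
  intro σ
  exact ⟨χ σ, by rw [h1]; exact Finset.mem_insert_self _ _, h2 σ⟩

theorem Fix1.de_eq {p p' : Comp} (h : Fix1 p p') (c : ℕ) : de c p' = de c p := by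
  obtain ⟨χ, h1, h2⟩ := h
  have hiff : (c ∈ p' false ∧ c ∈ p' true) ↔ (c ∈ p false ∧ c ∈ p true) := by
    constructor
    · rintro ⟨ha, hb⟩
      constructor
      · have := ha
        rw [h1, Finset.mem_insert] at this
        rcases this with h | h
        · exact absurd (h ▸ hb) (h2 false)
        · exact h
      · have := hb
        rw [h1, Finset.mem_insert] at this
        rcases this with h | h
        · exact absurd (h ▸ ha) (h2 true)
        · exact h
    · rintro ⟨ha, hb⟩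
      constructor
      · rw [h1]; exact Finset.mem_insert_of_mem ha
      · rw [h1]; exact Finset.mem_insert_of_mem hb
  unfold de
  rw [if_congr hiff rfl rfl]

theorem Fix1.us_mono {p p' : Comp} (h : Fix1 p p') (c : ℕ) : us c p ≤ us c p' := by
  unfold us
  by_cases h1 : c ∈ p false ∨ c ∈ p true
  · have : c ∈ p' false ∨ c ∈ p' true := h1.imp (fun x => h.subset _ x) (fun x => h.subset _ x)
    rw [if_pos h1, if_pos this]
  · rw [if_neg h1]
    split_ifs <;> norm_num

theorem Fix1.sum_us_le {p p' : Comp} (h : Fix1 p p') (P : Finset ℕ) :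
    ∑ c ∈ P, (us c p' - us c p) ≤ 2 := by
  obtain ⟨χ, h1, h2⟩ := id h
  have hc : ∀ c ∈ P, us c p' - us c p ≤
      (if c = χ false then (1:ℝ) else 0) + (if c = χ true then 1 else 0) := by
    intro c _
    by_cases ha : c = χ false ∨ c = χ true
    · have e1 := us_le_one c p'
      have e2 := us_nonneg c p
      rcases ha with ha | ha
      · rw [if_pos ha]
        have : (0:ℝ) ≤ if c = χ true then 1 else 0 := by split_ifs <;> norm_num
        linarith
      · rw [if_pos ha]
        have : (0:ℝ) ≤ if c = χ false then 1 else 0 := by split_ifs <;> norm_num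
        linarith
    · push Not at ha
      rw [if_neg ha.1, if_neg ha.2]
      have hiff : (c ∈ p' false ∨ c ∈ p' true) ↔ (c ∈ p false ∨ c ∈ p true) := by
        rw [h1, h1, Finset.mem_insert, Finset.mem_insert]
        constructor
        · rintro ((h | h) | (h | h))
          · exact absurd h ha.1
          · exact Or.inl h
          · exact absurd h ha.2
          · exact Or.inr h
        · rintro (h | h)
          · exact Or.inl (Or.inr h)
          · exact Or.inr (Or.inr h)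
      unfold us
      rw [if_congr hiff rfl rfl]
      simp
  refine (Finset.sum_le_sum hc).trans ?_
  rw [Finset.sum_add_distrib, Finset.sum_ite_eq', Finset.sum_ite_eq']
  split_ifs <;> norm_num

section

variable {α β : Type*} [Fintype α] [Fintype β] [DecidableEq α] [DecidableEq β]

/-- introduced mass of a colour -/
noncomputable def dlt (c : ℕ) (s0 s' : β → Comp) : ℝ := xs c s' - xs c s0

theorem dlt_eq (c : ℕ) (s0 s' : β → Comp) :
    dlt c s0 s' = (∑ j, (us c (s' j) - us c (s0 j))) / Fintype.card β := by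
  unfold dlt xs
  rw [← sub_div, Finset.sum_sub_distrib]

theorem dlt_nonneg {s0 s' : β → Comp} (h : ∀ j, Fix1 (s0 j) (s' j)) (c : ℕ) :
    0 ≤ dlt c s0 s' := by
  rw [dlt_eq]
  exact div_nonneg (Finset.sum_nonneg fun j _ => sub_nonneg.mpr ((h j).us_mono c))
    (Nat.cast_nonneg _)

theorem dlt_le_one {s0 s' : β → Comp} (c : ℕ) : dlt c s0 s' ≤ 1 := by
  unfold dlt
  have := xs_le_one c s'
  have := xs_nonneg c s0
  linarith

theorem sum_dlt_le {s0 s' : β → Comp} (h : ∀ j, Fix1 (s0 j) (s' j)) (P : Finset ℕ) :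
    ∑ c ∈ P, dlt c s0 s' ≤ 2 := by
  simp only [dlt_eq]
  rw [← Finset.sum_div, Finset.sum_comm]
  rcases (Nat.cast_nonneg (Fintype.card β) : (0:ℝ) ≤ Fintype.card β).eq_or_lt with h0 | h0
  · rw [← h0, div_zero]; norm_num
  · rw [div_le_iff₀ h0]
    calc ∑ j, ∑ c ∈ P, (us c (s' j) - us c (s0 j)) ≤ ∑ _j : β, (2:ℝ) :=
          Finset.sum_le_sum fun j _ => (h j).sum_us_le P
      _ = 2 * Fintype.card β := by
          rw [Finset.sum_const, Finset.card_univ, nsmul_eq_mul, mul_comm]

/-- mean square deviations of the pre-fix statistics -/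
theorem devs (hcard : Fintype.card α = 2 * Fintype.card β) (h3 : 3 ≤ Fintype.card β)
    (c : ℕ) (s : α → Comp) :
    (∑ o : (α ≃ β × Bool) × (β → Bool), (xs c (mst s o) - (2 * xs c s - xs c s ^ 2)) ^ 2 ≤
      (Fintype.card ((α ≃ β × Bool) × (β → Bool)) : ℝ) * (20 * xs c s / Fintype.card β)) ∧
    (∑ o : (α ≃ β × Bool) × (β → Bool),
        (ys c (mst s o) - (2 * ys c s - ys c s ^ 2 + (xs c s - ys c s) ^ 2 / 2)) ^ 2 ≤
      (Fintype.card ((α ≃ β × Bool) × (β → Bool)) : ℝ) * (20 * xs c s / Fintype.card β)) ∧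
    |∑ o : (α ≃ β × Bool) × (β → Bool), (xs c (mst s o) - (2 * xs c s - xs c s ^ 2))| ≤
      (Fintype.card ((α ≃ β × Bool) × (β → Bool)) : ℝ) * (xs c s / Fintype.card β) ∧
    |∑ o : (α ≃ β × Bool) × (β → Bool),
        (ys c (mst s o) - (2 * ys c s - ys c s ^ 2 + (xs c s - ys c s) ^ 2 / 2))| ≤
      (Fintype.card ((α ≃ β × Bool) × (β → Bool)) : ℝ) * (xs c s / Fintype.card β) := by
  set W : ℝ := (Fintype.card ((α ≃ β × Bool) × (β → Bool)) : ℝ) with hW
  have hW0 : 0 ≤ W := Nat.cast_nonneg _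
  set b : ℝ := (Fintype.card β : ℝ) with hb
  have hb3 : (3 : ℝ) ≤ b := by rw [hb]; exact_mod_cast h3
  have hb0 : 0 < b := by linarith
  set x := xs c s with hx
  set y := ys c s with hy
  have hy0 : 0 ≤ y := ys_nonneg c s
  have hyx : y ≤ x := ys_le_xs c s
  have hx1 : x ≤ 1 := xs_le_one c s
  have hx0 : 0 ≤ x := hy0.trans hyx
  set x1 : ℝ := 2 * x - x ^ 2 with hx1'
  set y1 : ℝ := 2 * y - y ^ 2 + (x - y) ^ 2 / 2 with hy1'
  have hne : Nonempty (Fin 2 ↪ α) := by
    refine ⟨(Function.Embedding.nonempty_of_card_le ?_).some⟩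
    rw [Fintype.card_fin, hcard]
    omega
  have hM : 2 ≤ Fintype.card α := by omega
  have hMb : (Fintype.card α : ℝ) - 1 = 2 * b - 1 := by rw [hcard]; push_cast; ring
  have hMb' : b ≤ (Fintype.card α : ℝ) - 1 := by rw [hMb]; linarith
  set dU : α → α → Bool → ℝ := fun i i' y => us c (mrg (s i) (s i') y) with hdU
  set dD : α → α → Bool → ℝ := fun i i' y => de c (mrg (s i) (s i') y) with hdD
  have mU : |pairMean dU - x1| ≤ x / b :=
    (mean_us_err c s hM).trans (div_le_div_of_nonneg_left hx0 hb0 hMb')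
  have mD : |pairMean dD - y1| ≤ x / b :=
    (mean_de_err c s hM).trans (div_le_div_of_nonneg_left hx0 hb0 hMb')
  have hxb : x / b ≤ x := div_le_self hx0 (by linarith)
  have mU3 : pairMean dU ≤ 3 * x := by
    have := (abs_le.mp mU).2
    have e : x1 ≤ 2 * x := by rw [hx1']; nlinarith
    linarith
  have mD3 : pairMean dD ≤ 3 * x := by
    have := (abs_le.mp mD).2
    have e : y1 ≤ 2 * x := by
      rw [hy1']
      nlinarith [mul_nonneg hy0 (sub_nonneg.mpr hyx), mul_nonneg (sub_nonneg.mpr hyx) (sub_nonneg.mpr hx1)]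
    linarith
  have sqU := avg_sq hcard h3 dU (fun _ _ _ => us_nonneg _ _) (fun _ _ _ => us_le_one _ _) x x1
    hx0 hx1 mU mU3
  have sqD := avg_sq hcard h3 dD (fun _ _ _ => de_nonneg _ _)
    (fun _ _ _ => (de_le_us _ _).trans (us_le_one _ _)) x y1 hx0 hx1 mD mD3
  rw [← hW, ← hb] at sqU sqD
  have sumU : ∑ o : (α ≃ β × Bool) × (β → Bool), (totStat dU o / b - x1) =
      W * (pairMean dU - x1) := by
    rw [Finset.sum_sub_distrib, ← Finset.sum_div, sum_totStat hne, Finset.sum_const,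
      Finset.card_univ, nsmul_eq_mul, ← hW, ← hb]
    field_simp
  have sumD : ∑ o : (α ≃ β × Bool) × (β → Bool), (totStat dD o / b - y1) =
      W * (pairMean dD - y1) := by
    rw [Finset.sum_sub_distrib, ← Finset.sum_div, sum_totStat hne, Finset.sum_const,
      Finset.card_univ, nsmul_eq_mul, ← hW, ← hb]
    field_simp
  refine ⟨?_, ?_, ?_, ?_⟩
  · simpa only [xs_mst, ← hb] using sqU
  · simpa only [ys_mst, ← hb] using sqD
  · simp only [xs_mst, ← hb]
    rw [sumU, abs_mul, abs_of_nonneg hW0]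
    exact mul_le_mul_of_nonneg_left mU hW0
  · simp only [ys_mst, ← hb]
    rw [sumD, abs_mul, abs_of_nonneg hW0]
    exact mul_le_mul_of_nonneg_left mD hW0

theorem errE_le {x δ d d' r : ℝ} (hx : 0 ≤ x) (hx1 : x ≤ 1) (hr : 0 < r) (hr1 : r ≤ 1) :
    errE x δ d d' ≤ r * δ ^ 2 + r * x + 2 * (d ^ 2 + d' ^ 2) / r := by
  unfold errE
  have h1 : δ * |d| ≤ r * δ ^ 2 / 2 + d ^ 2 / (2 * r) := by
    rw [div_add_div _ _ two_ne_zero (by positivity), le_div_iff₀ (by positivity), ← sq_abs d]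
    nlinarith [sq_nonneg (r * δ - |d|)]
  have h2 : δ * |d'| ≤ r * δ ^ 2 / 2 + d' ^ 2 / (2 * r) := by
    rw [div_add_div _ _ two_ne_zero (by positivity), le_div_iff₀ (by positivity), ← sq_abs d']
    nlinarith [sq_nonneg (r * δ - |d'|)]
  have h3 : x * |d| ≤ r * x ^ 2 / 2 + d ^ 2 / (2 * r) := by
    rw [div_add_div _ _ two_ne_zero (by positivity), le_div_iff₀ (by positivity), ← sq_abs d]
    nlinarith [sq_nonneg (r * x - |d|)]
  have h4 : x * |d'| ≤ r * x ^ 2 / 2 + d' ^ 2 / (2 * r) := by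
    rw [div_add_div _ _ two_ne_zero (by positivity), le_div_iff₀ (by positivity), ← sq_abs d']
    nlinarith [sq_nonneg (r * x - |d'|)]
  have h5 : x ^ 2 ≤ x := by nlinarith
  have h6 : r * x ^ 2 ≤ r * x := mul_le_mul_of_nonneg_left h5 hr.le
  have h7 : d ^ 2 + d' ^ 2 ≤ (d ^ 2 + d' ^ 2) / r := by
    rw [le_div_iff₀ hr]
    nlinarith [sq_nonneg d, sq_nonneg d']
  have h8 : 2 * (d ^ 2 + d' ^ 2) / r = (d ^ 2 / (2 * r) + d' ^ 2 / (2 * r)) +
      (d ^ 2 / (2 * r) + d' ^ 2 / (2 * r)) + (d ^ 2 + d' ^ 2) / r := by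
    field_simp
    ring
  rw [h8, mul_add, mul_add]
  linarith

/-- The certificate over one round. -/
theorem cert4_step {pay : ℝ → ℝ → ℝ → ℝ} {G : ℝ → ℝ → ℝ} {V Lp : ℝ} (hG : Cert4 pay G V)
    (hp : PayLip pay Lp) :
    ∃ A : ℝ, 0 ≤ A ∧ ∀ (α β : Type) [Fintype α] [Fintype β] [DecidableEq α] [DecidableEq β],
      Fintype.card α = 2 * Fintype.card β → 3 ≤ Fintype.card β →
      ∀ (s : α → Comp) (F : (α ≃ β × Bool) × (β → Bool) → β → Comp),
      (∀ o j, Fix1 (mst s o j) (F o j)) → ∀ P : Finset ℕ,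
      (Fintype.card ((α ≃ β × Bool) × (β → Bool)) : ℝ) *
        (∑ c ∈ P, G (xs c s) (ys c s) -
          A * (∑ c ∈ P, xs c s + 1) / Real.sqrt (Fintype.card β)) +
        ∑ o : (α ≃ β × Bool) × (β → Bool), ∑ c ∈ P, pay (xs c s) (ys c s) (dlt c (mst s o) (F o)) ≤
      ∑ o : (α ≃ β × Bool) × (β → Bool), ∑ c ∈ P, G (xs c (F o)) (ys c (F o)) := by
  obtain ⟨A, hA, hpt⟩ := cert4_point hG hp
  refine ⟨83 * A, by positivity, ?_⟩
  intro α β _ _ _ _ hcard h3 s F hF P
  set W : ℝ := (Fintype.card ((α ≃ β × Bool) × (β → Bool)) : ℝ) with hW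
  have hW0 : 0 ≤ W := Nat.cast_nonneg _
  set b : ℝ := (Fintype.card β : ℝ) with hb
  have hb3 : (3 : ℝ) ≤ b := by rw [hb]; exact_mod_cast h3
  have hb0 : 0 < b := by linarith
  set r : ℝ := 1 / Real.sqrt b with hr
  have hsb : 0 < Real.sqrt b := Real.sqrt_pos.mpr hb0
  have hr0 : 0 < r := by rw [hr]; positivity
  have hr2 : r ^ 2 = 1 / b := by
    rw [hr, div_pow, one_pow, Real.sq_sqrt hb0.le]
  have hr1 : r ≤ 1 := by
    rw [hr, div_le_one hsb]
    exact Real.one_le_sqrt.mpr (by linarith)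
  -- one colour
  have h1 : ∀ c ∈ P, W * (G (xs c s) (ys c s) - A * (83 * xs c s) * r) +
      ∑ o : (α ≃ β × Bool) × (β → Bool), (pay (xs c s) (ys c s) (dlt c (mst s o) (F o)) -
        A * r * dlt c (mst s o) (F o) ^ 2) ≤
      ∑ o : (α ≃ β × Bool) × (β → Bool), G (xs c (F o)) (ys c (F o)) := by
    intro c _
    set x := xs c s with hx
    set y := ys c s with hy
    have hy0 : 0 ≤ y := ys_nonneg c s
    have hyx : y ≤ x := ys_le_xs c s
    have hx1 : x ≤ 1 := xs_le_one c s
    have hx0 : 0 ≤ x := hy0.trans hyx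
    obtain ⟨gx, gy, hgx, hgy, hpt'⟩ := hpt x y hy0 hyx hx1
    obtain ⟨d1, d2, d3, d4⟩ := devs hcard h3 c s
    simp only [← hx, ← hy, ← hW, ← hb] at d1 d2 d3 d4
    set x1 : ℝ := 2 * x - x ^ 2 with hx1'
    set y1 : ℝ := 2 * y - y ^ 2 + (x - y) ^ 2 / 2 with hy1'
    have hpo : ∀ o : (α ≃ β × Bool) × (β → Bool),
        G x y + pay x y (dlt c (mst s o) (F o)) + gx * (xs c (mst s o) - x1) +
          gy * (ys c (mst s o) - y1) - A * (r * dlt c (mst s o) (F o) ^ 2 + r * x +
          2 * ((xs c (mst s o) - x1) ^ 2 + (ys c (mst s o) - y1) ^ 2) / r) ≤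
        G (xs c (F o)) (ys c (F o)) := by
      intro o
      have hys : ys c (F o) = ys c (mst s o) := by
        unfold ys
        rw [Finset.sum_congr rfl fun j _ => (hF o j).de_eq c]
      have e : xs c (mst s o) + dlt c (mst s o) (F o) = xs c (F o) := by unfold dlt; ring
      have := hpt' (xs c (mst s o)) (dlt c (mst s o) (F o)) (ys c (mst s o)) (ys_nonneg _ _)
        (ys_le_xs _ _) (dlt_nonneg (hF o) c) (by rw [e]; exact xs_le_one _ _)
      rw [e] at this
      rw [hys]
      refine le_trans ?_ this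
      have h5 := errE_le (δ := dlt c (mst s o) (F o)) (d := xs c (mst s o) - x1)
        (d' := ys c (mst s o) - y1) hx0 hx1 hr0 hr1
      have h6 := mul_le_mul_of_nonneg_left h5 hA
      linarith
    refine le_trans ?_ (Finset.sum_le_sum fun o _ => hpo o)
    have hsum : ∑ o : (α ≃ β × Bool) × (β → Bool), (G x y + pay x y (dlt c (mst s o) (F o)) +
        gx * (xs c (mst s o) - x1) + gy * (ys c (mst s o) - y1) -
        A * (r * dlt c (mst s o) (F o) ^ 2 + r * x +
          2 * ((xs c (mst s o) - x1) ^ 2 + (ys c (mst s o) - y1) ^ 2) / r)) =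
        W * G x y + ∑ o : (α ≃ β × Bool) × (β → Bool), (pay x y (dlt c (mst s o) (F o)) -
          A * r * dlt c (mst s o) (F o) ^ 2) +
        gx * ∑ o : (α ≃ β × Bool) × (β → Bool), (xs c (mst s o) - x1) +
        gy * ∑ o : (α ≃ β × Bool) × (β → Bool), (ys c (mst s o) - y1) -
        A * (W * (r * x) + 2 / r * (∑ o : (α ≃ β × Bool) × (β → Bool), (xs c (mst s o) - x1) ^ 2 +
          ∑ o : (α ≃ β × Bool) × (β → Bool), (ys c (mst s o) - y1) ^ 2)) := by
      rw [Finset.mul_sum, Finset.mul_sum, ← Finset.sum_add_distrib, Finset.mul_sum]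
      rw [hW, show (Fintype.card ((α ≃ β × Bool) × (β → Bool)) : ℝ) * G x y =
        ∑ _o : (α ≃ β × Bool) × (β → Bool), G x y by
          rw [Finset.sum_const, Finset.card_univ, nsmul_eq_mul],
        show (Fintype.card ((α ≃ β × Bool) × (β → Bool)) : ℝ) * (r * x) =
        ∑ _o : (α ≃ β × Bool) × (β → Bool), r * x by
          rw [Finset.sum_const, Finset.card_univ, nsmul_eq_mul]]
      rw [← Finset.sum_add_distrib, ← Finset.sum_add_distrib, ← Finset.sum_add_distrib,
        ← Finset.sum_add_distrib, Finset.mul_sum, ← Finset.sum_sub_distrib]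
      refine Finset.sum_congr rfl fun o _ => ?_
      field_simp
      ring
    rw [hsum]
    have e1 : -(A * (W * (x / b))) ≤
        gx * ∑ o : (α ≃ β × Bool) × (β → Bool), (xs c (mst s o) - x1) := by
      have : |gx * ∑ o : (α ≃ β × Bool) × (β → Bool), (xs c (mst s o) - x1)| ≤
          A * (W * (x / b)) := by
        rw [abs_mul]
        exact mul_le_mul hgx d3 (abs_nonneg _) hA
      exact (abs_le.mp this).1
    have e2 : -(A * (W * (x / b))) ≤
        gy * ∑ o : (α ≃ β × Bool) × (β → Bool), (ys c (mst s o) - y1) := by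
      have : |gy * ∑ o : (α ≃ β × Bool) × (β → Bool), (ys c (mst s o) - y1)| ≤
          A * (W * (x / b)) := by
        rw [abs_mul]
        exact mul_le_mul hgy d4 (abs_nonneg _) hA
      exact (abs_le.mp this).1
    have e3 : 2 / r * (∑ o : (α ≃ β × Bool) × (β → Bool), (xs c (mst s o) - x1) ^ 2 +
          ∑ o : (α ≃ β × Bool) × (β → Bool), (ys c (mst s o) - y1) ^ 2) ≤
        W * (80 * x * r) := by
      have h7 := mul_le_mul_of_nonneg_left (add_le_add d1 d2) (by positivity : (0:ℝ) ≤ 2 / r)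
      refine h7.trans (le_of_eq ?_)
      have : 20 * x / b = 20 * x * r ^ 2 := by rw [hr2]; ring
      rw [this]
      field_simp
      ring
    have e4 : x / b ≤ x * r := by
      have : x / b = x * r ^ 2 := by rw [hr2]; ring
      rw [this]
      nlinarith [mul_nonneg hx0 hr0.le]
    have e5 : A * (W * (x / b)) ≤ A * (W * (x * r)) :=
      mul_le_mul_of_nonneg_left (mul_le_mul_of_nonneg_left e4 hW0) hA
    have e6 := mul_le_mul_of_nonneg_left e3 hA
    nlinarith
  have h2 := Finset.sum_le_sum h1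
  rw [Finset.sum_comm (s := P) (t := univ), Finset.sum_add_distrib,
    Finset.sum_comm (s := P) (t := univ)] at h2
  refine le_trans ?_ h2
  have h4 : ∑ o : (α ≃ β × Bool) × (β → Bool), (∑ c ∈ P, pay (xs c s) (ys c s)
      (dlt c (mst s o) (F o)) - A * r * 2) ≤
      ∑ o : (α ≃ β × Bool) × (β → Bool), ∑ c ∈ P, (pay (xs c s) (ys c s)
        (dlt c (mst s o) (F o)) - A * r * dlt c (mst s o) (F o) ^ 2) := by
    refine Finset.sum_le_sum fun o _ => ?_
    rw [Finset.sum_sub_distrib, ← Finset.mul_sum]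
    have h5 : ∑ c ∈ P, dlt c (mst s o) (F o) ^ 2 ≤ 2 := by
      refine le_trans (Finset.sum_le_sum fun c _ => ?_) (sum_dlt_le (hF o) P)
      have a1 := dlt_nonneg (hF o) c
      have a2 := dlt_le_one (s0 := mst s o) (s' := F o) c
      nlinarith
    have := mul_le_mul_of_nonneg_left h5 (mul_nonneg hA hr0.le)
    linarith
  rw [Finset.sum_sub_distrib, Finset.sum_const, Finset.card_univ, nsmul_eq_mul, ← hW] at h4
  have h6 : ∑ c ∈ P, W * (G (xs c s) (ys c s) - A * (83 * xs c s) * r) =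
      W * (∑ c ∈ P, G (xs c s) (ys c s) - 83 * A * r * ∑ c ∈ P, xs c s) := by
    rw [← Finset.mul_sum, Finset.sum_sub_distrib, Finset.mul_sum (s := P) (a := 83 * A * r)]
    congr 2
    exact Finset.sum_congr rfl fun c _ => by ring
  rw [h6]
  have h7 : 83 * A * (∑ c ∈ P, xs c s + 1) / Real.sqrt b =
      83 * A * r * ∑ c ∈ P, xs c s + 83 * A * r := by
    rw [hr]; field_simp
  rw [h7]
  have h8 : 0 ≤ W * (A * r) := by positivity
  nlinarith

end

end Pool.Agent.Helper2.OC
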