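import Pool.Agent.Helper2.OD.StepA

/-!
# Symmetrisation over the 24 orders and the 4 orientations of two merged pairs
-/

namespace Pool.Agent.Helper2.OC

open Finset

section

variable {α β : Type*} [Fintype α] [Fintype β] [DecidableEq α] [DecidableEq β]

theorem sum_update_bool (j : β) (Φ : (β → Bool) → ℝ) :
    ∑ y : β → Bool, ∑ o : Bool, Φ (Function.update y j o) = 2 * ∑ y, Φ y := by
  classical
  let E : ((β → Bool) × Bool) ≃ ((β → Bool) × Bool) :=
    { toFun := fun q => (Function.update q.1 j q.2, q.1 j)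
      invFun := fun q => (Function.update q.1 j q.2, q.1 j)
      left_inv := by
        rintro ⟨ω, x⟩
        simp
      right_inv := by
        rintro ⟨ω, x⟩
        simp }
  rw [← Fintype.sum_prod_type' (f := fun (ω : β → Bool) (x : Bool) => Φ (Function.update ω j x))]
  have h1 : ∑ q : (β → Bool) × Bool, Φ (Function.update q.1 j q.2) =
      ∑ q : (β → Bool) × Bool, Φ q.1 :=
    Fintype.sum_equiv E (fun q => Φ (Function.update q.1 j q.2)) (fun q => Φ q.1) (fun q => rfl)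
  rw [h1, Fintype.sum_prod_type]
  simp only [Finset.sum_const, Finset.card_univ, nsmul_eq_mul, Fintype.card_bool]
  rw [Finset.mul_sum]
  norm_num

/-- permute the four elements in the slots of `z 0, z 1`, and set the two orientations -/
def act (z : Fin 2 ↪ β) (σ : Equiv.Perm (Fin 4)) (o o' : Bool)
    (ω : (α ≃ β × Bool) × (β → Bool)) : (α ≃ β × Bool) × (β → Bool) :=
  (ω.1.trans (σ.viaFintypeEmbedding (slots4 (fun h => absurd (z.injective h) (by decide) : z 0 ≠ z 1))).symm,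
    Function.update (Function.update ω.2 (z 0) o) (z 1) o')

theorem sum_act (z : Fin 2 ↪ β) (Φ : (α ≃ β × Bool) × (β → Bool) → ℝ) :
    ∑ ω : (α ≃ β × Bool) × (β → Bool), ∑ σ : Equiv.Perm (Fin 4), ∑ o : Bool, ∑ o' : Bool,
      Φ (act z σ o o' ω) = 96 * ∑ ω, Φ ω := by
  rw [Finset.sum_comm]
  have h1 : ∀ σ : Equiv.Perm (Fin 4), ∑ ω : (α ≃ β × Bool) × (β → Bool), ∑ o : Bool, ∑ o' : Bool,
      Φ (act z σ o o' ω) = 4 * ∑ ω, Φ ω := by
    intro σ
    unfold act
    rw [Fintype.sum_prod_type, Fintype.sum_prod_type (f := Φ)]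
    simp only
    set E := (σ.viaFintypeEmbedding (slots4 (fun h => absurd (z.injective h) (by decide) : z 0 ≠ z 1)))
      with hE
    have h2 : ∀ Ψ : (α ≃ β × Bool) → ℝ, ∑ e : α ≃ β × Bool, Ψ (e.trans E.symm) =
        ∑ e : α ≃ β × Bool, Ψ e := by
      intro Ψ
      refine Fintype.sum_equiv (Equiv.equivCongr (Equiv.refl α) E.symm) _ _ fun e => ?_
      congr 1
    have h3 : ∀ e : α ≃ β × Bool, ∑ y : β → Bool, ∑ o : Bool, ∑ o' : Bool,
        Φ (e, Function.update (Function.update y (z 0) o) (z 1) o') = 4 * ∑ y, Φ (e, y) := by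
      intro e
      rw [sum_update_bool (z 0) (fun y => ∑ o' : Bool, Φ (e, Function.update y (z 1) o')),
        sum_update_bool (z 1) (fun y => Φ (e, y))]
      ring
    rw [h2 (fun e => ∑ y : β → Bool, ∑ o : Bool, ∑ o' : Bool,
        Φ (e, Function.update (Function.update y (z 0) o) (z 1) o')),
      Finset.sum_congr rfl fun e _ => h3 e, ← Finset.mul_sum]
  rw [Finset.sum_congr rfl fun σ _ => h1 σ, Finset.sum_const, Finset.card_univ, nsmul_eq_mul,
    Fintype.card_perm, Fintype.card_fin]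
  norm_num [Nat.factorial]
  ring

/-- the four components in the slots of `z 0, z 1` -/
def four (s : α → Comp) (z : Fin 2 ↪ β) (ω : (α ≃ β × Bool) × (β → Bool)) (i : Fin 4) : Comp :=
  s (ω.1.symm (slots4 (fun h => absurd (z.injective h) (by decide) : z 0 ≠ z 1) i))

theorem four_act (s : α → Comp) (z : Fin 2 ↪ β) (σ : Equiv.Perm (Fin 4)) (o o' : Bool)
    (ω : (α ≃ β × Bool) × (β → Bool)) (i : Fin 4) :
    four s z (act z σ o o' ω) i = four s z ω (σ i) := by
  unfold four act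
  simp only [Equiv.symm_trans_apply, Equiv.symm_symm]
  rw [Equiv.Perm.viaFintypeEmbedding_apply_image]

theorem mst_zero (s : α → Comp) (z : Fin 2 ↪ β) (ω : (α ≃ β × Bool) × (β → Bool)) :
    mst s ω (z 0) = mrg (four s z ω 0) (four s z ω 1) (ω.2 (z 0)) := rfl

theorem mst_one (s : α → Comp) (z : Fin 2 ↪ β) (ω : (α ≃ β × Bool) × (β → Bool)) :
    mst s ω (z 1) = mrg (four s z ω 2) (four s z ω 3) (ω.2 (z 1)) := rfl

theorem act_snd_zero (z : Fin 2 ↪ β) (σ : Equiv.Perm (Fin 4)) (o o' : Bool)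
    (ω : (α ≃ β × Bool) × (β → Bool)) : (act z σ o o' ω).2 (z 0) = o := by
  have h : z 0 ≠ z 1 := fun h => absurd (z.injective h) (by decide)
  unfold act
  simp [Function.update_of_ne h]

theorem act_snd_one (z : Fin 2 ↪ β) (σ : Equiv.Perm (Fin 4)) (o o' : Bool)
    (ω : (α ≃ β × Bool) × (β → Bool)) : (act z σ o o' ω).2 (z 1) = o' := by
  unfold act
  simp

theorem mst_act_zero (s : α → Comp) (z : Fin 2 ↪ β) (σ : Equiv.Perm (Fin 4)) (o o' : Bool)
    (ω : (α ≃ β × Bool) × (β → Bool)) :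
    mst s (act z σ o o' ω) (z 0) = mrg (four s z ω (σ 0)) (four s z ω (σ 1)) o := by
  rw [mst_zero, four_act, four_act, act_snd_zero]

theorem mst_act_one (s : α → Comp) (z : Fin 2 ↪ β) (σ : Equiv.Perm (Fin 4)) (o o' : Bool)
    (ω : (α ≃ β × Bool) × (β → Bool)) :
    mst s (act z σ o o' ω) (z 1) = mrg (four s z ω (σ 2)) (four s z ω (σ 3)) o' := by
  rw [mst_one, four_act, four_act, act_snd_one]

/-- the part of `T4` which depends on the outcome of the merge (all but the `g` term) -/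
noncomputable def rest4 (Λ : Fin 3 → Fin 3 → Fin 3 → ℝ) (κ : ℝ) (k : Comp → Comp → ℝ)
    (s : α → Comp) (F : (α ≃ β × Bool) × (β → Bool) → β → Comp) (z : Fin 2 ↪ β)
    (ω : (α ≃ β × Bool) × (β → Bool)) : ℝ :=
  (∑ c ∈ nw (mst s ω (z 0)) (F ω (z 0)),
      lamC Λ c (four s z ω 2) (four s z ω 3) (ω.2 (z 1))) / 2 +
  (∑ c ∈ nw (mst s ω (z 1)) (F ω (z 1)),
      lamC Λ c (four s z ω 0) (four s z ω 1) (ω.2 (z 0))) / 2 -
  κ * ((nw (mst s ω (z 0)) (F ω (z 0)) ∩ nw (mst s ω (z 1)) (F ω (z 1))).card : ℝ) +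
  k (F ω (z 0)) (F ω (z 1))

theorem sym_ineq {g : Fin 3 → Fin 3 → Fin 3 → Fin 3 → ℝ} {Λ : Fin 3 → Fin 3 → Fin 3 → ℝ} {κ : ℝ}
    {k : Comp → Comp → ℝ} (h4 : FourIneq g Λ κ k) (s : α → Comp) (hs : ∀ i, (s i).Ok)
    (F : (α ≃ β × Bool) × (β → Bool) → β → Comp) (hF : ∀ o j, Fix1 (mst s o j) (F o j))
    (P : Finset ℕ) (hP : ∀ i σ, s i σ ⊆ P) (hPF : ∀ o j σ, F o j σ ⊆ P) (z : Fin 2 ↪ β) :
    ∑ ω : (α ≃ β × Bool) × (β → Bool), (96 + 8 * ∑ i, ∑ j,
      (if i ≠ j then k (four s z ω i) (four s z ω j) else 0)) ≤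
    ∑ ω : (α ≃ β × Bool) × (β → Bool), 96 * (∑ c ∈ P, g (stt c (four s z ω 0))
      (stt c (four s z ω 1)) (stt c (four s z ω 2)) (stt c (four s z ω 3)) +
      rest4 Λ κ k s F z ω) := by
  have h1 : ∀ ω : (α ≃ β × Bool) × (β → Bool), 96 + 8 * ∑ i, ∑ j,
      (if i ≠ j then k (four s z ω i) (four s z ω j) else 0) ≤
      96 * (∑ c ∈ P, g (stt c (four s z ω 0))
        (stt c (four s z ω 1)) (stt c (four s z ω 2)) (stt c (four s z ω 3))) +
      ∑ σ : Equiv.Perm (Fin 4), ∑ o : Bool, ∑ o' : Bool,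
        rest4 Λ κ k s F z (act z σ o o' ω) := by
    intro ω
    have h2 := h4 (four s z ω) (fun i => hs _) (fun σ o o' => F (act z σ o o' ω) (z 0))
      (fun σ o o' => F (act z σ o o' ω) (z 1))
      (fun σ o o' => by
        have := hF (act z σ o o' ω) (z 0)
        rwa [mst_act_zero] at this)
      (fun σ o o' => by
        have := hF (act z σ o o' ω) (z 1)
        rwa [mst_act_one] at this)
      P (fun i τ => hP _ _) (fun σ o o' τ => hPF _ _ _) (fun σ o o' τ => hPF _ _ _)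
    refine h2.trans (le_of_eq ?_)
    have h3 : ∀ σ : Equiv.Perm (Fin 4), ∀ o o' : Bool,
        T4 g Λ κ k P (four s z ω) σ o o' (F (act z σ o o' ω) (z 0)) (F (act z σ o o' ω) (z 1)) =
        (∑ c ∈ P, g (stt c (four s z ω 0))
          (stt c (four s z ω 1)) (stt c (four s z ω 2)) (stt c (four s z ω 3))) +
        rest4 Λ κ k s F z (act z σ o o' ω) := by
      intro σ o o'
      unfold T4 rest4
      rw [mst_act_zero, mst_act_one, four_act, four_act, four_act, four_act, act_snd_zero,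
        act_snd_one]
      ring
    simp only [h3]
    simp only [Finset.sum_add_distrib, Finset.sum_const, Finset.card_univ, nsmul_eq_mul,
      Fintype.card_perm, Fintype.card_fin, Fintype.card_bool]
    congr 1
    norm_num [Nat.factorial]
    ring
  refine (Finset.sum_le_sum fun ω _ => h1 ω).trans (le_of_eq ?_)
  rw [Finset.sum_add_distrib, sum_act z (rest4 Λ κ k s F z), Finset.mul_sum,
    ← Finset.sum_add_distrib]
  exact Finset.sum_congr rfl fun ω _ => by ring

end

end Pool.Agent.Helper2.OC
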