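import Pool.Agent.Helper2.PB.CertT2
import Pool.Agent.Helper22.GlueR

/-!
# `f(n) ≥ 1.001 log₂ n - C`
-/

namespace Pool.Agent.Helper2.OC

open Pool.Agent.Helper49.OC2 Pool.Agent.Helper2.PB

theorem bound_T2 : ∃ C : ℝ, ∀ n : ℕ, 1 ≤ n →
    ENNReal.ofReal (1.001 * Real.logb 2 n - C) ≤ f n := by
  obtain ⟨G, hG⟩ := glue payT2 _ _ (by norm_num) payOK_payT2 T2.cert (1 / 1000000) (by norm_num)
  rw [← payoff_eq_payT2] at hG
  exact four_bound fourIneq_T2 gT2_zero kT2_bound hG (by norm_num) (by norm_num) (by norm_num)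

end Pool.Agent.Helper2.OC
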